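import Mathlib

/-!
# Equidistribution of an irrational rotation in arcs
-/

set_option autoImplicit false

namespace Pool.Agent.X40.BA

open scoped Classical in
/-- real valued indicator -/
noncomputable def indR (p : Prop) : ℝ := if p then 1 else 0

lemma indR_one {p : Prop} (h : p) : indR p = 1 := by unfold indR; rw [if_pos h]

lemma indR_zero {p : Prop} (h : ¬ p) : indR p = 0 := by unfold indR; rw [if_neg h]

lemma indR_le {p q : Prop} (h : p → q) : indR p ≤ indR q := by
  by_cases hp : p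
  · rw [indR_one hp, indR_one (h hp)]
  · rw [indR_zero hp]
    unfold indR
    split_ifs <;> norm_num

lemma indR_nonneg (p : Prop) : 0 ≤ indR p := by
  unfold indR
  split_ifs <;> norm_num

lemma indR_le_one (p : Prop) : indR p ≤ 1 := by
  unfold indR
  split_ifs <;> norm_num

lemma tele (f : ℤ → ℝ) (K : ℕ) (c : ℤ) :
    ∑ k ∈ Finset.range K, (f ((k : ℤ) + c + 1) - f ((k : ℤ) + c)) = f ((K : ℤ) + c) - f c := by
  induction K with
  | zero => simp
  | succ K ih =>
    rw [Finset.sum_range_succ, ih]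
    have e : (((K + 1 : ℕ) : ℤ) + c) = (K : ℤ) + c + 1 := by push_cast; ring
    rw [e]
    ring

lemma shift_bound (f : ℤ → ℝ) (h0 : ∀ k, 0 ≤ f k) (h1 : ∀ k, f k ≤ 1) (K : ℕ) (n : ℤ) :
    |∑ k ∈ Finset.range K, f (k : ℤ) - ∑ k ∈ Finset.range K, f ((k : ℤ) - n)| ≤ |(n : ℝ)| := by
  induction n using Int.induction_on with
  | zero => simp
  | succ n ih =>
    have t := tele f K (-(n : ℤ) - 1)
    have e1 : ∑ k ∈ Finset.range K, (f ((k : ℤ) + (-(n : ℤ) - 1) + 1) - f ((k : ℤ) + (-(n : ℤ) - 1))) =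
        ∑ k ∈ Finset.range K, f ((k : ℤ) - n) - ∑ k ∈ Finset.range K, f ((k : ℤ) - (n + 1)) := by
      rw [← Finset.sum_sub_distrib]
      apply Finset.sum_congr rfl
      intro k _
      congr 2 <;> ring
    rw [e1] at t
    have a1 := h0 ((K : ℤ) + (-(n : ℤ) - 1))
    have a2 := h1 ((K : ℤ) + (-(n : ℤ) - 1))
    have a3 := h0 (-(n : ℤ) - 1)
    have a4 := h1 (-(n : ℤ) - 1)
    have hn : (0 : ℝ) ≤ (n : ℝ) := Nat.cast_nonneg n
    push_cast at ih ⊢
    rw [abs_of_nonneg hn] at ih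
    rw [abs_of_nonneg (by linarith : (0 : ℝ) ≤ (n : ℝ) + 1)]
    rw [abs_le] at ih ⊢
    constructor <;> linarith [ih.1, ih.2]
  | pred n ih =>
    have t := tele f K (n : ℤ)
    have e1 : ∑ k ∈ Finset.range K, (f ((k : ℤ) + n + 1) - f ((k : ℤ) + n)) =
        ∑ k ∈ Finset.range K, f ((k : ℤ) - (-(n : ℤ) - 1)) - ∑ k ∈ Finset.range K, f ((k : ℤ) - (-(n : ℤ))) := by
      rw [← Finset.sum_sub_distrib]
      apply Finset.sum_congr rfl
      intro k _
      congr 2 <;> ring
    rw [e1] at t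
    have a1 := h0 ((K : ℤ) + n)
    have a2 := h1 ((K : ℤ) + n)
    have a3 := h0 (n : ℤ)
    have a4 := h1 (n : ℤ)
    have hn : (0 : ℝ) ≤ (n : ℝ) := Nat.cast_nonneg n
    push_cast at ih ⊢
    rw [abs_neg, abs_of_nonneg hn] at ih
    rw [show (-(n : ℝ) - 1) = -((n : ℝ) + 1) by ring, abs_neg,
      abs_of_nonneg (by linarith : (0 : ℝ) ≤ (n : ℝ) + 1)]
    rw [abs_le] at ih ⊢
    constructor <;> linarith [ih.1, ih.2]

lemma ind_floor (z β : ℝ) (h0 : 0 ≤ β) (h1 : β < 1) :
    indR (Int.fract z < β) = (⌊z⌋ : ℝ) - (⌊z - β⌋ : ℝ) := by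
  have e := Int.self_sub_floor z
  have f0 := Int.fract_nonneg z
  have f1 := Int.fract_lt_one z
  by_cases h : Int.fract z < β
  · rw [indR_one h]
    have : ⌊z - β⌋ = ⌊z⌋ - 1 := by
      rw [Int.floor_eq_iff]
      push_cast
      constructor <;> linarith
    rw [this]
    push_cast
    ring
  · rw [indR_zero h]
    push Not at h
    have : ⌊z - β⌋ = ⌊z⌋ := by
      rw [Int.floor_eq_iff]
      constructor <;> linarith
    rw [this]
    ring

lemma freq_special (α z0 β : ℝ) (n m : ℤ) (hβ : β = n * α - m) (h0 : 0 ≤ β) (h1 : β < 1) (K : ℕ) :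
    |∑ k ∈ Finset.range K, indR (Int.fract (z0 + k * α) < β) - K * β| ≤ |(n : ℝ)| := by
  have hs := shift_bound (fun k : ℤ => Int.fract (z0 + k * α)) (fun k => Int.fract_nonneg _)
    (fun k => (Int.fract_lt_one _).le) K n
  have e : ∑ k ∈ Finset.range K, indR (Int.fract (z0 + k * α) < β) - K * β =
      -(∑ k ∈ Finset.range K, Int.fract (z0 + ((k : ℤ) : ℝ) * α) -
        ∑ k ∈ Finset.range K, Int.fract (z0 + (((k : ℤ) - n : ℤ) : ℝ) * α)) := by
    rw [← Finset.sum_sub_distrib, ← Finset.sum_neg_distrib]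
    have : (K : ℝ) * β = ∑ k ∈ Finset.range K, β := by simp
    rw [this, ← Finset.sum_sub_distrib]
    apply Finset.sum_congr rfl
    intro k _
    rw [ind_floor _ _ h0 h1]
    have e1 : z0 + k * α - β = z0 + (((k : ℤ) - n : ℤ) : ℝ) * α + m := by
      rw [hβ]
      push_cast
      ring
    rw [e1, Int.floor_add_intCast]
    have e2 := Int.self_sub_floor (z0 + k * α)
    have e3 := Int.self_sub_floor (z0 + (((k : ℤ) - n : ℤ) : ℝ) * α)
    push_cast at e2 e3 ⊢
    linarith
  rw [e, abs_neg]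
  exact hs

lemma exists_mult (α : ℝ) (hα : Irrational α) (a b : ℝ) (hab : a < b) :
    ∃ n m : ℤ, a < n * α - m ∧ n * α - m < b := by
  have hd := (dense_addSubgroupClosure_pair_iff (a := α) (b := 1)).mpr (by rwa [div_one])
  obtain ⟨x, hx1, hx2⟩ := hd.exists_between hab
  rw [SetLike.mem_coe, AddSubgroup.mem_closure_pair] at hx1
  obtain ⟨n, m, hnm⟩ := hx1
  refine ⟨n, -m, ?_, ?_⟩
  · have := hx2.1
    rw [← hnm] at this
    simp only [zsmul_eq_mul, mul_one] at this
    push_cast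
    linarith
  · have := hx2.2
    rw [← hnm] at this
    simp only [zsmul_eq_mul, mul_one] at this
    push_cast
    linarith

lemma freq_upper (α : ℝ) (hα : Irrational α) (z0 l ε : ℝ) (h0 : 0 ≤ l) (h1 : l < 1) (hε : 0 < ε) :
    ∃ C : ℝ, ∀ K : ℕ, ∑ k ∈ Finset.range K, indR (Int.fract (z0 + k * α) < l) ≤ K * (l + ε) + C := by
  obtain ⟨n, m, hn1, hn2⟩ := exists_mult α hα l (min 1 (l + ε)) (lt_min h1 (by linarith))
  refine ⟨|(n : ℝ)|, fun K => ?_⟩
  have h2 := lt_min_iff.mp hn2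
  have h3 := (abs_le.mp (freq_special α z0 (n * α - m) n m rfl (by linarith) h2.1 K)).2
  have h4 : ∑ k ∈ Finset.range K, indR (Int.fract (z0 + k * α) < l) ≤
      ∑ k ∈ Finset.range K, indR (Int.fract (z0 + k * α) < n * α - m) :=
    Finset.sum_le_sum (fun k _ => indR_le (fun h => h.trans hn1))
  have h5 : (K : ℝ) * (n * α - m) ≤ K * (l + ε) := mul_le_mul_of_nonneg_left h2.2.le (Nat.cast_nonneg K)
  linarith

lemma freq_lower (α : ℝ) (hα : Irrational α) (z0 l ε : ℝ) (h0 : 0 < l) (h1 : l < 1) (hε : 0 < ε) :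
    ∃ C : ℝ, ∀ K : ℕ, K * (l - ε) - C ≤ ∑ k ∈ Finset.range K, indR (Int.fract (z0 + k * α) < l) := by
  obtain ⟨n, m, hn1, hn2⟩ := exists_mult α hα (max 0 (l - ε)) l (max_lt h0 (by linarith))
  refine ⟨|(n : ℝ)|, fun K => ?_⟩
  have h2 := max_lt_iff.mp hn1
  have h3 := (abs_le.mp (freq_special α z0 (n * α - m) n m rfl h2.1.le (by linarith) K)).1
  have h4 : ∑ k ∈ Finset.range K, indR (Int.fract (z0 + k * α) < n * α - m) ≤
      ∑ k ∈ Finset.range K, indR (Int.fract (z0 + k * α) < l) :=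
    Finset.sum_le_sum (fun k _ => indR_le (fun h => h.trans hn2))
  have h5 : (K : ℝ) * (l - ε) ≤ K * (n * α - m) := mul_le_mul_of_nonneg_left h2.2.le (Nat.cast_nonneg K)
  linarith

lemma cos_up (x h : ℝ) (h0 : 0 < h) (h1 : h < 1 / 2)
    (hc : Real.cos (2 * Real.pi * h) < Real.cos (2 * Real.pi * x)) : Int.fract (x + h) < 2 * h := by
  have hpi := Real.pi_pos
  have hr := abs_sub_round x
  have e1 : Real.cos (2 * Real.pi * x) = Real.cos (2 * Real.pi * |x - round x|) := by
    have : Real.cos (2 * Real.pi * |x - round x|) = Real.cos (2 * Real.pi * (x - round x)) := by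
      rcases abs_choice (x - round x) with h | h <;> rw [h]
      rw [mul_neg, Real.cos_neg]
    rw [this, show 2 * Real.pi * (x - round x) = 2 * Real.pi * x - (round x : ℝ) * (2 * Real.pi) by ring,
      Real.cos_sub_int_mul_two_pi]
  rw [e1] at hc
  have h2 : |x - round x| < h := by
    by_contra hcon
    push Not at hcon
    have := Real.cos_le_cos_of_nonneg_of_le_pi (x := 2 * Real.pi * h) (y := 2 * Real.pi * |x - round x|)
      (by positivity) (by nlinarith) (by nlinarith)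
    linarith
  rw [abs_lt] at h2
  have h3 : x + h = (x - round x + h) + (round x : ℝ) := by ring
  rw [h3, Int.fract_add_intCast, Int.fract_eq_self.mpr ⟨by linarith, by linarith⟩]
  linarith

lemma cos_lo (x h' h : ℝ) (h0 : 0 < h') (hh : h' < h) (h1 : h < 1 / 2)
    (hc : Int.fract (x + h') < 2 * h') : Real.cos (2 * Real.pi * h) < Real.cos (2 * Real.pi * x) := by
  have hpi := Real.pi_pos
  have f0 := Int.fract_nonneg (x + h')
  have e := Int.self_sub_floor (x + h')
  have e1 : Real.cos (2 * Real.pi * x) = Real.cos (2 * Real.pi * (Int.fract (x + h') - h')) := by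
    rw [← e, show 2 * Real.pi * (x + h' - ⌊x + h'⌋ - h') = 2 * Real.pi * x - (⌊x + h'⌋ : ℝ) * (2 * Real.pi) by ring,
      Real.cos_sub_int_mul_two_pi]
  rw [e1, ← Real.cos_abs (2 * Real.pi * (Int.fract (x + h') - h'))]
  have h2 : |2 * Real.pi * (Int.fract (x + h') - h')| ≤ 2 * Real.pi * h' := by
    rw [abs_mul, abs_of_pos (by positivity : 0 < 2 * Real.pi)]
    apply mul_le_mul_of_nonneg_left _ (by positivity)
    rw [abs_le]
    constructor <;> linarith
  apply Real.cos_lt_cos_of_nonneg_of_le_pi (abs_nonneg _) (by nlinarith) (by nlinarith)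

/-- equidistribution in the form which is used -/
theorem freq_cos (α : ℝ) (hα : Irrational α) (x0 h : ℝ) (h0 : 0 < h) (h1 : h < 1 / 2) (ε : ℝ)
    (hε : 0 < ε) : ∃ C : ℝ, ∀ K : ℕ,
      |∑ k ∈ Finset.range K, indR (Real.cos (2 * Real.pi * h) < Real.cos (2 * Real.pi * (x0 + k * α))) -
        K * (2 * h)| ≤ K * ε + C := by
  obtain ⟨C1, hC1⟩ := freq_upper α hα (x0 + h) (2 * h) ε (by linarith) (by linarith) hε
  have hd : 0 < min (h / 2) (ε / 4) := lt_min (by linarith) (by linarith)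
  obtain ⟨C2, hC2⟩ := freq_lower α hα (x0 + (h - min (h / 2) (ε / 4))) (2 * (h - min (h / 2) (ε / 4)))
    (ε / 4) (by have := min_le_left (h / 2) (ε / 4); linarith) (by linarith) (by linarith)
  refine ⟨max C1 C2, fun K => ?_⟩
  have hK : (0 : ℝ) ≤ K := Nat.cast_nonneg K
  have u1 : ∑ k ∈ Finset.range K, indR (Real.cos (2 * Real.pi * h) < Real.cos (2 * Real.pi * (x0 + k * α))) ≤
      ∑ k ∈ Finset.range K, indR (Int.fract (x0 + h + k * α) < 2 * h) := by
    apply Finset.sum_le_sum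
    intro k _
    apply indR_le
    intro hc
    have := cos_up (x0 + k * α) h h0 h1 hc
    rwa [show x0 + k * α + h = x0 + h + k * α by ring] at this
  have u2 : ∑ k ∈ Finset.range K, indR (Int.fract (x0 + (h - min (h / 2) (ε / 4)) + k * α) <
      2 * (h - min (h / 2) (ε / 4))) ≤
      ∑ k ∈ Finset.range K, indR (Real.cos (2 * Real.pi * h) < Real.cos (2 * Real.pi * (x0 + k * α))) := by
    apply Finset.sum_le_sum
    intro k _
    apply indR_le
    intro hc
    apply cos_lo (x0 + k * α) (h - min (h / 2) (ε / 4)) h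
      (by have := min_le_left (h / 2) (ε / 4); linarith) (by linarith) h1
    rwa [show x0 + k * α + (h - min (h / 2) (ε / 4)) = x0 + (h - min (h / 2) (ε / 4)) + k * α by ring]
  have m1 := le_max_left C1 C2
  have m2 := le_max_right C1 C2
  have m3 := min_le_right (h / 2) (ε / 4)
  have v1 := hC1 K
  have v2 := hC2 K
  rw [abs_le]
  constructor
  · nlinarith [mul_le_mul_of_nonneg_left m3 hK, mul_nonneg hK hε.le]
  · nlinarith

end Pool.Agent.X40.BA
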