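import Pool.Agent.X40.BA.G3

/-!
# Growth of the best approximations
-/

set_option autoImplicit false
set_option linter.unusedSectionVars false

namespace Pool.Agent.X40.BA

open Filter Topology

/-- the set of the first coordinates (in absolute value) of the best approximation vectors -/
def bestSet (f : ℝ × ℝ → ℝ) (Θ : ℝ × ℝ) : Set ℕ := {m | ∃ z, IsBest f Θ z ∧ z.1.natAbs = m}

open scoped Classical in
/-- `M_ν`, for `ν ≥ 1`: the `ν`-th element of `bestSet` in increasing order -/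
noncomputable def Mseq (f : ℝ × ℝ → ℝ) (Θ : ℝ × ℝ) (ν : ℕ) : ℕ :=
  Nat.nth (fun m => m ∈ bestSet f Θ) (ν - 1)

/-- the growth exponent -/
noncomputable def G (f : ℝ × ℝ → ℝ) (Θ : ℝ × ℝ) : ENNReal :=
  liminf (fun ν : ℕ => ENNReal.ofReal ((Mseq f Θ ν : ℝ) ^ (1 / (ν : ℝ)))) atTop

lemma err_neg (Θ : ℝ × ℝ) (z : ℤ × ℤ × ℤ) : err Θ (-z) = - err Θ z := by
  unfold err
  refine Prod.ext ?_ ?_
  · simp only [Prod.fst_neg, Prod.snd_neg]
    push_cast
    ring
  · simp only [Prod.fst_neg, Prod.snd_neg]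
    push_cast
    ring

/-- the cubic has no rational root -/
lemma no_root (x y : ℤ) (hx : x ≠ 0) (h : y ^ 3 = y * x ^ 2 + x ^ 3) : False := by
  have key : ∀ n : ℕ, ∀ x y : ℤ, x.natAbs ≤ n → x ≠ 0 → y ^ 3 = y * x ^ 2 + x ^ 3 → False := by
    intro n
    induction n with
    | zero => intro x y h1 h2; omega
    | succ n ih =>
      intro x y h1 h2 h3
      have hpar : x % 2 = 0 ∧ y % 2 = 0 := by
        have h4 : y ^ 3 % 2 = (y * x ^ 2 + x ^ 3) % 2 := by rw [h3]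
        rcases Int.emod_two_eq_zero_or_one x with hx | hx <;>
          rcases Int.emod_two_eq_zero_or_one y with hy | hy <;>
          simp [pow_succ, Int.add_emod, Int.mul_emod, hx, hy] at h4 ⊢
      obtain ⟨x', rfl⟩ : ∃ v, x = 2 * v := ⟨x / 2, by omega⟩
      obtain ⟨y', rfl⟩ : ∃ v, y = 2 * v := ⟨y / 2, by omega⟩
      exact ih x' y' (by omega) (by omega) (by linarith [h3, show (2 * y') ^ 3 = 8 * y' ^ 3 by ring,
        show (2 * y') * (2 * x') ^ 2 = 8 * (y' * x' ^ 2) by ring, show (2 * x') ^ 3 = 8 * x' ^ 3 by ring])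
  exact key _ x y le_rfl hx h

section
variable {r : ℝ} (hr : r ^ 3 = r + 1) {f : ℝ × ℝ → ℝ} (hf : Adm r f)
include hr hf

lemma f_neg (u : ℝ × ℝ) : f (-u) = f u := by
  have := hf.smul (-1) u
  rw [abs_neg, abs_one, one_mul, neg_smul, one_smul] at this
  exact this

lemma best_neg {z : ℤ × ℤ × ℤ} (h : IsBest f (r, r ^ 2) z) : IsBest f (r, r ^ 2) (-z) := by
  refine ⟨neg_ne_zero.mpr h.1, ?_⟩
  intro z' h1 h2
  rw [err_neg, f_neg hr hf] at h2
  rw [Prod.fst_neg, abs_neg] at h1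
  rcases h.2 z' h1 h2 with h | h | h
  · exact Or.inl h
  · exact Or.inr (Or.inr (by rw [h, neg_neg]))
  · exact Or.inr (Or.inl h)

lemma dec {j : ℕ} (hj : 5 ≤ j) (h : IsBest f (r, r ^ 2) (U (j + 1))) :
    f (err (r, r ^ 2) (U (j + 1))) < f (err (r, r ^ 2) (U j)) := by
  have r1 := r_lo hr
  by_contra hc
  push Not at hc
  have hrj : 0 < r ^ j := by positivity
  have h1 : |(U j).1| ≤ |(U (j + 1)).1| := by
    rw [abs_of_nonneg (U_nonneg j).1, abs_of_nonneg (U_nonneg (j + 1)).1]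
    exact U_mono' hj (by omega)
  have c0 := U_cc hr j
  rcases h.2 (U j) h1 hc with h | h | h
  · rw [h] at c0
    simp [cc] at c0
    linarith
  · rw [h, U_cc hr, pow_succ] at c0
    nlinarith
  · rw [h] at c0
    have h7 : cc r (-(U (j + 1))) = - cc r (U (j + 1)) := by
      unfold cc
      simp only [Prod.fst_neg, Prod.snd_neg]
      push_cast
      ring
    rw [h7, U_cc hr, pow_succ] at c0
    nlinarith

lemma fst_eq (j : ℕ) : (err (r, r ^ 2) (U j)).1 = -r * (err (r, r ^ 2) (U (j + 1))).2 := by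
  rw [U, err_A hr]
  unfold B
  simp only
  linear_combination (-(err (r, r ^ 2) (U j)).1) * hr

lemma snd_rec (j : ℕ) : (err (r, r ^ 2) (U (j + 3))).2 =
    (err (r, r ^ 2) (U (j + 1))).2 + (err (r, r ^ 2) (U j)).2 := by
  simp only [U, A, err]
  push_cast
  ring

lemma sgn {j : ℕ} (h : f (err (r, r ^ 2) (U (j + 1))) < f (err (r, r ^ 2) (U j))) :
    (err (r, r ^ 2) (U j)).2 * (err (r, r ^ 2) (U (j + 1))).2 < 0 := by
  by_contra hc
  push Not at hc
  have h1 := hf.g _ _ hc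
  have e1 : (-r * (err (r, r ^ 2) (U (j + 1))).2, (err (r, r ^ 2) (U j)).2) = err (r, r ^ 2) (U j) :=
    Prod.ext (fst_eq hr hf j).symm rfl
  have e2 : ((err (r, r ^ 2) (U j)).2 + r ^ 2 * (err (r, r ^ 2) (U (j + 1))).2,
      (err (r, r ^ 2) (U (j + 1))).2) = err (r, r ^ 2) (U (j + 1)) := by
    refine Prod.ext ?_ rfl
    simp only
    have h2 : (err (r, r ^ 2) (U (j + 1))).1 =
        (err (r, r ^ 2) (U j)).2 - r * (err (r, r ^ 2) (U j)).1 := by
      rw [U, err_A hr]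
      rfl
    rw [h2, fst_eq hr hf j]
    ring
  rw [e1, e2] at h1
  linarith

/-- six consecutive powers of the unit are never all best approximations -/
theorem no_six {k : ℕ} (hk : 5 ≤ k) (h : ∀ i ≤ 5, IsBest f (r, r ^ 2) (U (k + i))) : False := by
  have s0 := sgn hr hf (dec hr hf (j := k) hk (h 1 (by norm_num)))
  have s1 := sgn hr hf (dec hr hf (j := k + 1) (by omega) (h 2 (by norm_num)))
  have s2 := sgn hr hf (dec hr hf (j := k + 2) (by omega) (h 3 (by norm_num)))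
  have s3 := sgn hr hf (dec hr hf (j := k + 3) (by omega) (h 4 (by norm_num)))
  have s4 := sgn hr hf (dec hr hf (j := k + 4) (by omega) (h 5 (by norm_num)))
  have t3 := snd_rec hr hf k
  have t4 := snd_rec hr hf (k + 1)
  have t5 := snd_rec hr hf (k + 2)
  simp only [add_assoc] at s0 s1 s2 s3 s4 t3 t4 t5
  norm_num at s0 s1 s2 s3 s4 t3 t4 t5
  generalize (err (r, r ^ 2) (U k)).2 = b0 at *
  generalize (err (r, r ^ 2) (U (k + 1))).2 = b1 at *
  generalize (err (r, r ^ 2) (U (k + 2))).2 = b2 at *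
  generalize (err (r, r ^ 2) (U (k + 3))).2 = b3 at *
  generalize (err (r, r ^ 2) (U (k + 4))).2 = b4 at *
  generalize (err (r, r ^ 2) (U (k + 5))).2 = b5 at *
  rcases mul_neg_iff.mp s0 with ⟨p0, p1⟩ | ⟨p0, p1⟩ <;> rcases mul_neg_iff.mp s1 with ⟨q0, q1⟩ | ⟨q0, q1⟩ <;>
    rcases mul_neg_iff.mp s2 with ⟨u0, u1⟩ | ⟨u0, u1⟩ <;> rcases mul_neg_iff.mp s3 with ⟨v0, v1⟩ | ⟨v0, v1⟩ <;>
    rcases mul_neg_iff.mp s4 with ⟨w0, w1⟩ | ⟨w0, w1⟩ <;> linarith

lemma exists_best {k : ℕ} (hk : 0 < (U k).1) (hδ : f (err (r, r ^ 2) (U k)) < 1 / 2) :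
    ∃ z, IsBest f (r, r ^ 2) z ∧ 0 < z.1 ∧
      f (err (r, r ^ 2) z) ≤ f (err (r, r ^ 2) (U k)) := by
  classical
  generalize hD : f (err (r, r ^ 2) (U k)) = δ at *
  have hex : ∃ n : ℕ, 0 < n ∧ ∃ z : ℤ × ℤ × ℤ, z.1 = n ∧ f (err (r, r ^ 2) z) ≤ δ := by
    refine ⟨(U k).1.toNat, by omega, U k, by omega, hD.le⟩
  obtain ⟨hn0, z, hz1, hz2⟩ := Nat.find_spec hex
  have hmin : ∀ m : ℕ, m < Nat.find hex → ¬ (0 < m ∧ ∃ z : ℤ × ℤ × ℤ, z.1 = m ∧ f (err (r, r ^ 2) z) ≤ δ) :=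
    fun m hm => Nat.find_min hex hm
  generalize Nat.find hex = n at *
  have key : ∀ z' : ℤ × ℤ × ℤ, 0 < z'.1 → |z'.1| ≤ |z.1| → f (err (r, r ^ 2) z') ≤ f (err (r, r ^ 2) z) →
      z' = z := by
    intro z' h0 h1 h2
    have h3 : z'.1 = z.1 := by
      rw [abs_of_pos h0, hz1, abs_of_nonneg (by omega)] at h1
      by_contra hne
      exact hmin z'.1.toNat (by omega) ⟨by omega, z', by omega, h2.trans hz2⟩
    have e1 := abs_le.mp ((hf.lo1 (err (r, r ^ 2) z)).trans hz2)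
    have e2 := abs_le.mp ((hf.lo2 (err (r, r ^ 2) z)).trans hz2)
    have e3 := abs_le.mp ((hf.lo1 (err (r, r ^ 2) z')).trans (h2.trans hz2))
    have e4 := abs_le.mp ((hf.lo2 (err (r, r ^ 2) z')).trans (h2.trans hz2))
    unfold err at e1 e2 e3 e4
    simp only at e1 e2 e3 e4
    rw [h3] at e3 e4
    have g1 : ((z'.2.1 - z.2.1 : ℤ) : ℝ) < 1 := by push_cast; linarith [e1.1, e1.2, e3.1, e3.2]
    have g2 : (-1 : ℝ) < ((z'.2.1 - z.2.1 : ℤ) : ℝ) := by push_cast; linarith [e1.1, e1.2, e3.1, e3.2]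
    have g3 : ((z'.2.2 - z.2.2 : ℤ) : ℝ) < 1 := by push_cast; linarith [e2.1, e2.2, e4.1, e4.2]
    have g4 : (-1 : ℝ) < ((z'.2.2 - z.2.2 : ℤ) : ℝ) := by push_cast; linarith [e2.1, e2.2, e4.1, e4.2]
    have i1 : z'.2.1 - z.2.1 < 1 := by exact_mod_cast g1
    have i2 : -1 < z'.2.1 - z.2.1 := by exact_mod_cast g2
    have i3 : z'.2.2 - z.2.2 < 1 := by exact_mod_cast g3
    have i4 : -1 < z'.2.2 - z.2.2 := by exact_mod_cast g4
    exact Prod.ext h3 (Prod.ext (by omega) (by omega))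
  refine ⟨z, ⟨?_, ?_⟩, by omega, hz2⟩
  · intro h
    rw [h] at hz1
    simp at hz1
    omega
  · intro z' h1 h2
    rcases lt_trichotomy z'.1 0 with h | h | h
    · right; right
      have := key (-z') (by rw [Prod.fst_neg]; omega) (by rwa [Prod.fst_neg, abs_neg])
        (by rwa [err_neg, f_neg hr hf])
      rw [← this, neg_neg]
    · left
      have e3 := abs_le.mp ((hf.lo1 (err (r, r ^ 2) z')).trans (h2.trans hz2))
      have e4 := abs_le.mp ((hf.lo2 (err (r, r ^ 2) z')).trans (h2.trans hz2))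
      unfold err at e3 e4
      simp only [h, Int.cast_zero, zero_mul, zero_sub] at e3 e4
      have g1 : (z'.2.1 : ℝ) < 1 := by linarith [e3.1, e3.2]
      have g2 : (-1 : ℝ) < z'.2.1 := by linarith [e3.1, e3.2]
      have g3 : (z'.2.2 : ℝ) < 1 := by linarith [e4.1, e4.2]
      have g4 : (-1 : ℝ) < z'.2.2 := by linarith [e4.1, e4.2]
      have i1 : z'.2.1 < 1 := by exact_mod_cast g1
      have i2 : -1 < z'.2.1 := by exact_mod_cast g2
      have i3 : z'.2.2 < 1 := by exact_mod_cast g3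
      have i4 : -1 < z'.2.2 := by exact_mod_cast g4
      exact Prod.ext h (Prod.ext (by simp only [Prod.snd_zero, Prod.fst_zero]; omega)
        (by simp only [Prod.snd_zero]; omega))
    · right; left
      exact key z' h h1 h2

/-- the first coordinate of the powers of the unit -/
lemma U_fst_lo {j : ℕ} (hj : 10 ≤ j) : r ^ j / 12 ≤ ((U j).1 : ℝ) := by
  have r1 := r_lo hr
  have r2 := r_hi hr
  have r3 := r2_lo hr
  have r4 := r2_hi hr
  have q1 := Q_lo hr (err (r, r ^ 2) (U j))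
  have q2 := U_Q hr j
  have hrj : 0 < r ^ j := by positivity
  have q3 : (9.4 : ℝ) ≤ r ^ j := by
    have t1 : r ^ 8 ≤ r ^ j := pow_le_pow_right₀ (by linarith) (by omega)
    have t2 : (3.0795 : ℝ) < r ^ 4 := by nlinarith
    have t3 : r ^ 8 = r ^ 4 * r ^ 4 := by ring
    nlinarith
  have q4 : Q r (err (r, r ^ 2) (U j)) ≤ 0.11 := by
    by_contra hq
    push Not at hq
    nlinarith
  have u1 : |(err (r, r ^ 2) (U j)).1| ≤ 0.71 := by
    apply abs_le_of_sq_le_sq _ (by norm_num)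
    nlinarith [q1.1]
  have u2 : |(err (r, r ^ 2) (U j)).2| ≤ 0.71 := by
    apply abs_le_of_sq_le_sq _ (by norm_num)
    nlinarith [q1.2]
  rw [abs_le] at u1 u2
  have x2 := x_eq hr (U j)
  rw [U_cc hr] at x2
  by_contra hc
  push Not at hc
  have y1 : r ^ 2 * (err (r, r ^ 2) (U j)).1 ≥ - (1.76 * 0.71) := by
    nlinarith [mul_le_mul_of_nonneg_left u1.1 (show 0 ≤ r ^ 2 by positivity)]
  have y2 : r * (err (r, r ^ 2) (U j)).2 ≥ - (1.33 * 0.71) := by
    nlinarith [mul_le_mul_of_nonneg_left u2.1 (show 0 ≤ r by linarith)]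
  have y3 : (0 : ℝ) ≤ (U j).1 := by exact_mod_cast (U_nonneg j).1
  nlinarith

lemma f_U_lt {j : ℕ} (hj : 20 ≤ j) : f (err (r, r ^ 2) (U j)) < 1 / 2 := by
  obtain ⟨s, κ, hs, hκ, hsk, hq1, hq2⟩ := hf.q
  have r1 := r_lo hr
  have q1 := Q_lo hr (err (r, r ^ 2) (U j))
  have q2 := U_Q hr j
  have hrj : 0 < r ^ j := by positivity
  have q3 : (250 : ℝ) ≤ r ^ j := by
    have t1 : r ^ 20 ≤ r ^ j := pow_le_pow_right₀ (by linarith) hj
    have t2 : (3.0795 : ℝ) < r ^ 4 := by nlinarith [r2_lo hr]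
    have t3 : (9.48 : ℝ) < r ^ 8 := by
      have : r ^ 8 = r ^ 4 * r ^ 4 := by ring
      nlinarith
    have t4 : (89.8 : ℝ) < r ^ 16 := by
      have : r ^ 16 = r ^ 8 * r ^ 8 := by ring
      nlinarith
    have t5 : r ^ 20 = r ^ 16 * r ^ 4 := by ring
    nlinarith
  have q4 : Q r (err (r, r ^ 2) (U j)) ≤ 0.004 := by
    by_contra hq
    push Not at hq
    nlinarith
  have u1 : |(err (r, r ^ 2) (U j)).1| ≤ 0.14 := by
    apply abs_le_of_sq_le_sq _ (by norm_num)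
    nlinarith [q1.1]
  have u2 : |(err (r, r ^ 2) (U j)).2| ≤ 0.14 := by
    apply abs_le_of_sq_le_sq _ (by norm_num)
    nlinarith [q1.2]
  have := hf.up (err (r, r ^ 2) (U j))
  linarith

lemma cc_lo {z : ℤ × ℤ × ℤ} (h : f (err (r, r ^ 2) z) ≤ 1) (h0 : 0 < z.1) :
    5.6 * (z.1 : ℝ) - 3.1 ≤ cc r z ∧ cc r z ≤ 5.65 * (z.1 : ℝ) + 3.1 := by
  have r1 := r_lo hr
  have r2 := r_hi hr
  have r3 := r2_lo hr
  have r4 := r2_hi hr
  have e1 := abs_le.mp ((hf.lo1 _).trans h)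
  have e2 := abs_le.mp ((hf.lo2 _).trans h)
  have x1 := x_eq hr z
  have hz : (0 : ℝ) < z.1 := by exact_mod_cast h0
  have y1 := mul_le_mul_of_nonneg_left e1.1 (show 0 ≤ r ^ 2 by positivity)
  have y2 := mul_le_mul_of_nonneg_left e2.1 (show 0 ≤ r by linarith)
  have y3 := mul_le_mul_of_nonneg_left e1.2 (show 0 ≤ r ^ 2 by positivity)
  have y4 := mul_le_mul_of_nonneg_left e2.2 (show 0 ≤ r by linarith)
  constructor
  · nlinarith
  · nlinarith

theorem bestSet_infinite : (bestSet f (r, r ^ 2)).Infinite := by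
  apply Set.infinite_of_forall_exists_gt
  intro a
  obtain ⟨s, κ, hs, hκ, hsk, hq1, hq2⟩ := hf.q
  have r1 := r_lo hr
  have r2 := r_hi hr
  have htend := tendsto_pow_atTop_atTop_of_one_lt (show 1 < r by linarith)
  obtain ⟨k0, hk0⟩ := (htend.eventually_ge_atTop (14 * (5.65 * (a : ℝ) + 3.1) + 1)).exists
  have hk1 : 14 * (5.65 * (a : ℝ) + 3.1) + 1 ≤ r ^ (k0 + 20) :=
    hk0.trans (pow_le_pow_right₀ (by linarith) (by omega))
  have hU : 0 < (U (k0 + 20)).1 := by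
    have h1 := U_fst_lo hr hf (show 10 ≤ k0 + 20 by omega)
    have h2 : (0 : ℝ) < ((U (k0 + 20)).1 : ℝ) := lt_of_lt_of_le (by positivity) h1
    exact_mod_cast h2
  obtain ⟨z, hz1, hz2, hz3⟩ := exists_best hr hf hU (f_U_lt hr hf (by omega))
  refine ⟨z.1.natAbs, ⟨z, hz1, rfl⟩, ?_⟩
  have hz4 := best_le_one hr hf hz1 hz2.ne'
  have hc := (cc_lo hr hf hz4 hz2).2
  have hzR : (1 : ℝ) ≤ z.1 := by exact_mod_cast hz2
  have hcl := (cc_lo hr hf hz4 hz2).1
  have hccpos : 0 < cc r z := by linarith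
  -- the norm is at least one
  have hN := Nm_eq hr z
  have hU2 := U_Q hr (k0 + 20)
  have hrk : 0 < r ^ (k0 + 20) := by positivity
  have fpos : 0 ≤ f (err (r, r ^ 2) z) := (abs_nonneg _).trans (hf.lo1 _)
  have hQz : Q r (err (r, r ^ 2) z) ≤ s * (κ * Q r (err (r, r ^ 2) (U (k0 + 20)))) :=
    (hq1 _).trans (mul_le_mul_of_nonneg_left ((pow_le_pow_left₀ fpos hz3 2).trans (hq2 _)) hs.le)
  have hQpos : 0 < Q r (err (r, r ^ 2) z) := by
    apply Q_pos hr
    intro h0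
    -- irrationality is not needed: compare with the next vector
    have h1 : f (err (r, r ^ 2) z) = 0 := by
      rw [h0]
      have := hf.smul 0 (0 : ℝ × ℝ)
      rw [zero_smul, abs_zero, zero_mul] at this
      exact this
    have hx := x_eq hr z
    have hNz : Nm z = 0 := by
      have : (Nm z : ℝ) = 0 := by rw [hN, h0]; simp [Q]
      exact_mod_cast this
    -- `r` is irrational
    have e1 : (z.1 : ℝ) * r - z.2.1 = 0 := congrArg Prod.fst h0
    have hz0 : (z.1 : ℝ) ≠ 0 := by linarith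
    have hpoly : (z.2.1 : ℝ) ^ 3 = z.2.1 * (z.1 : ℝ) ^ 2 + (z.1 : ℝ) ^ 3 := by
      have e2 : (z.2.1 : ℝ) = z.1 * r := by linarith
      rw [e2]
      linear_combination ((z.1 : ℝ) ^ 3) * hr
    have hpolyZ : z.2.1 ^ 3 = z.2.1 * z.1 ^ 2 + z.1 ^ 3 := by exact_mod_cast hpoly
    exact no_root z.1 z.2.1 hz2.ne' hpolyZ
  have hN1 : 1 ≤ Nm z := by
    have : (0 : ℝ) < (Nm z : ℝ) := by
      rw [hN]
      exact mul_pos hccpos hQpos
    have : 0 < Nm z := by exact_mod_cast this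
    omega
  have hN1R : (1 : ℝ) ≤ (Nm z : ℝ) := by exact_mod_cast hN1
  have hbig : r ^ (k0 + 20) ≤ 14 * cc r z := by
    have h1 : r ^ (k0 + 20) * 1 ≤ r ^ (k0 + 20) * (cc r z * Q r (err (r, r ^ 2) z)) := by
      rw [← hN]
      exact mul_le_mul_of_nonneg_left hN1R hrk.le
    have h2 : r ^ (k0 + 20) * (cc r z * Q r (err (r, r ^ 2) z)) ≤
        r ^ (k0 + 20) * (cc r z * (s * (κ * Q r (err (r, r ^ 2) (U (k0 + 20)))))) :=
      mul_le_mul_of_nonneg_left (mul_le_mul_of_nonneg_left hQz hccpos.le) hrk.le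
    have h3 : r ^ (k0 + 20) * (cc r z * (s * (κ * Q r (err (r, r ^ 2) (U (k0 + 20)))))) =
        s * κ * cc r z := by
      linear_combination (cc r z * s * κ) * hU2
    have h4 : s * κ ≤ 14 := by nlinarith [mul_pos hs hκ]
    have h5 : s * κ * cc r z ≤ 14 * cc r z := mul_le_mul_of_nonneg_right h4 hccpos.le
    linarith
  have hfin : (a : ℝ) < z.1 := by
    by_contra hcon
    push Not at hcon
    linarith
  have : (a : ℤ) < z.1 := by exact_mod_cast hfin
  omega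

end

end Pool.Agent.X40.BA
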