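import Pool.Agent.X40.BA.E1
import Pool.Agent.X40.BA.G4

/-!
# The signs of the error coordinates along the powers of the unit
-/

set_option autoImplicit false
set_option linter.unusedSectionVars false

namespace Pool.Agent.X40.BA

/-- the second error coordinate of the `k`-th power of the unit -/
noncomputable def bb (r : ℝ) (k : ℕ) : ℝ := (err (r, r ^ 2) (U k)).2

/-- the complex root of `t³ = t + 1` in the upper half plane -/
noncomputable def ss (r : ℝ) : ℂ := ⟨-r / 2, Real.sqrt (4 * (r ^ 2 - 1) - r ^ 2) / 2⟩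

lemma U_pos (k : ℕ) : 1 ≤ (U (k + 5)).1 ∧ 1 ≤ (U (k + 5)).2.1 ∧ 1 ≤ (U (k + 5)).2.2 := by
  induction k with
  | zero => simp [U, A]
  | succ k ih =>
    obtain ⟨h1, h2, h3⟩ := ih
    have e : U (k + 1 + 5) = A (U (k + 5)) := rfl
    rw [e]
    unfold A
    exact ⟨h2, h3, by simp only; linarith⟩

section
variable {r : ℝ} (hr : r ^ 3 = r + 1)
include hr

lemma ss_pos : 0 < (ss r).im := by
  unfold ss
  simp only
  have := r2_lo hr
  have h : 0 < Real.sqrt (4 * (r ^ 2 - 1) - r ^ 2) := Real.sqrt_pos.mpr (by linarith)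
  linarith

lemma ss_sq : (ss r) ^ 2 = -(r : ℂ) * ss r - ((r : ℂ) ^ 2 - 1) := by
  have h := r2_lo hr
  have hq : Real.sqrt (4 * (r ^ 2 - 1) - r ^ 2) ^ 2 = 4 * (r ^ 2 - 1) - r ^ 2 :=
    Real.sq_sqrt (by linarith)
  unfold ss
  rw [sq]
  apply Complex.ext
  · rw [Complex.mul_re]
    have : ((r : ℂ) ^ 2).re = r ^ 2 := by rw [← Complex.ofReal_pow, Complex.ofReal_re]
    simp only [Complex.sub_re, Complex.mul_re, Complex.neg_re, Complex.ofReal_re, Complex.neg_im,
      Complex.ofReal_im, Complex.one_re, this]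
    nlinarith
  · rw [Complex.mul_im]
    have : ((r : ℂ) ^ 2).im = 0 := by rw [← Complex.ofReal_pow, Complex.ofReal_im]
    simp only [Complex.sub_im, Complex.mul_im, Complex.neg_re, Complex.ofReal_re, Complex.neg_im,
      Complex.ofReal_im, Complex.one_im, this]
    ring

lemma ss_cube : (ss r) ^ 3 = ss r + 1 := by
  have h := ss_sq hr
  have hc : (r : ℂ) ^ 3 = r + 1 := by exact_mod_cast congrArg (fun x : ℝ => (x : ℂ)) hr
  linear_combination (ss r - (r : ℂ)) * h + hc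

lemma bb_rec (k : ℕ) : bb r (k + 2) = -r * bb r (k + 1) - (r ^ 2 - 1) * bb r k := by
  unfold bb
  have e1 : (err (r, r ^ 2) (U (k + 2))).2 = -(r ^ 2 - 1) * (err (r, r ^ 2) (U (k + 1))).1 := by
    rw [U, err_A hr]; rfl
  have e2 : (err (r, r ^ 2) (U (k + 1))).1 = (err (r, r ^ 2) (U k)).2 - r * (err (r, r ^ 2) (U k)).1 := by
    rw [U, err_A hr]; rfl
  have e3 : (err (r, r ^ 2) (U (k + 1))).2 = -(r ^ 2 - 1) * (err (r, r ^ 2) (U k)).1 := by
    rw [U, err_A hr]; rfl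
  rw [e1, e2, e3]
  ring

lemma bb_rec3 (k : ℕ) : bb r (k + 3) = bb r (k + 1) + bb r k := by
  unfold bb
  simp only [U, A, err]
  push_cast
  ring

lemma err_bb (k : ℕ) : err (r, r ^ 2) (U k) = (-r * bb r (k + 1), bb r k) := by
  refine Prod.ext ?_ rfl
  unfold bb
  have e3 : (err (r, r ^ 2) (U (k + 1))).2 = -(r ^ 2 - 1) * (err (r, r ^ 2) (U k)).1 := by
    rw [U, err_A hr]; rfl
  simp only
  rw [e3]
  linear_combination (-(err (r, r ^ 2) (U k)).1) * hr

/-- the starting complex number -/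
lemma exists_w : ∃ w : ℂ, w ≠ 0 ∧ ∀ k, (w * ss r ^ k).re = bb r k := by
  have him := ss_pos hr
  refine ⟨⟨bb r 0, (bb r 0 * (ss r).re - bb r 1) / (ss r).im⟩, ?_, ?_⟩
  · intro h
    have h1 := congrArg Complex.re h
    simp only [Complex.zero_re] at h1
    have h2 : bb r 0 = r ^ 2 := by simp [bb, err, U]
    rw [h2] at h1
    have := r2_lo hr
    linarith
  · have key : ∀ k, ((⟨bb r 0, (bb r 0 * (ss r).re - bb r 1) / (ss r).im⟩ : ℂ) * ss r ^ k).re = bb r k ∧
        ((⟨bb r 0, (bb r 0 * (ss r).re - bb r 1) / (ss r).im⟩ : ℂ) * ss r ^ (k + 1)).re = bb r (k + 1) := by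
      intro k
      induction k with
      | zero =>
        constructor
        · simp
        · rw [zero_add, pow_one, Complex.mul_re]
          simp only
          field_simp
          ring
      | succ k ih =>
        refine ⟨ih.2, ?_⟩
        have h := ss_sq hr
        have e : (⟨bb r 0, (bb r 0 * (ss r).re - bb r 1) / (ss r).im⟩ : ℂ) * ss r ^ (k + 1 + 1) =
            ((-r : ℝ) : ℂ) * ((⟨bb r 0, (bb r 0 * (ss r).re - bb r 1) / (ss r).im⟩ : ℂ) * ss r ^ (k + 1)) -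
            ((r ^ 2 - 1 : ℝ) : ℂ) * ((⟨bb r 0, (bb r 0 * (ss r).re - bb r 1) / (ss r).im⟩ : ℂ) * ss r ^ k) := by
          rw [show ss r ^ (k + 1 + 1) = ss r ^ k * ss r ^ 2 by ring, h]
          push_cast
          ring
        rw [e, Complex.sub_re, Complex.re_ofReal_mul, Complex.re_ofReal_mul, ih.1, ih.2, bb_rec hr]
    exact fun k => (key k).1

lemma ss_pow (k : ℕ) : ss r ^ k = ((U k).1 : ℂ) + ((U k).2.1 : ℂ) * ss r ^ 2 + ((U k).2.2 : ℂ) * ss r := by
  induction k with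
  | zero => simp [U]
  | succ k ih =>
    have hc := ss_cube hr
    rw [pow_succ, ih]
    simp only [U, A]
    push_cast
    linear_combination ((U k).2.1 : ℂ) * hc

lemma arg_irr : Irrational ((ss r).arg / Real.pi) := by
  rintro ⟨q, hq⟩
  have hpi := Real.pi_pos
  have hn : (0 : ℝ) < (q.den : ℝ) := by exact_mod_cast q.pos
  have h1 : (q.den : ℝ) * (ss r).arg = q.num * Real.pi := by
    have h2 : (ss r).arg = (q : ℝ) * Real.pi := by
      rw [hq]
      field_simp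
    rw [h2]
    have h3 : (q : ℝ) = (q.num : ℝ) / (q.den : ℝ) := by exact_mod_cast (Rat.num_div_den q).symm
    rw [h3]
    field_simp
  -- the power `5 * den + 0` is real
  have h4 : (ss r ^ (5 * q.den)).im = 0 := by
    have e : ss r = (‖ss r‖ : ℂ) * Complex.exp ((ss r).arg * Complex.I) :=
      (Complex.norm_mul_exp_arg_mul_I (ss r)).symm
    rw [e, mul_pow, ← Complex.exp_nat_mul, ← Complex.ofReal_pow, Complex.im_ofReal_mul]
    have e2 : ((5 * q.den : ℕ) : ℂ) * ((ss r).arg * Complex.I) = (((5 * q.num : ℤ) : ℝ) * Real.pi : ℝ) * Complex.I := by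
      have : (((5 * q.den : ℕ) : ℝ) * (ss r).arg : ℝ) = ((5 * q.num : ℤ) : ℝ) * Real.pi := by
        push_cast
        linarith
      rw [← this]
      push_cast
      ring
    rw [e2, Complex.exp_ofReal_mul_I_im, Real.sin_int_mul_pi, mul_zero]
  have h5 : 5 ≤ 5 * q.den := by have := q.pos; omega
  obtain ⟨j, hj⟩ : ∃ j, 5 * q.den = j + 5 := ⟨5 * q.den - 5, by omega⟩
  rw [hj, ss_pow hr] at h4
  have him := ss_pos hr
  have hU := U_pos j
  have h6 : (((U (j + 5)).1 : ℂ) + ((U (j + 5)).2.1 : ℂ) * ss r ^ 2 + ((U (j + 5)).2.2 : ℂ) * ss r).im =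
      ((U (j + 5)).2.2 - r * (U (j + 5)).2.1) * (ss r).im := by
    rw [ss_sq hr]
    have a1 : (((U (j + 5)).1 : ℂ)) = (((U (j + 5)).1 : ℝ) : ℂ) := by push_cast; rfl
    have a2 : (((U (j + 5)).2.1 : ℂ)) = (((U (j + 5)).2.1 : ℝ) : ℂ) := by push_cast; rfl
    have a3 : (((U (j + 5)).2.2 : ℂ)) = (((U (j + 5)).2.2 : ℝ) : ℂ) := by push_cast; rfl
    have a4 : ((r : ℂ) ^ 2 - 1) = ((r ^ 2 - 1 : ℝ) : ℂ) := by push_cast; rfl
    rw [a1, a2, a3, a4, ← Complex.ofReal_neg]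
    simp only [Complex.add_im, Complex.sub_im, Complex.im_ofReal_mul, Complex.ofReal_im]
    ring
  rw [h6] at h4
  have h7 : ((U (j + 5)).2.2 : ℝ) = r * (U (j + 5)).2.1 := by
    rcases mul_eq_zero.mp h4 with h | h
    · linarith
    · linarith
  have h8 : ((U (j + 5)).2.2 : ℝ) ^ 3 = (U (j + 5)).2.2 * ((U (j + 5)).2.1 : ℝ) ^ 2 + ((U (j + 5)).2.1 : ℝ) ^ 3 := by
    rw [h7]
    linear_combination (((U (j + 5)).2.1 : ℝ) ^ 3) * hr
  have h9 : (U (j + 5)).2.2 ^ 3 = (U (j + 5)).2.2 * (U (j + 5)).2.1 ^ 2 + (U (j + 5)).2.1 ^ 3 := by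
    exact_mod_cast h8
  exact no_root _ _ (by have := hU.2.1; omega) h9

/-- the frequency of the sign pattern -/
theorem freq_sign (l : ℝ) (hl : 0 < l) (ε : ℝ) (hε : 0 < ε) : ∃ C : ℝ, ∀ K : ℕ,
    |∑ k ∈ Finset.range K, indR (0 < bb r k * (bb r k + l * bb r (k + 1))) -
      K * (1 - (1 + l * ss r).arg / Real.pi)| ≤ K * ε + C := by
  obtain ⟨w, hw0, hw⟩ := exists_w hr
  have hpi := Real.pi_pos
  have him := ss_pos hr
  have hs0 : ss r ≠ 0 := by
    intro h
    rw [h] at him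
    simp at him
  have hσim : (1 + (l : ℂ) * ss r).im = l * (ss r).im := by
    rw [Complex.add_im, Complex.one_im, Complex.im_ofReal_mul, zero_add]
  have hσpos : 0 < (1 + (l : ℂ) * ss r).im := by rw [hσim]; positivity
  have hσ0 : (1 + (l : ℂ) * ss r) ≠ 0 := by
    intro h
    rw [h] at hσpos
    simp at hσpos
  have hτ0 : 0 < (1 + (l : ℂ) * ss r).arg := by
    rcases (Complex.arg_nonneg_iff.mpr hσpos.le).lt_or_eq with h | h
    · exact h
    · exfalso
      have := (Complex.arg_eq_zero_iff.mp h.symm).2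
      linarith
  have hτ1 : (1 + (l : ℂ) * ss r).arg < Real.pi := Complex.arg_lt_pi_iff.mpr (Or.inr hσpos.ne')
  have hnw : 0 < ‖w‖ := norm_pos_iff.mpr hw0
  have hns : 0 < ‖ss r‖ := norm_pos_iff.mpr hs0
  have hnσ : 0 < ‖1 + (l : ℂ) * ss r‖ := norm_pos_iff.mpr hσ0
  -- polar forms
  have p1 : ∀ k : ℕ, bb r k = ‖w‖ * ‖ss r‖ ^ k * Real.cos (w.arg + k * (ss r).arg) := by
    intro k
    rw [← hw k]
    have e : w * ss r ^ k = ((‖w‖ * ‖ss r‖ ^ k : ℝ) : ℂ) *
        Complex.exp (((w.arg + k * (ss r).arg : ℝ) : ℂ) * Complex.I) := by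
      conv_lhs => rw [← Complex.norm_mul_exp_arg_mul_I w, ← Complex.norm_mul_exp_arg_mul_I (ss r)]
      rw [mul_pow, ← Complex.exp_nat_mul]
      push_cast
      rw [add_mul, Complex.exp_add, mul_assoc (k : ℂ)]
      ring
    rw [e, Complex.re_ofReal_mul, Complex.exp_ofReal_mul_I_re]
  have p2 : ∀ k : ℕ, bb r k + l * bb r (k + 1) = ‖w‖ * ‖ss r‖ ^ k * ‖1 + (l : ℂ) * ss r‖ *
      Real.cos (w.arg + k * (ss r).arg + (1 + (l : ℂ) * ss r).arg) := by
    intro k
    have e0 : bb r k + l * bb r (k + 1) = (w * ss r ^ k * (1 + (l : ℂ) * ss r)).re := by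
      have : w * ss r ^ k * (1 + (l : ℂ) * ss r) = w * ss r ^ k + (l : ℂ) * (w * ss r ^ (k + 1)) := by ring
      rw [this, Complex.add_re, Complex.re_ofReal_mul, hw, hw]
    rw [e0]
    have e : w * ss r ^ k * (1 + (l : ℂ) * ss r) = ((‖w‖ * ‖ss r‖ ^ k * ‖1 + (l : ℂ) * ss r‖ : ℝ) : ℂ) *
        Complex.exp (((w.arg + k * (ss r).arg + (1 + (l : ℂ) * ss r).arg : ℝ) : ℂ) * Complex.I) := by
      conv_lhs => rw [← Complex.norm_mul_exp_arg_mul_I w, ← Complex.norm_mul_exp_arg_mul_I (ss r ^ k)]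
      have q1 : (‖ss r ^ k‖ : ℂ) * Complex.exp ((ss r ^ k).arg * Complex.I) = ss r ^ k :=
        Complex.norm_mul_exp_arg_mul_I _
      rw [q1]
      conv_lhs => rw [← Complex.norm_mul_exp_arg_mul_I (1 + (l : ℂ) * ss r)]
      have q2 : ss r ^ k = ((‖ss r‖ : ℂ)) ^ k * Complex.exp ((k : ℂ) * ((ss r).arg * Complex.I)) := by
        conv_lhs => rw [← Complex.norm_mul_exp_arg_mul_I (ss r)]
        rw [mul_pow, ← Complex.exp_nat_mul]
      rw [q2]
      push_cast
      rw [add_mul, add_mul, Complex.exp_add, Complex.exp_add, mul_assoc (k : ℂ)]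
      ring
    rw [e, Complex.re_ofReal_mul, Complex.exp_ofReal_mul_I_re]
  obtain ⟨C, hC⟩ := freq_cos ((ss r).arg / Real.pi) (arg_irr hr)
    ((2 * w.arg + (1 + (l : ℂ) * ss r).arg) / (2 * Real.pi))
    ((Real.pi - (1 + (l : ℂ) * ss r).arg) / (2 * Real.pi))
    (div_pos (by linarith) (by positivity)) (by rw [div_lt_iff₀ (by positivity)]; linarith) ε hε
  refine ⟨C, fun K => ?_⟩
  have h := hC K
  have e1 : ∑ k ∈ Finset.range K, indR (Real.cos (2 * Real.pi * ((Real.pi - (1 + (l : ℂ) * ss r).arg) / (2 * Real.pi))) <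
      Real.cos (2 * Real.pi * ((2 * w.arg + (1 + (l : ℂ) * ss r).arg) / (2 * Real.pi) + k * ((ss r).arg / Real.pi)))) =
      ∑ k ∈ Finset.range K, indR (0 < bb r k * (bb r k + l * bb r (k + 1))) := by
    apply Finset.sum_congr rfl
    intro k _
    have f1 : 2 * Real.pi * ((Real.pi - (1 + (l : ℂ) * ss r).arg) / (2 * Real.pi)) =
        Real.pi - (1 + (l : ℂ) * ss r).arg := by field_simp
    have f2 : 2 * Real.pi * ((2 * w.arg + (1 + (l : ℂ) * ss r).arg) / (2 * Real.pi) + k * ((ss r).arg / Real.pi)) =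
        2 * w.arg + (1 + (l : ℂ) * ss r).arg + 2 * k * (ss r).arg := by field_simp
    rw [f1, f2, Real.cos_pi_sub]
    have f3 := Real.cos_add_cos (2 * w.arg + (1 + (l : ℂ) * ss r).arg + 2 * k * (ss r).arg) ((1 + (l : ℂ) * ss r).arg)
    have f4 : (2 * w.arg + (1 + (l : ℂ) * ss r).arg + 2 * k * (ss r).arg + (1 + (l : ℂ) * ss r).arg) / 2 =
        w.arg + k * (ss r).arg + (1 + (l : ℂ) * ss r).arg := by ring
    have f5 : (2 * w.arg + (1 + (l : ℂ) * ss r).arg + 2 * k * (ss r).arg - (1 + (l : ℂ) * ss r).arg) / 2 =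
        w.arg + k * (ss r).arg := by ring
    rw [f4, f5] at f3
    have f6 : bb r k * (bb r k + l * bb r (k + 1)) = (‖w‖ * ‖ss r‖ ^ k) ^ 2 * ‖1 + (l : ℂ) * ss r‖ / 2 *
        (Real.cos (2 * w.arg + (1 + (l : ℂ) * ss r).arg + 2 * k * (ss r).arg) + Real.cos (1 + (l : ℂ) * ss r).arg) := by
      rw [p2 k, p1 k, f3]
      ring
    have f7 : 0 < (‖w‖ * ‖ss r‖ ^ k) ^ 2 * ‖1 + (l : ℂ) * ss r‖ / 2 := by positivity
    have f8 : (-Real.cos (1 + (l : ℂ) * ss r).arg < Real.cos (2 * w.arg + (1 + (l : ℂ) * ss r).arg + 2 * k * (ss r).arg)) ↔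
        0 < bb r k * (bb r k + l * bb r (k + 1)) := by
      rw [f6, mul_pos_iff_of_pos_left f7]
      constructor <;> intro h <;> linarith
    rw [f8]
  rw [e1] at h
  have e2 : (K : ℝ) * (2 * ((Real.pi - (1 + (l : ℂ) * ss r).arg) / (2 * Real.pi))) =
      K * (1 - (1 + (l : ℂ) * ss r).arg / Real.pi) := by
    field_simp
  rw [e2] at h
  exact h

end

end Pool.Agent.X40.BA
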