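import Pool.Agent.X40.BA.E2

/-!
# Which powers of the unit are best approximations (sup norm)
-/

set_option autoImplicit false
set_option linter.unusedSectionVars false

namespace Pool.Agent.X40.BA

/-- the sign pattern deciding whether a power of the unit is best -/
structure Chr (r : ℝ) (f : ℝ × ℝ → ℝ) (l : ℝ) : Prop where
  a : ∀ j, (∀ i < 3, f (err (r, r ^ 2) (U (j + 3))) < f (err (r, r ^ 2) (U (j + i)))) →
    0 < bb r (j + 3) * (bb r (j + 3) + l * bb r (j + 3 + 1))
  b : ∀ k, 8 ≤ k → 0 < bb r k * (bb r k + l * bb r (k + 1)) →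
    ∀ i < k, f (err (r, r ^ 2) (U k)) < f (err (r, r ^ 2) (U i))

section
variable {r : ℝ} (hr : r ^ 3 = r + 1)
include hr

lemma bb_ne (k : ℕ) : bb r (k + 5) ≠ 0 := by
  intro h
  unfold bb err at h
  simp only at h
  have hU := U_pos k
  have hx : (1 : ℝ) ≤ ((U (k + 5)).1 : ℝ) := by exact_mod_cast hU.1
  have h1 : r * (((U (k + 5)).2.2 : ℝ) - (U (k + 5)).1) = (U (k + 5)).1 := by
    linear_combination ((U (k + 5)).1 : ℝ) * hr - r * h
  have h2 : ((U (k + 5)).1 : ℝ) ^ 3 = (U (k + 5)).1 * (((U (k + 5)).2.2 : ℝ) - (U (k + 5)).1) ^ 2 +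
      (((U (k + 5)).2.2 : ℝ) - (U (k + 5)).1) ^ 3 := by
    generalize ((U (k + 5)).2.2 : ℝ) - (U (k + 5)).1 = X at h1 ⊢
    rw [← h1]
    linear_combination (X ^ 3) * hr
  have h3 : (U (k + 5)).1 ^ 3 = (U (k + 5)).1 * ((U (k + 5)).2.2 - (U (k + 5)).1) ^ 2 +
      ((U (k + 5)).2.2 - (U (k + 5)).1) ^ 3 := by exact_mod_cast h2
  refine no_root _ _ ?_ h3
  intro h4
  have h5 : ((U (k + 5)).2.2 : ℝ) - (U (k + 5)).1 = 0 := by exact_mod_cast h4
  rw [h5, mul_zero] at h1
  linarith

lemma back1 (k : ℕ) : bb r k = -(r ^ 2 * bb r (k + 1) + r * bb r (k + 2)) := by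
  rw [bb_rec hr]
  linear_combination (-(bb r k)) * hr

lemma sup_err (k : ℕ) : supN (err (r, r ^ 2) (U k)) = max (r * |bb r (k + 1)|) |bb r k| := by
  rw [err_bb hr]
  unfold supN
  simp only
  rw [abs_mul, abs_neg, abs_of_pos (show 0 < r by linarith [r_lo hr])]

lemma key_a' {p q m1 m2 m3 : ℝ} (hp : 0 ≤ p) (h1 : m1 = -(r ^ 2 * p + r * q))
    (h2 : m2 = r ^ 2 * p + (1 + r) * q) (h3 : m3 = (1 - r ^ 2) * p - (1 + r) * q)
    (hneg : p * (p + (1 + r) * q) ≤ 0) :
    max (r * |p|) |m1| ≤ max (r * |q|) |p| ∨ max (r * |m1|) |m2| ≤ max (r * |q|) |p| ∨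
      max (r * |m2|) |m3| ≤ max (r * |q|) |p| := by
  have r1 := r_lo hr
  have r2 := r_hi hr
  have r3 := r2_lo hr
  have r4 := r2_hi hr
  have rp : 0 < r := by linarith
  rcases hp.eq_or_lt with h0 | h0
  · left
    rw [← h0] at h1 ⊢
    rw [h1]
    simp only [abs_zero, mul_zero, zero_add]
    rw [abs_neg, abs_mul, abs_of_pos rp]
    exact (max_comm _ _).le
  · have hq : p + (1 + r) * q ≤ 0 := by
      by_contra hc
      push Not at hc
      have := mul_pos h0 hc
      linarith
    obtain ⟨t, rfl⟩ : ∃ t, q = -t := ⟨-q, by ring⟩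
    have ht : 0 ≤ t := by
      by_contra hc
      push Not at hc
      nlinarith
    have F1 : r * t ≤ max (r * |-t|) |p| := by
      rw [abs_neg, abs_of_nonneg ht]; exact le_max_left _ _
    have F2 : p ≤ max (r * |-t|) |p| := by
      rw [abs_of_pos h0]; exact le_max_right _ _
    generalize max (r * |-t|) |p| = F at *
    have ft := mul_nonneg (show 0 ≤ r by linarith) ht
    by_cases c1 : r * t ≤ p
    · right; right
      have k1 := mul_nonneg rp.le (show 0 ≤ (1 + r) * t - p by linarith)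
      have k2 := mul_nonneg (show 0 ≤ 1 + r by linarith) (show 0 ≤ p - r * t by linarith)
      have k3 := mul_nonneg (show 0 ≤ r ^ 2 by positivity) (show 0 ≤ p - r * t by linarith)
      have k4 : r ^ 3 * t = (r + 1) * t := by rw [hr]
      have k5 : r ^ 3 * p = (r + 1) * p := by rw [hr]
      apply max_le
      · have : r * |m2| ≤ p := by
          rw [← abs_of_pos rp, ← abs_mul, h2, abs_le]
          constructor <;> nlinarith
        linarith
      · have : |m3| ≤ p := by
          rw [h3, abs_le]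
          constructor <;> nlinarith
        linarith
    · push Not at c1
      by_cases c2 : t ≤ p
      · right; left
        have k3 := mul_nonneg (show 0 ≤ r ^ 2 by positivity) (show 0 ≤ r * t - p by linarith)
        have k4 : r ^ 3 * t = (r + 1) * t := by rw [hr]
        have k6 := mul_le_mul_of_nonneg_left c2 (show 0 ≤ r - 1 by linarith)
        apply max_le
        · have : |m1| ≤ t := by
            rw [h1, abs_le]
            constructor <;> nlinarith
          have := mul_le_mul_of_nonneg_left this rp.le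
          linarith
        · have : |m2| ≤ r * t := by
            rw [h2, abs_le]
            constructor <;> nlinarith
          linarith
      · left
        push Not at c2
        have k7 := mul_nonneg rp.le (show 0 ≤ 2 * t - r * p by nlinarith)
        apply max_le
        · rw [abs_of_pos h0]
          have := mul_le_mul_of_nonneg_left c2.le rp.le
          linarith
        · have : |m1| ≤ r * t := by
            rw [h1, abs_le]
            constructor <;> nlinarith
          linarith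

lemma key_a {p q m1 m2 m3 : ℝ} (h1 : m1 = -(r ^ 2 * p + r * q))
    (h2 : m2 = r ^ 2 * p + (1 + r) * q) (h3 : m3 = (1 - r ^ 2) * p - (1 + r) * q)
    (hneg : p * (p + (1 + r) * q) ≤ 0) :
    max (r * |p|) |m1| ≤ max (r * |q|) |p| ∨ max (r * |m1|) |m2| ≤ max (r * |q|) |p| ∨
      max (r * |m2|) |m3| ≤ max (r * |q|) |p| := by
  rcases le_total 0 p with hp | hp
  · exact key_a' hr hp h1 h2 h3 hneg
  · have := key_a' hr (p := -p) (q := -q) (m1 := -m1) (m2 := -m2) (m3 := -m3) (by linarith)
      (by rw [h1]; ring) (by rw [h2]; ring) (by rw [h3]; ring) (by linarith)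
    simpa only [abs_neg] using this

lemma key_b' {p q c7 c6 c5 c4 c3 c2 c1 c0 : ℝ} (hp : 0 < p) (hpos : 0 < p + (1 + r) * q) (hq : q ≠ 0)
    (h7 : c7 = -(r ^ 2 * p + r * q)) (h6 : c6 = q - c7) (h5 : c5 = p - c6) (h4 : c4 = c7 - c5)
    (h3 : c3 = c6 - c4) (h2 : c2 = c5 - c3) (h1 : c1 = c4 - c2) (h0 : c0 = c3 - c1) :
    max (r * |q|) |p| < max (r * |p|) |c7| ∧ max (r * |q|) |p| < max (r * |c7|) |c6| ∧
    max (r * |q|) |p| < max (r * |c6|) |c5| ∧ max (r * |q|) |p| < max (r * |c5|) |c4| ∧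
    max (r * |q|) |p| < max (r * |c4|) |c3| ∧ max (r * |q|) |p| < max (r * |c3|) |c2| ∧
    max (r * |q|) |p| < max (r * |c2|) |c1| ∧ max (r * |q|) |p| < max (r * |c1|) |c0| := by
  have r1 := r_lo hr
  have r2 := r_hi hr
  have r3 := r2_lo hr
  have r4 := r2_hi hr
  have rp : 0 < r := by linarith
  have g6 : c6 = r ^ 2 * p + (1 + r) * q := by rw [h6, h7]; ring
  have g5 : c5 = (1 - r ^ 2) * p - (1 + r) * q := by rw [h5, g6]; ring
  have g4 : c4 = -p + q := by rw [h4, h7, g5]; ring
  have g3 : c3 = (1 + r ^ 2) * p + r * q := by rw [h3, g6, g4]; ring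
  have g2 : c2 = -(2 * r ^ 2 * p + (1 + 2 * r) * q) := by rw [h2, g5, g3]; ring
  have g1 : c1 = (2 * r ^ 2 - 1) * p + (2 + 2 * r) * q := by rw [h1, g4, g2]; ring
  have g0 : c0 = (2 - r ^ 2) * p - (2 + r) * q := by rw [h0, g3, g1]; ring
  have pp : |p| = p := abs_of_pos hp
  rcases lt_or_gt_of_ne hq with hq | hq
  · -- negative
    obtain ⟨t, rfl⟩ : ∃ t, q = -t := ⟨-q, by ring⟩
    have ht : 0 < t := by linarith
    have hF : max (r * |-t|) |p| ≤ p := by
      rw [abs_neg, abs_of_pos ht, pp]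
      exact max_le (by nlinarith) le_rfl
    have k1 : t < 0.431 * p := by nlinarith
    have k2 := mul_pos rp (show 0 < p - (1 + r) * t by linarith)
    have k5 : r ^ 3 * p = (r + 1) * p := by rw [hr]
    refine ⟨?_, ?_, ?_, ?_, ?_, ?_, ?_, ?_⟩ <;> refine lt_of_le_of_lt hF ?_
    · apply lt_max_of_lt_left
      rw [pp]
      nlinarith
    · apply lt_max_of_lt_left
      have : r ^ 2 * p - r * t ≤ |c7| := by
        rw [h7, abs_neg]
        exact (le_of_eq (by ring)).trans (le_abs_self _)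
      have := mul_le_mul_of_nonneg_left this rp.le
      nlinarith
    · apply lt_max_of_lt_left
      have : r ^ 2 * p - (1 + r) * t ≤ |c6| := by
        rw [g6]
        exact (le_of_eq (by ring)).trans (le_abs_self _)
      have := mul_le_mul_of_nonneg_left this rp.le
      nlinarith
    · apply lt_max_of_lt_right
      rw [g4, abs_of_neg (by linarith)]
      linarith
    · apply lt_max_of_lt_right
      rw [g3]
      refine lt_of_lt_of_le ?_ (le_abs_self _)
      nlinarith
    · apply lt_max_of_lt_right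
      rw [g2, abs_neg]
      refine lt_of_lt_of_le ?_ (le_abs_self _)
      nlinarith
    · apply lt_max_of_lt_left
      have : 2 * r ^ 2 * p - (1 + 2 * r) * t ≤ |c2| := by
        rw [g2, abs_neg]
        exact (le_of_eq (by ring)).trans (le_abs_self _)
      nlinarith
    · by_cases hc : 0.25 * p ≤ t
      · apply lt_max_of_lt_right
        rw [g0]
        refine lt_of_lt_of_le ?_ (le_abs_self _)
        nlinarith
      · push Not at hc
        apply lt_max_of_lt_left
        have : (2 * r ^ 2 - 1) * p - (2 + 2 * r) * t ≤ |c1| := by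
          rw [g1]
          exact (le_of_eq (by ring)).trans (le_abs_self _)
        nlinarith
  · -- positive
    have qq : |q| = q := abs_of_pos hq
    have rq := mul_pos rp hq
    have k5 : r ^ 3 * p = (r + 1) * p := by rw [hr]
    have r2p := mul_pos (show 0 < r ^ 2 by positivity) hp
    have r2q := mul_pos (show 0 < r ^ 2 by positivity) hq
    rw [qq, pp]
    refine ⟨?_, ?_, ?_, ?_, ?_, ?_, ?_, ?_⟩ <;> apply max_lt
    · apply lt_max_of_lt_right
      rw [h7, abs_neg]
      refine lt_of_lt_of_le ?_ (le_abs_self _)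
      linarith
    · apply lt_max_of_lt_right
      rw [h7, abs_neg]
      refine lt_of_lt_of_le ?_ (le_abs_self _)
      nlinarith
    · apply lt_max_of_lt_right
      rw [g6]
      refine lt_of_lt_of_le ?_ (le_abs_self _)
      nlinarith
    · apply lt_max_of_lt_right
      rw [g6]
      refine lt_of_lt_of_le ?_ (le_abs_self _)
      nlinarith
    · apply lt_max_of_lt_left
      have : r ^ 2 * p + (1 + r) * q ≤ |c6| := by rw [g6]; exact le_abs_self _
      nlinarith
    · apply lt_max_of_lt_left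
      have : r ^ 2 * p + (1 + r) * q ≤ |c6| := by rw [g6]; exact le_abs_self _
      nlinarith
    · apply lt_max_of_lt_left
      have : (r ^ 2 - 1) * p + (1 + r) * q ≤ |c5| := by
        rw [g5, ← abs_neg]
        exact (le_of_eq (by ring)).trans (le_abs_self _)
      have h8 := mul_le_mul_of_nonneg_left this rp.le
      nlinarith
    · apply lt_max_of_lt_left
      have : (r ^ 2 - 1) * p + (1 + r) * q ≤ |c5| := by
        rw [g5, ← abs_neg]
        exact (le_of_eq (by ring)).trans (le_abs_self _)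
      have h8 := mul_le_mul_of_nonneg_left this rp.le
      nlinarith
    · apply lt_max_of_lt_right
      rw [g3]
      refine lt_of_lt_of_le ?_ (le_abs_self _)
      nlinarith
    · apply lt_max_of_lt_right
      rw [g3]
      refine lt_of_lt_of_le ?_ (le_abs_self _)
      nlinarith
    · apply lt_max_of_lt_right
      rw [g2, abs_neg]
      refine lt_of_lt_of_le ?_ (le_abs_self _)
      nlinarith
    · apply lt_max_of_lt_right
      rw [g2, abs_neg]
      refine lt_of_lt_of_le ?_ (le_abs_self _)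
      nlinarith
    · apply lt_max_of_lt_right
      rw [g1]
      refine lt_of_lt_of_le ?_ (le_abs_self _)
      nlinarith
    · apply lt_max_of_lt_right
      rw [g1]
      refine lt_of_lt_of_le ?_ (le_abs_self _)
      nlinarith
    · apply lt_max_of_lt_left
      have : (2 * r ^ 2 - 1) * p + (2 + 2 * r) * q ≤ |c1| := by rw [g1]; exact le_abs_self _
      nlinarith
    · apply lt_max_of_lt_left
      have : (2 * r ^ 2 - 1) * p + (2 + 2 * r) * q ≤ |c1| := by rw [g1]; exact le_abs_self _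
      nlinarith

lemma key_b {p q c7 c6 c5 c4 c3 c2 c1 c0 : ℝ} (hpos : 0 < p * (p + (1 + r) * q)) (hq : q ≠ 0)
    (h7 : c7 = -(r ^ 2 * p + r * q)) (h6 : c6 = q - c7) (h5 : c5 = p - c6) (h4 : c4 = c7 - c5)
    (h3 : c3 = c6 - c4) (h2 : c2 = c5 - c3) (h1 : c1 = c4 - c2) (h0 : c0 = c3 - c1) :
    max (r * |q|) |p| < max (r * |p|) |c7| ∧ max (r * |q|) |p| < max (r * |c7|) |c6| ∧
    max (r * |q|) |p| < max (r * |c6|) |c5| ∧ max (r * |q|) |p| < max (r * |c5|) |c4| ∧
    max (r * |q|) |p| < max (r * |c4|) |c3| ∧ max (r * |q|) |p| < max (r * |c3|) |c2| ∧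
    max (r * |q|) |p| < max (r * |c2|) |c1| ∧ max (r * |q|) |p| < max (r * |c1|) |c0| := by
  rcases mul_pos_iff.mp hpos with ⟨a, b⟩ | ⟨a, b⟩
  · exact key_b' hr a b hq h7 h6 h5 h4 h3 h2 h1 h0
  · have := key_b' hr (p := -p) (q := -q) (c7 := -c7) (c6 := -c6) (c5 := -c5) (c4 := -c4) (c3 := -c3)
      (c2 := -c2) (c1 := -c1) (c0 := -c0) (by linarith) (by linarith) (neg_ne_zero.mpr hq)
      (by rw [h7]; ring) (by rw [h6]; ring) (by rw [h5]; ring) (by rw [h4]; ring) (by rw [h3]; ring)
      (by rw [h2]; ring) (by rw [h1]; ring) (by rw [h0]; ring)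
    simpa only [abs_neg] using this

lemma U_Q' (k : ℕ) : Q r (err (r, r ^ 2) (U k)) = (r ^ k)⁻¹ := by
  have h := U_Q hr k
  have : r ^ k ≠ 0 := by have := r_lo hr; positivity
  field_simp
  linarith

/-- far away powers: the norm form decides -/
lemma far {f : ℝ × ℝ → ℝ} {s κ : ℝ} (n0 : ℕ) (hs : 0 < s) (hκ : 0 < κ) (hn : s * κ < r ^ n0)
    (hpos : ∀ u, 0 ≤ f u)
    (hq1 : ∀ u, Q r u ≤ s * f u ^ 2) (hq2 : ∀ u, f u ^ 2 ≤ κ * Q r u) (i n : ℕ) (hnn : n0 ≤ n) :
    f (err (r, r ^ 2) (U (i + n))) < f (err (r, r ^ 2) (U i)) := by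
  have r1 := r_lo hr
  have rp : 0 < r := by linarith
  have h1 := hq2 (err (r, r ^ 2) (U (i + n)))
  have h2 := hq1 (err (r, r ^ 2) (U i))
  rw [U_Q' hr] at h1 h2
  have hri : 0 < r ^ i := by positivity
  have hrn : r ^ n0 ≤ r ^ n := pow_le_pow_right₀ (by linarith) hnn
  have h3 : f (err (r, r ^ 2) (U (i + n))) ^ 2 < f (err (r, r ^ 2) (U i)) ^ 2 := by
    have e1 : (r ^ i)⁻¹ / s ≤ f (err (r, r ^ 2) (U i)) ^ 2 := by
      rw [div_le_iff₀ hs]
      linarith
    have e2 : κ * (r ^ (i + n))⁻¹ < (r ^ i)⁻¹ / s := by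
      rw [pow_add, mul_inv, lt_div_iff₀ hs]
      have hrn0 : 0 < r ^ n := by positivity
      have : κ * ((r ^ i)⁻¹ * (r ^ n)⁻¹) * s = (r ^ i)⁻¹ * ((s * κ) / r ^ n) := by
        field_simp
      rw [this]
      have h4 : (s * κ) / r ^ n < 1 := by
        rw [div_lt_one hrn0]
        linarith
      have h5 : 0 < (r ^ i)⁻¹ := by positivity
      nlinarith
    linarith
  exact lt_of_pow_lt_pow_left₀ 2 (hpos _) h3

theorem chr_sup : Chr r supN (1 + r) := by
  have r1 := r_lo hr
  have r2 := r_hi hr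
  have r3 := r2_lo hr
  have r4 := r2_hi hr
  constructor
  · intro j h
    by_contra hc
    push Not at hc
    have m1 : bb r (j + 2) = -(r ^ 2 * bb r (j + 3) + r * bb r (j + 3 + 1)) := back1 hr (j + 2)
    have e1 : bb r (j + 3 + 1) = bb r (j + 2) + bb r (j + 1) := bb_rec3 hr (j + 1)
    have e0 : bb r (j + 3) = bb r (j + 1) + bb r j := bb_rec3 hr j
    have m2 : bb r (j + 1) = r ^ 2 * bb r (j + 3) + (1 + r) * bb r (j + 3 + 1) := by linarith
    have m3 : bb r j = (1 - r ^ 2) * bb r (j + 3) - (1 + r) * bb r (j + 3 + 1) := by linarith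
    have h0 : supN (err (r, r ^ 2) (U (j + 3))) < supN (err (r, r ^ 2) (U j)) := h 0 (by norm_num)
    have h1 : supN (err (r, r ^ 2) (U (j + 3))) < supN (err (r, r ^ 2) (U (j + 1))) := h 1 (by norm_num)
    have h2 : supN (err (r, r ^ 2) (U (j + 3))) < supN (err (r, r ^ 2) (U (j + 2))) := h 2 (by norm_num)
    rw [sup_err hr, sup_err hr] at h0 h1 h2
    rcases key_a hr m1 m2 m3 hc with h | h | h
    · exact absurd h2 (not_lt.mpr h)
    · exact absurd h1 (not_lt.mpr h)
    · exact absurd h0 (not_lt.mpr h)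
  · intro k hk hP i hi
    obtain ⟨n, rfl⟩ : ∃ n, k = i + n := ⟨k - i, by omega⟩
    by_cases hn : 9 ≤ n
    · have hA := adm_sup hr
      refine far hr (s := 1 + r) (κ := 4.5) 9 (by linarith) (by norm_num) ?_ ?_ ?_ ?_ i n hn
      · have t2 : (3.0795 : ℝ) < r ^ 4 := by nlinarith
        have t3 : (9.48 : ℝ) < r ^ 8 := by
          have : r ^ 8 = r ^ 4 * r ^ 4 := by ring
          nlinarith
        have t4 : r ^ 9 = r ^ 8 * r := by ring
        nlinarith
      · intro u
        exact (abs_nonneg _).trans (le_max_left _ _)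
      · intro u
        obtain ⟨a, b⟩ := u
        unfold supN Q
        simp only
        have h1 : |a| ≤ max |a| |b| := le_max_left _ _
        have h2 : |b| ≤ max |a| |b| := le_max_right _ _
        have h3 : a ^ 2 ≤ (max |a| |b|) ^ 2 := sq_le_sq' (by linarith [(abs_le.mp h1).1]) (abs_le.mp h1).2
        have h4 : b ^ 2 ≤ (max |a| |b|) ^ 2 := sq_le_sq' (by linarith [(abs_le.mp h2).1]) (abs_le.mp h2).2
        nlinarith [sq_nonneg (a + b)]
      · intro u
        have h := Q_lo hr u
        unfold supN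
        rcases max_choice |u.1| |u.2| with h1 | h1 <;> rw [h1, sq_abs]
        · exact h.1
        · exact h.2
    · obtain ⟨j, hj⟩ : ∃ j, i + n = j + 8 := ⟨i + n - 8, by omega⟩
      rw [hj] at hP ⊢
      have b7 : bb r (j + 7) = -(r ^ 2 * bb r (j + 8) + r * bb r (j + 8 + 1)) := back1 hr (j + 7)
      have b6 : bb r (j + 8 + 1) = bb r (j + 7) + bb r (j + 6) := bb_rec3 hr (j + 6)
      have b5 : bb r (j + 8) = bb r (j + 6) + bb r (j + 5) := bb_rec3 hr (j + 5)
      have b4 : bb r (j + 7) = bb r (j + 5) + bb r (j + 4) := bb_rec3 hr (j + 4)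
      have b3 : bb r (j + 6) = bb r (j + 4) + bb r (j + 3) := bb_rec3 hr (j + 3)
      have b2 : bb r (j + 5) = bb r (j + 3) + bb r (j + 2) := bb_rec3 hr (j + 2)
      have b1 : bb r (j + 4) = bb r (j + 2) + bb r (j + 1) := bb_rec3 hr (j + 1)
      have b0 : bb r (j + 3) = bb r (j + 1) + bb r j := bb_rec3 hr j
      have hne : bb r (j + 8 + 1) ≠ 0 := bb_ne hr (j + 4)
      have K := key_b hr hP hne b7 (by linarith) (by linarith) (c5 := bb r (j + 5)) (c4 := bb r (j + 4))
        (c3 := bb r (j + 3)) (c2 := bb r (j + 2)) (c1 := bb r (j + 1)) (c0 := bb r j) (c6 := bb r (j + 6))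
        (by linarith) (by linarith) (by linarith) (by linarith) (by linarith)
      obtain ⟨k7, k6, k5, k4, k3, k2, k1, k0⟩ := K
      rw [sup_err hr, sup_err hr]
      have hcase : i = j + 7 ∨ i = j + 6 ∨ i = j + 5 ∨ i = j + 4 ∨ i = j + 3 ∨ i = j + 2 ∨ i = j + 1 ∨ i = j := by
        omega
      rcases hcase with rfl | rfl | rfl | rfl | rfl | rfl | rfl | rfl
      · exact k7
      · exact k6
      · exact k5
      · exact k4
      · exact k3
      · exact k2
      · exact k1
      · exact k0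

end

end Pool.Agent.X40.BA
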