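import Pool.Agent.X40.BA.G4

/-!
# The lower bound for the growth exponent
-/

set_option autoImplicit false
set_option linter.unusedSectionVars false

namespace Pool.Agent.X40.BA

open Filter Topology

section
variable {r : ℝ} (hr : r ^ 3 = r + 1) {f : ℝ × ℝ → ℝ} (hf : Adm r f)
include hr hf

/-- large elements of the set of best denominators come from powers of the unit -/
lemma large_mem {m : ℕ} (hm : m ∈ bestSet f (r, r ^ 2)) (h10 : 10 ≤ m) :
    ∃ k, 10 ≤ k ∧ IsBest f (r, r ^ 2) (U k) ∧ (U k).1 = m := by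
  have main : ∀ z : ℤ × ℤ × ℤ, IsBest f (r, r ^ 2) z → z.1 = m →
      ∃ k, 10 ≤ k ∧ IsBest f (r, r ^ 2) (U k) ∧ (U k).1 = m := by
    intro z hz hzm
    have h0 : 0 < z.1 := by omega
    have h1 := best_le_one hr hf hz h0.ne'
    have h2 := (cc_lo hr hf h1 h0).1
    have h3 : (10 : ℝ) ≤ z.1 := by
      rw [hzm]
      exact_mod_cast h10
    have r1 := r_lo hr
    have r2 := r_hi hr
    have h4 : r ^ 10 ≤ 20 := by
      have t2 : r ^ 4 ≤ 3.08 := by nlinarith [r2_lo hr, r2_hi hr]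
      have t3 : r ^ 8 ≤ 9.5 := by
        have : r ^ 8 = r ^ 4 * r ^ 4 := by ring
        nlinarith [show 0 < r ^ 4 by positivity]
      have t4 : r ^ 10 = r ^ 8 * r ^ 2 := by ring
      nlinarith [r2_lo hr, r2_hi hr, show 0 < r ^ 8 by positivity]
    obtain ⟨k, hk, rfl⟩ := best_unit hr hf hz h0 (by linarith)
    exact ⟨k, hk, hz, hzm⟩
  obtain ⟨z, hz, hzm⟩ := hm
  rcases le_total 0 z.1 with h | h
  · exact main z hz (by omega)
  · exact main (-z) (best_neg hr hf hz) (by rw [Prod.fst_neg]; omega)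

lemma Mseq_growth : ∀ n : ℕ, r ^ (10 + 6 * n) / 12 ≤ (Mseq f (r, r ^ 2) (11 + 5 * n) : ℝ) := by
  classical
  have hinf := bestSet_infinite hr hf
  have hmono : StrictMono (Nat.nth (fun m => m ∈ bestSet f (r, r ^ 2))) := Nat.nth_strictMono hinf
  have hmem : ∀ n, Nat.nth (fun m => m ∈ bestSet f (r, r ^ 2)) n ∈ bestSet f (r, r ^ 2) :=
    fun n => Nat.nth_mem_of_infinite hinf n
  have hK : ∀ n : ℕ, ∃ k, 10 ≤ n → (10 ≤ k ∧ IsBest f (r, r ^ 2) (U k) ∧
      (U k).1 = (Nat.nth (fun m => m ∈ bestSet f (r, r ^ 2)) n : ℕ)) := by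
    intro n
    by_cases hn : 10 ≤ n
    · obtain ⟨k, hk⟩ := large_mem hr hf (hmem n) (hn.trans (hmono.le_apply))
      exact ⟨k, fun _ => hk⟩
    · exact ⟨0, fun h => absurd h hn⟩
  choose K hK using hK
  have hstep : ∀ n, 10 ≤ n → K n < K (n + 1) := by
    intro n hn
    obtain ⟨h1, h2, h3⟩ := hK n hn
    obtain ⟨h4, h5, h6⟩ := hK (n + 1) (by omega)
    by_contra hc
    push Not at hc
    have h7 := U_mono' (show 5 ≤ K (n + 1) by omega) hc
    rw [h3, h6] at h7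
    have h8 := hmono (show n < n + 1 by omega)
    omega
  have hsix : ∀ n, 10 ≤ n → K n + 6 ≤ K (n + 5) := by
    intro n hn
    by_contra hc
    have s0 := hstep n hn
    have s1 := hstep (n + 1) (by omega)
    have s2 := hstep (n + 2) (by omega)
    have s3 := hstep (n + 3) (by omega)
    have s4 := hstep (n + 4) (by omega)
    simp only [add_assoc] at s0 s1 s2 s3 s4
    norm_num at s0 s1 s2 s3 s4
    have hb : ∀ i ≤ 5, IsBest f (r, r ^ 2) (U (K n + i)) := by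
      intro i hi
      interval_cases i
      · exact (hK n hn).2.1
      · have : K n + 1 = K (n + 1) := by omega
        rw [this]; exact (hK (n + 1) (by omega)).2.1
      · have : K n + 2 = K (n + 2) := by omega
        rw [this]; exact (hK (n + 2) (by omega)).2.1
      · have : K n + 3 = K (n + 3) := by omega
        rw [this]; exact (hK (n + 3) (by omega)).2.1
      · have : K n + 4 = K (n + 4) := by omega
        rw [this]; exact (hK (n + 4) (by omega)).2.1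
      · have : K n + 5 = K (n + 5) := by omega
        rw [this]; exact (hK (n + 5) (by omega)).2.1
    exact no_six hr hf (by have := (hK n hn).1; omega) hb
  have hlin : ∀ n, 10 + 6 * n ≤ K (10 + 5 * n) := by
    intro n
    induction n with
    | zero => simpa using (hK 10 le_rfl).1
    | succ n ih =>
      have := hsix (10 + 5 * n) (by omega)
      have e : 10 + 5 * (n + 1) = 10 + 5 * n + 5 := by ring
      rw [e]
      omega
  intro n
  have r1 := r_lo hr
  have h1 := hK (10 + 5 * n) (by omega)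
  have h2 := U_fst_lo hr hf (show 10 ≤ K (10 + 5 * n) by omega)
  have h3 : r ^ (10 + 6 * n) ≤ r ^ (K (10 + 5 * n)) := pow_le_pow_right₀ (by linarith) (hlin n)
  have h4 : ((U (K (10 + 5 * n))).1 : ℝ) = (Mseq f (r, r ^ 2) (11 + 5 * n) : ℝ) := by
    have e : 11 + 5 * n - 1 = 10 + 5 * n := by omega
    unfold Mseq
    rw [e, h1.2.2]
    push_cast
    rfl
  rw [← h4]
  calc r ^ (10 + 6 * n) / 12 ≤ r ^ (K (10 + 5 * n)) / 12 := by
        apply div_le_div_of_nonneg_right h3 (by norm_num)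
    _ ≤ _ := h2

lemma Mseq_mono {a b : ℕ} (ha : 1 ≤ a) (h : a ≤ b) : Mseq f (r, r ^ 2) a ≤ Mseq f (r, r ^ 2) b := by
  classical
  have hmono : StrictMono (Nat.nth (fun m => m ∈ bestSet f (r, r ^ 2))) :=
    Nat.nth_strictMono (bestSet_infinite hr hf)
  exact hmono.monotone (by omega)

lemma Mseq_lower {ν : ℕ} (hν : 11 ≤ ν) :
    (r ^ (6 / 5 : ℝ)) ^ ν * (1 / 120) ≤ (Mseq f (r, r ^ 2) ν : ℝ) := by
  have r1 := r_lo hr
  have r2 := r_hi hr
  have rpos : 0 < r := by linarith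
  have hn : 11 + 5 * ((ν - 11) / 5) ≤ ν := by omega
  have h1 : (Mseq f (r, r ^ 2) (11 + 5 * ((ν - 11) / 5)) : ℝ) ≤ Mseq f (r, r ^ 2) ν := by
    exact_mod_cast Mseq_mono hr hf (by omega) hn
  have h2 := Mseq_growth hr hf ((ν - 11) / 5)
  refine le_trans ?_ (h2.trans h1)
  have h3 : (r ^ (6 / 5 : ℝ)) ^ ν = r ^ ((6 / 5 : ℝ) * ν) := by
    rw [Real.rpow_mul rpos.le, Real.rpow_natCast]
  have h4 : r ^ (10 + 6 * ((ν - 11) / 5)) = r ^ (((10 + 6 * ((ν - 11) / 5) : ℕ)) : ℝ) :=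
    (Real.rpow_natCast _ _).symm
  have h5 : r ^ ((6 / 5 : ℝ) * ν) ≤ r ^ (8 : ℝ) * r ^ (((10 + 6 * ((ν - 11) / 5) : ℕ)) : ℝ) := by
    rw [← Real.rpow_add rpos]
    apply Real.rpow_le_rpow_of_exponent_le (by linarith)
    have h6 : ν ≤ 5 * ((ν - 11) / 5) + 15 := by omega
    have h7 : (ν : ℝ) ≤ 5 * (((ν - 11) / 5 : ℕ) : ℝ) + 15 := by exact_mod_cast h6
    push_cast
    linarith
  have h8 : r ^ (8 : ℝ) ≤ 10 := by
    have : r ^ (8 : ℝ) = r ^ 8 := by
      rw [← Real.rpow_natCast]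
      norm_num
    rw [this]
    have t2 : r ^ 4 ≤ 3.08 := by nlinarith [r2_lo hr, r2_hi hr]
    have : r ^ 8 = r ^ 4 * r ^ 4 := by ring
    nlinarith [show 0 < r ^ 4 by positivity]
  rw [h3, h4]
  have h9 : 0 < r ^ (((10 + 6 * ((ν - 11) / 5) : ℕ)) : ℝ) := Real.rpow_pos_of_pos rpos _
  generalize r ^ (((10 + 6 * ((ν - 11) / 5) : ℕ)) : ℝ) = W at *
  nlinarith

/-- the growth exponent is at least `r ^ (6/5)` -/
theorem G_lower : ENNReal.ofReal (r ^ (6 / 5 : ℝ)) ≤ G f (r, r ^ 2) := by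
  have r1 := r_lo hr
  have rpos : 0 < r := by linarith
  have hD : 0 < r ^ (6 / 5 : ℝ) := Real.rpow_pos_of_pos rpos _
  have ht : Tendsto (fun ν : ℕ => ENNReal.ofReal (r ^ (6 / 5 : ℝ) * (1 / 120 : ℝ) ^ (1 / (ν : ℝ)))) atTop
      (𝓝 (ENNReal.ofReal (r ^ (6 / 5 : ℝ)))) := by
    apply ENNReal.tendsto_ofReal
    have h1 : Tendsto (fun ν : ℕ => (1 / 120 : ℝ) ^ (1 / (ν : ℝ))) atTop (𝓝 ((1 / 120 : ℝ) ^ (0 : ℝ))) :=
      (Real.continuousAt_const_rpow (by norm_num)).tendsto.comp tendsto_one_div_atTop_nhds_zero_nat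
    rw [Real.rpow_zero] at h1
    have h2 := h1.const_mul (r ^ (6 / 5 : ℝ))
    rwa [mul_one] at h2
  rw [← ht.liminf_eq]
  unfold G
  refine liminf_le_liminf ?_
  filter_upwards [eventually_ge_atTop 11] with ν hν
  apply ENNReal.ofReal_le_ofReal
  have hν0 : (0 : ℝ) < ν := by exact_mod_cast (show 0 < ν by omega)
  have h1 := Mseq_lower hr hf hν
  calc r ^ (6 / 5 : ℝ) * (1 / 120 : ℝ) ^ (1 / (ν : ℝ))
      = ((r ^ (6 / 5 : ℝ)) ^ ν * (1 / 120)) ^ (1 / (ν : ℝ)) := by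
        rw [Real.mul_rpow (by positivity) (by norm_num)]
        congr 1
        rw [one_div, Real.pow_rpow_inv_natCast hD.le (by omega)]
    _ ≤ _ := Real.rpow_le_rpow (by positivity) h1 (by positivity)

theorem G_ne : G f (r, r ^ 2) ≠ ENNReal.ofReal r := by
  have r1 := r_lo hr
  have h := G_lower hr hf
  intro hc
  rw [hc] at h
  have h1 : r < r ^ (6 / 5 : ℝ) := by
    calc r = r ^ (1 : ℝ) := (Real.rpow_one r).symm
      _ < r ^ (6 / 5 : ℝ) := Real.rpow_lt_rpow_of_exponent_lt (by linarith) (by norm_num)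
  have h2 : ENNReal.ofReal r < ENNReal.ofReal (r ^ (6 / 5 : ℝ)) :=
    (ENNReal.ofReal_lt_ofReal_iff (by linarith)).mpr h1
  exact absurd h (not_le.mpr h2)

end

end Pool.Agent.X40.BA
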