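import Pool.Agent.X40.BA.G4

/-!
# Two more facts about vectors with small error
-/

set_option autoImplicit false
set_option linter.unusedSectionVars false

namespace Pool.Agent.X40.BA

section
variable {r : ℝ} (hr : r ^ 3 = r + 1) {f : ℝ × ℝ → ℝ} (hf : Adm r f)
include hr hf

lemma exists_best' {k : ℕ} (hk : 0 < (U k).1) (hδ : f (err (r, r ^ 2) (U k)) < 1 / 2) :
    ∃ z, IsBest f (r, r ^ 2) z ∧ 0 < z.1 ∧
      f (err (r, r ^ 2) z) ≤ f (err (r, r ^ 2) (U k)) ∧ z.1 ≤ (U k).1 := by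
  classical
  generalize hD : f (err (r, r ^ 2) (U k)) = δ at *
  have hex : ∃ n : ℕ, 0 < n ∧ ∃ z : ℤ × ℤ × ℤ, z.1 = n ∧ f (err (r, r ^ 2) z) ≤ δ := by
    refine ⟨(U k).1.toNat, by omega, U k, by omega, hD.le⟩
  obtain ⟨hn0, z, hz1, hz2⟩ := Nat.find_spec hex
  have hle : Nat.find hex ≤ (U k).1.toNat := Nat.find_min' hex ⟨by omega, U k, by omega, hD.le⟩
  have hmin : ∀ m : ℕ, m < Nat.find hex → ¬ (0 < m ∧ ∃ z : ℤ × ℤ × ℤ, z.1 = m ∧ f (err (r, r ^ 2) z) ≤ δ) :=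
    fun m hm => Nat.find_min hex hm
  generalize Nat.find hex = n at *
  have key : ∀ z' : ℤ × ℤ × ℤ, 0 < z'.1 → |z'.1| ≤ |z.1| → f (err (r, r ^ 2) z') ≤ f (err (r, r ^ 2) z) →
      z' = z := by
    intro z' h0 h1 h2
    have h3 : z'.1 = z.1 := by
      rw [abs_of_pos h0, hz1, abs_of_nonneg (by omega)] at h1
      by_contra hne
      exact hmin z'.1.toNat (by omega) ⟨by omega, z', by omega, h2.trans hz2⟩
    have e1 := abs_le.mp ((hf.lo1 (err (r, r ^ 2) z)).trans hz2)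
    have e2 := abs_le.mp ((hf.lo2 (err (r, r ^ 2) z)).trans hz2)
    have e3 := abs_le.mp ((hf.lo1 (err (r, r ^ 2) z')).trans (h2.trans hz2))
    have e4 := abs_le.mp ((hf.lo2 (err (r, r ^ 2) z')).trans (h2.trans hz2))
    unfold err at e1 e2 e3 e4
    simp only at e1 e2 e3 e4
    rw [h3] at e3 e4
    have g1 : ((z'.2.1 - z.2.1 : ℤ) : ℝ) < 1 := by push_cast; linarith [e1.1, e1.2, e3.1, e3.2]
    have g2 : (-1 : ℝ) < ((z'.2.1 - z.2.1 : ℤ) : ℝ) := by push_cast; linarith [e1.1, e1.2, e3.1, e3.2]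
    have g3 : ((z'.2.2 - z.2.2 : ℤ) : ℝ) < 1 := by push_cast; linarith [e2.1, e2.2, e4.1, e4.2]
    have g4 : (-1 : ℝ) < ((z'.2.2 - z.2.2 : ℤ) : ℝ) := by push_cast; linarith [e2.1, e2.2, e4.1, e4.2]
    have i1 : z'.2.1 - z.2.1 < 1 := by exact_mod_cast g1
    have i2 : -1 < z'.2.1 - z.2.1 := by exact_mod_cast g2
    have i3 : z'.2.2 - z.2.2 < 1 := by exact_mod_cast g3
    have i4 : -1 < z'.2.2 - z.2.2 := by exact_mod_cast g4
    exact Prod.ext h3 (Prod.ext (by omega) (by omega))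
  refine ⟨z, ⟨?_, ?_⟩, by omega, hz2, by omega⟩
  · intro h
    rw [h] at hz1
    simp at hz1
    omega
  · intro z' h1 h2
    rcases lt_trichotomy z'.1 0 with h | h | h
    · right; right
      have := key (-z') (by rw [Prod.fst_neg]; omega) (by rwa [Prod.fst_neg, abs_neg])
        (by rwa [err_neg, f_neg hr hf])
      rw [← this, neg_neg]
    · left
      have e3 := abs_le.mp ((hf.lo1 (err (r, r ^ 2) z')).trans (h2.trans hz2))
      have e4 := abs_le.mp ((hf.lo2 (err (r, r ^ 2) z')).trans (h2.trans hz2))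
      unfold err at e3 e4
      simp only [h, Int.cast_zero, zero_mul, zero_sub] at e3 e4
      have g1 : (z'.2.1 : ℝ) < 1 := by linarith [e3.1, e3.2]
      have g2 : (-1 : ℝ) < z'.2.1 := by linarith [e3.1, e3.2]
      have g3 : (z'.2.2 : ℝ) < 1 := by linarith [e4.1, e4.2]
      have g4 : (-1 : ℝ) < z'.2.2 := by linarith [e4.1, e4.2]
      have i1 : z'.2.1 < 1 := by exact_mod_cast g1
      have i2 : -1 < z'.2.1 := by exact_mod_cast g2
      have i3 : z'.2.2 < 1 := by exact_mod_cast g3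
      have i4 : -1 < z'.2.2 := by exact_mod_cast g4
      exact Prod.ext h (Prod.ext (by simp only [Prod.snd_zero, Prod.fst_zero]; omega)
        (by simp only [Prod.snd_zero]; omega))
    · right; left
      exact key z' h h1 h2

lemma norm_big {k : ℕ} {z : ℤ × ℤ × ℤ} (hz2 : 0 < z.1) (hz4 : f (err (r, r ^ 2) z) ≤ 1)
    (hz3 : f (err (r, r ^ 2) z) ≤ f (err (r, r ^ 2) (U k))) : r ^ k ≤ 14 * cc r z := by
  obtain ⟨s, κ, hs, hκ, hsk, hq1, hq2⟩ := hf.q
  have r1 := r_lo hr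
  have r2 := r_hi hr
  have hzR : (1 : ℝ) ≤ z.1 := by exact_mod_cast hz2
  have hcl := (cc_lo hr hf hz4 hz2).1
  have hccpos : 0 < cc r z := by linarith
  have hN := Nm_eq hr z
  have hU2 := U_Q hr k
  have hrk : 0 < r ^ k := by positivity
  have fpos : 0 ≤ f (err (r, r ^ 2) z) := (abs_nonneg _).trans (hf.lo1 _)
  have hQz : Q r (err (r, r ^ 2) z) ≤ s * (κ * Q r (err (r, r ^ 2) (U k))) :=
    (hq1 _).trans (mul_le_mul_of_nonneg_left ((pow_le_pow_left₀ fpos hz3 2).trans (hq2 _)) hs.le)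
  have hQpos : 0 < Q r (err (r, r ^ 2) z) := by
    apply Q_pos hr
    intro h0
    have e1 : (z.1 : ℝ) * r - z.2.1 = 0 := congrArg Prod.fst h0
    have hpoly : (z.2.1 : ℝ) ^ 3 = z.2.1 * (z.1 : ℝ) ^ 2 + (z.1 : ℝ) ^ 3 := by
      have e2 : (z.2.1 : ℝ) = z.1 * r := by linarith
      rw [e2]
      linear_combination ((z.1 : ℝ) ^ 3) * hr
    have hpolyZ : z.2.1 ^ 3 = z.2.1 * z.1 ^ 2 + z.1 ^ 3 := by exact_mod_cast hpoly
    exact no_root z.1 z.2.1 hz2.ne' hpolyZ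
  have hN1 : 1 ≤ Nm z := by
    have : (0 : ℝ) < (Nm z : ℝ) := by
      rw [hN]
      exact mul_pos hccpos hQpos
    have : 0 < Nm z := by exact_mod_cast this
    omega
  have hN1R : (1 : ℝ) ≤ (Nm z : ℝ) := by exact_mod_cast hN1
  have h1 : r ^ k * 1 ≤ r ^ k * (cc r z * Q r (err (r, r ^ 2) z)) := by
    rw [← hN]
    exact mul_le_mul_of_nonneg_left hN1R hrk.le
  have h2 : r ^ k * (cc r z * Q r (err (r, r ^ 2) z)) ≤
      r ^ k * (cc r z * (s * (κ * Q r (err (r, r ^ 2) (U k))))) :=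
    mul_le_mul_of_nonneg_left (mul_le_mul_of_nonneg_left hQz hccpos.le) hrk.le
  have h3 : r ^ k * (cc r z * (s * (κ * Q r (err (r, r ^ 2) (U k))))) = s * κ * cc r z := by
    linear_combination (cc r z * s * κ) * hU2
  have h4 : s * κ ≤ 14 := by nlinarith [mul_pos hs hκ]
  have h5 : s * κ * cc r z ≤ 14 * cc r z := mul_le_mul_of_nonneg_right h4 hccpos.le
  linarith

end

end Pool.Agent.X40.BA
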