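import Pool.Agent.X40.BA.E3
import Pool.Agent.X40.BA.G5
import Pool.Agent.X40.BA.G6

/-!
# The exact growth exponent
-/

set_option autoImplicit false
set_option linter.unusedSectionVars false

namespace Pool.Agent.X40.BA

open Filter Topology

section
variable {r : ℝ} (hr : r ^ 3 = r + 1) {f : ℝ × ℝ → ℝ} (hf : Adm r f)
include hr hf

lemma dec' {i k : ℕ} (hi : 5 ≤ i) (hik : i < k) (h : IsBest f (r, r ^ 2) (U k)) :
    f (err (r, r ^ 2) (U k)) < f (err (r, r ^ 2) (U i)) := by
  have r1 := r_lo hr
  by_contra hc
  push Not at hc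
  have hri : 0 < r ^ i := by positivity
  have hrik : r ^ i < r ^ k := pow_lt_pow_right₀ (by linarith) hik
  have h1 : |(U i).1| ≤ |(U k).1| := by
    rw [abs_of_nonneg (U_nonneg i).1, abs_of_nonneg (U_nonneg k).1]
    exact U_mono' hi hik.le
  have c0 := U_cc hr i
  rcases h.2 (U i) h1 hc with h | h | h
  · rw [h] at c0
    simp [cc] at c0
    linarith
  · rw [h, U_cc hr] at c0
    linarith
  · rw [h] at c0
    have h7 : cc r (-(U k)) = - cc r (U k) := by
      unfold cc
      simp only [Prod.fst_neg, Prod.snd_neg]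
      push_cast
      ring
    rw [h7, U_cc hr] at c0
    linarith

lemma U_strict {a b : ℕ} (ha : 10 ≤ a) (h : a < b) : (U a).1 < (U b).1 := by
  obtain ⟨k, rfl⟩ : ∃ k, a = k + 5 + 5 := ⟨a - 10, by omega⟩
  have h1 : (U (k + 5 + 5)).1 < (U (k + 5 + 6)).1 := by
    have e1 : (U (k + 5 + 5)).1 = (U (k + 5)).1 + (U (k + 5)).2.1 + (U (k + 5)).2.2 := by
      simp only [U, A]; ring
    have e2 : (U (k + 5 + 6)).1 = (U (k + 5)).1 + 2 * (U (k + 5)).2.1 + (U (k + 5)).2.2 := by
      simp only [U, A]; ring
    rw [e1, e2]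
    linarith [(U_pos k).2.1]
  exact lt_of_lt_of_le h1 (U_mono' (by omega) (by omega))

/-- for large exponents, being best is decided by the sign pattern -/
theorem best_iff {l : ℝ} (hc : Chr r f l) {k : ℕ} (hk : 30 ≤ k) :
    IsBest f (r, r ^ 2) (U k) ↔ 0 < bb r k * (bb r k + l * bb r (k + 1)) := by
  have r1 := r_lo hr
  have r2 := r_hi hr
  constructor
  · intro h
    obtain ⟨j, rfl⟩ : ∃ j, k = j + 3 := ⟨k - 3, by omega⟩
    exact hc.a j (fun i hi => dec' hr hf (by omega) (by omega) h)
  · intro hP
    have hlt := hc.b k (by omega) hP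
    have hδ := f_U_lt hr hf (show 20 ≤ k by omega)
    have hU0 : 0 < (U k).1 := by
      obtain ⟨j, rfl⟩ : ∃ j, k = j + 5 := ⟨k - 5, by omega⟩
      have := (U_pos j).1
      omega
    -- the minimal vector with error at most that of `U k`
    refine ⟨?_, ?_⟩
    · intro h
      rw [h] at hU0
      simp at hU0
    · obtain ⟨z, hz1, hz2, hz3, hz4⟩ := exists_best' hr hf hU0 hδ
      have hz5 := best_le_one hr hf hz1 hz2.ne'
      have hbig := norm_big hr hf hz2 hz5 hz3
      have hr10 : 14 ≤ r ^ 10 := by
        have t2 : (3.0795 : ℝ) < r ^ 4 := by nlinarith [r2_lo hr]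
        have t3 : (9.48 : ℝ) < r ^ 8 := by
          have : r ^ 8 = r ^ 4 * r ^ 4 := by ring
          nlinarith
        have t4 : r ^ 10 = r ^ 8 * r ^ 2 := by ring
        nlinarith [r2_lo hr]
      have hcz : r ^ 10 ≤ cc r z := by
        have h1 : r ^ 20 ≤ r ^ k := pow_le_pow_right₀ (by linarith) (by omega)
        have h2 : r ^ 20 = r ^ 10 * r ^ 10 := by ring
        nlinarith
      obtain ⟨j, hj, rfl⟩ := best_unit hr hf hz1 hz2 hcz
      have hjk : j = k := by
        rcases lt_trichotomy j k with h | h | h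
        · have := hlt j h
          linarith
        · exact h
        · have := U_strict hr hf (show 10 ≤ k by omega) h
          omega
      rw [← hjk]
      exact hz1.2

/-- number of best powers below `K` -/
lemma count_best {l : ℝ} (hl : 0 < l) (hc : Chr r f l) (ε : ℝ) (hε : 0 < ε) : ∃ C : ℝ, ∀ K : ℕ,
    |∑ k ∈ Finset.range K, indR (IsBest f (r, r ^ 2) (U k)) -
      K * (1 - (1 + l * ss r).arg / Real.pi)| ≤ K * ε + C := by
  obtain ⟨C, hC⟩ := freq_sign hr l hl ε hε
  refine ⟨C + 30, fun K => ?_⟩
  have h1 : |∑ k ∈ Finset.range K, indR (IsBest f (r, r ^ 2) (U k)) -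
      ∑ k ∈ Finset.range K, indR (0 < bb r k * (bb r k + l * bb r (k + 1)))| ≤ 30 := by
    rw [← Finset.sum_sub_distrib]
    calc |∑ k ∈ Finset.range K, (indR (IsBest f (r, r ^ 2) (U k)) -
          indR (0 < bb r k * (bb r k + l * bb r (k + 1))))|
        ≤ ∑ k ∈ Finset.range K, |indR (IsBest f (r, r ^ 2) (U k)) -
          indR (0 < bb r k * (bb r k + l * bb r (k + 1)))| := Finset.abs_sum_le_sum_abs _ _
      _ ≤ ∑ k ∈ Finset.range K, (if k < 30 then (1 : ℝ) else 0) := by
        apply Finset.sum_le_sum
        intro k _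
        split_ifs with h
        · have a1 := indR_nonneg (IsBest f (r, r ^ 2) (U k))
          have a2 := indR_le_one (IsBest f (r, r ^ 2) (U k))
          have a3 := indR_nonneg (0 < bb r k * (bb r k + l * bb r (k + 1)))
          have a4 := indR_le_one (0 < bb r k * (bb r k + l * bb r (k + 1)))
          rw [abs_le]
          constructor <;> linarith
        · have : IsBest f (r, r ^ 2) (U k) ↔ 0 < bb r k * (bb r k + l * bb r (k + 1)) :=
            best_iff hr hf hc (by omega)
          rw [this, sub_self, abs_zero]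
      _ ≤ 30 := by
        rw [← Finset.sum_filter, Finset.sum_const, nsmul_eq_mul, mul_one]
        have h2 : (Finset.filter (fun k => k < 30) (Finset.range K)).card ≤ 30 := by
          calc _ ≤ (Finset.range 30).card := by
                apply Finset.card_le_card
                intro x hx
                rw [Finset.mem_filter] at hx
                exact Finset.mem_range.mpr hx.2
            _ = 30 := Finset.card_range 30
        exact_mod_cast h2
  have h3 := hC K
  rw [abs_le] at h1 h3 ⊢
  constructor <;> linarith [h1.1, h1.2, h3.1, h3.2]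

/-- the increasing enumeration of the large best approximations by exponents -/
lemma exists_enum : ∃ E : ℕ → ℕ, ∃ C : ℝ,
    (∀ n : ℕ, 10 ≤ n → 10 ≤ E n ∧ (U (E n)).1 = (Mseq f (r, r ^ 2) (n + 1) : ℕ)) ∧
    (∀ n : ℕ, 10 ≤ n → |(n : ℝ) - ∑ k ∈ Finset.range (E n), indR (IsBest f (r, r ^ 2) (U k))| ≤ C) := by
  classical
  have hinf := bestSet_infinite hr hf
  have hmono : StrictMono (Nat.nth (fun m => m ∈ bestSet f (r, r ^ 2))) := Nat.nth_strictMono hinf
  have hmem : ∀ n, Nat.nth (fun m => m ∈ bestSet f (r, r ^ 2)) n ∈ bestSet f (r, r ^ 2) :=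
    fun n => Nat.nth_mem_of_infinite hinf n
  have hK : ∀ n : ℕ, ∃ k, 10 ≤ n → (10 ≤ k ∧ IsBest f (r, r ^ 2) (U k) ∧
      (U k).1 = (Nat.nth (fun m => m ∈ bestSet f (r, r ^ 2)) n : ℕ)) := by
    intro n
    by_cases hn : 10 ≤ n
    · obtain ⟨k, hk⟩ := large_mem hr hf (hmem n) (hn.trans (hmono.le_apply))
      exact ⟨k, fun _ => hk⟩
    · exact ⟨0, fun h => absurd h hn⟩
  choose E hE using hK
  have hEmono : ∀ a b, 10 ≤ a → a < b → E a < E b := by
    intro a b ha hab
    obtain ⟨h1, h2, h3⟩ := hE a ha
    obtain ⟨h4, h5, h6⟩ := hE b (by omega)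
    by_contra hc
    push Not at hc
    have h7 := U_mono' (show 5 ≤ E b by omega) hc
    rw [h3, h6] at h7
    have h8 := hmono hab
    omega
  refine ⟨E, E 10 + 10, ?_, ?_⟩
  · intro n hn
    exact ⟨(hE n hn).1, (hE n hn).2.2⟩
  · intro n hn
    have hE10 : E 10 ≤ E n := by
      rcases hn.eq_or_lt with h | h
      · rw [h]
      · exact (hEmono 10 n le_rfl h).le
    -- split the sum
    have e1 : ∑ k ∈ Finset.range (E n), indR (IsBest f (r, r ^ 2) (U k)) =
        ∑ k ∈ Finset.range (E 10), indR (IsBest f (r, r ^ 2) (U k)) +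
        ∑ k ∈ Finset.Ico (E 10) (E n), indR (IsBest f (r, r ^ 2) (U k)) := by
      rw [Finset.sum_range_add_sum_Ico _ hE10]
    have e2 : ∑ k ∈ Finset.Ico (E 10) (E n), indR (IsBest f (r, r ^ 2) (U k)) = (n : ℝ) - 10 := by
      have e3 : ∑ k ∈ Finset.Ico (E 10) (E n), indR (IsBest f (r, r ^ 2) (U k)) =
          ((Finset.Ico (E 10) (E n)).filter (fun k => IsBest f (r, r ^ 2) (U k))).card := by
        rw [Finset.card_filter]
        push_cast
        apply Finset.sum_congr rfl
        intro k _
        unfold indR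
        congr
      rw [e3]
      have e4 : (Finset.Ico (E 10) (E n)).filter (fun k => IsBest f (r, r ^ 2) (U k)) =
          (Finset.Ico 10 n).image E := by
        ext k
        rw [Finset.mem_filter, Finset.mem_Ico, Finset.mem_image]
        constructor
        · rintro ⟨⟨h1, h2⟩, h3⟩
          have h10 := (hE 10 le_rfl).1
          have hm : (U k).1.natAbs ∈ bestSet f (r, r ^ 2) := ⟨U k, h3, rfl⟩
          have hr' : (U k).1.natAbs ∈ Set.range (Nat.nth (fun m => m ∈ bestSet f (r, r ^ 2))) := by
            have hrange := Nat.range_nth_of_infinite (p := fun m => m ∈ bestSet f (r, r ^ 2)) hinf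
            rw [hrange]
            exact hm
          obtain ⟨i, hi⟩ := hr'
          have hUk := (U_nonneg k).1
          have hi' : ((Nat.nth (fun m => m ∈ bestSet f (r, r ^ 2)) i : ℕ) : ℤ) = (U k).1 := by
            omega
          have hi10 : 10 ≤ i := by
            by_contra hc
            push Not at hc
            have g1 := hmono hc
            have g2 := U_mono' (show 5 ≤ E 10 by omega) h1
            rw [(hE 10 le_rfl).2.2] at g2
            omega
          have hiE := (hE i hi10).2.2
          have hki : E i = k := by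
            rcases lt_trichotomy (E i) k with h | h | h
            · have := U_strict hr hf (hE i hi10).1 h
              omega
            · exact h
            · have := U_strict hr hf (show 10 ≤ k by omega) h
              omega
          refine ⟨i, Finset.mem_Ico.mpr ⟨hi10, ?_⟩, hki⟩
          by_contra hc
          push Not at hc
          rcases hc.eq_or_lt with h | h
          · rw [h] at h2; omega
          · have := hEmono n i hn h
            omega
        · rintro ⟨i, hi, rfl⟩
          rw [Finset.mem_Ico] at hi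
          refine ⟨⟨?_, hEmono i n hi.1 hi.2⟩, (hE i hi.1).2.1⟩
          rcases hi.1.eq_or_lt with h | h
          · rw [h]
          · exact (hEmono 10 i le_rfl h).le
      rw [e4, Finset.card_image_of_injOn, Nat.card_Ico]
      · rw [Nat.cast_sub hn]
        norm_num
      · intro a ha b hb hab
        simp only [Finset.coe_Ico, Set.mem_Ico] at ha hb
        rcases lt_trichotomy a b with h | h | h
        · have := hEmono a b ha.1 h
          omega
        · exact h
        · have := hEmono b a hb.1 h
          omega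
    rw [e1, e2]
    have e5 : 0 ≤ ∑ k ∈ Finset.range (E 10), indR (IsBest f (r, r ^ 2) (U k)) :=
      Finset.sum_nonneg (fun k _ => indR_nonneg _)
    have e6 : ∑ k ∈ Finset.range (E 10), indR (IsBest f (r, r ^ 2) (U k)) ≤ E 10 := by
      calc _ ≤ ∑ k ∈ Finset.range (E 10), (1 : ℝ) := Finset.sum_le_sum (fun k _ => indR_le_one _)
        _ = E 10 := by simp
    rw [abs_le]
    constructor <;> linarith

end

end Pool.Agent.X40.BA
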