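import Pool.Agent.X40.BA.E4

/-!
# The limit
-/

set_option autoImplicit false
set_option linter.unusedSectionVars false

namespace Pool.Agent.X40.BA

open Filter Topology

section
variable {r : ℝ} (hr : r ^ 3 = r + 1)
include hr

lemma arg_bounds (l : ℝ) (hl : 0 < l) :
    0 < (1 + (l : ℂ) * ss r).arg ∧ (1 + (l : ℂ) * ss r).arg < Real.pi := by
  have him := ss_pos hr
  have hσim : (1 + (l : ℂ) * ss r).im = l * (ss r).im := by
    rw [Complex.add_im, Complex.one_im, Complex.im_ofReal_mul, zero_add]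
  have hσpos : 0 < (1 + (l : ℂ) * ss r).im := by rw [hσim]; positivity
  constructor
  · rcases (Complex.arg_nonneg_iff.mpr hσpos.le).lt_or_eq with h | h
    · exact h
    · exfalso
      have := (Complex.arg_eq_zero_iff.mp h.symm).2
      linarith
  · exact Complex.arg_lt_pi_iff.mpr (Or.inr hσpos.ne')

end

section
variable {r : ℝ} (hr : r ^ 3 = r + 1) {f : ℝ × ℝ → ℝ} (hf : Adm r f)
include hr hf

lemma U_fst_hi {j : ℕ} (hj : 10 ≤ j) : ((U j).1 : ℝ) ≤ r ^ j := by
  have r1 := r_lo hr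
  have r2 := r_hi hr
  have r3 := r2_lo hr
  have r4 := r2_hi hr
  have q1 := Q_lo hr (err (r, r ^ 2) (U j))
  have q2 := U_Q hr j
  have hrj : 0 < r ^ j := by positivity
  have q3 : (9.4 : ℝ) ≤ r ^ j := by
    have t1 : r ^ 8 ≤ r ^ j := pow_le_pow_right₀ (by linarith) (by omega)
    have t2 : (3.0795 : ℝ) < r ^ 4 := by nlinarith
    have t3 : r ^ 8 = r ^ 4 * r ^ 4 := by ring
    nlinarith
  have q4 : Q r (err (r, r ^ 2) (U j)) ≤ 0.11 := by
    by_contra hq
    push Not at hq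
    nlinarith
  have u1 : |(err (r, r ^ 2) (U j)).1| ≤ 0.71 := by
    apply abs_le_of_sq_le_sq _ (by norm_num)
    nlinarith [q1.1]
  have u2 : |(err (r, r ^ 2) (U j)).2| ≤ 0.71 := by
    apply abs_le_of_sq_le_sq _ (by norm_num)
    nlinarith [q1.2]
  rw [abs_le] at u1 u2
  have x2 := x_eq hr (U j)
  rw [U_cc hr] at x2
  have y1 : r ^ 2 * (err (r, r ^ 2) (U j)).1 ≤ 1.76 * 0.71 := by
    nlinarith [mul_le_mul_of_nonneg_left u1.2 (show 0 ≤ r ^ 2 by positivity)]
  have y2 : r * (err (r, r ^ 2) (U j)).2 ≤ 1.33 * 0.71 := by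
    nlinarith [mul_le_mul_of_nonneg_left u2.2 (show 0 ≤ r by linarith)]
  have y3 : (0 : ℝ) ≤ (U j).1 := by exact_mod_cast (U_nonneg j).1
  nlinarith

/-- the exact value of the growth exponent -/
theorem G_exact {l : ℝ} (hl : 0 < l) (hc : Chr r f l) :
    G f (r, r ^ 2) = ENNReal.ofReal (r ^ (Real.pi / (Real.pi - (1 + (l : ℂ) * ss r).arg))) := by
  have r1 := r_lo hr
  have rp : 0 < r := by linarith
  have hpi := Real.pi_pos
  obtain ⟨hτ0, hτ1⟩ := arg_bounds hr l hl
  obtain ⟨E, C1, hE1, hE2⟩ := exists_enum hr hf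
  generalize hμ : 1 - (1 + (l : ℂ) * ss r).arg / Real.pi = μ
  have hμ0 : 0 < μ := by
    rw [← hμ, sub_pos, div_lt_one hpi]
    exact hτ1
  have hexp : Real.pi / (Real.pi - (1 + (l : ℂ) * ss r).arg) = 1 / μ := by
    rw [← hμ]
    have : Real.pi - (1 + (l : ℂ) * ss r).arg ≠ 0 := by linarith
    field_simp
  rw [hexp]
  have hcount : ∀ ε : ℝ, 0 < ε → ∃ C : ℝ, ∀ K : ℕ,
      |∑ k ∈ Finset.range K, indR (IsBest f (r, r ^ 2) (U k)) - K * μ| ≤ K * ε + C := by
    intro ε hε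
    have := count_best hr hf hl hc ε hε
    rwa [hμ] at this
  -- the exponents grow linearly
  have hlim : Tendsto (fun ν : ℕ => (E (ν - 1) : ℝ) / (ν : ℝ)) atTop (𝓝 (1 / μ)) := by
    rw [Metric.tendsto_atTop]
    intro η hη
    have hε : 0 < min (μ / 2) (η * μ ^ 2 / 8) := lt_min (by linarith) (by positivity)
    obtain ⟨C2, hC2⟩ := hcount _ hε
    have hε1 : min (μ / 2) (η * μ ^ 2 / 8) ≤ μ / 2 := min_le_left _ _
    have hε2 : min (μ / 2) (η * μ ^ 2 / 8) ≤ η * μ ^ 2 / 8 := min_le_right _ _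
    generalize min (μ / 2) (η * μ ^ 2 / 8) = ε at *
    have hC0 : 0 ≤ |C1| + |C2| + 1 := by positivity
    obtain ⟨N0, hN0⟩ := exists_nat_gt (4 * (|C1| + |C2| + 1) / (η * μ))
    refine ⟨max 11 N0, fun ν hν => ?_⟩
    have hν11 : 11 ≤ ν := (le_max_left _ _).trans hν
    have hνN : (N0 : ℝ) ≤ ν := by exact_mod_cast (le_max_right _ _).trans hν
    have hν0 : (0 : ℝ) < ν := by exact_mod_cast (show 0 < ν by omega)
    have g1 := hE2 (ν - 1) (by omega)
    have g2 := hC2 (E (ν - 1))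
    have g3 : ((ν - 1 : ℕ) : ℝ) = (ν : ℝ) - 1 := by
      rw [Nat.cast_sub (by omega)]
      norm_num
    rw [g3] at g1
    generalize ∑ k ∈ Finset.range (E (ν - 1)), indR (IsBest f (r, r ^ 2) (U k)) = S at *
    generalize hEν : (E (ν - 1) : ℝ) = a at *
    have ha0 : 0 ≤ a := by rw [← hEν]; positivity
    have c1 := le_abs_self C1
    have c2 := le_abs_self C2
    rw [abs_le] at g1 g2
    -- `|ν - a μ| ≤ a ε + C`
    have h1 : |(ν : ℝ) - a * μ| ≤ a * ε + (|C1| + |C2| + 1) := by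
      rw [abs_le]
      constructor <;> linarith [g1.1, g1.2, g2.1, g2.2]
    have h2 : a * (μ / 2) ≤ ν + (|C1| + |C2| + 1) := by
      have := (abs_le.mp h1).1
      have := mul_le_mul_of_nonneg_left hε1 ha0
      linarith
    have hN1 : 4 * (|C1| + |C2| + 1) < η * μ * ν := by
      have := lt_of_lt_of_le hN0 hνN
      rw [div_lt_iff₀ (by positivity)] at this
      linarith
    have h3 : a * ε ≤ η * μ * ν / 4 + η * μ * (|C1| + |C2| + 1) / 4 := by
      have e1 := mul_le_mul_of_nonneg_left hε2 ha0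
      have e2 : a * (η * μ ^ 2 / 8) = (a * (μ / 2)) * (η * μ / 4) := by ring
      have e3 := mul_le_mul_of_nonneg_right h2 (show 0 ≤ η * μ / 4 by positivity)
      linarith
    rw [Real.dist_eq]
    have h4 : a / ν - 1 / μ = -(((ν : ℝ) - a * μ) / (ν * μ)) := by
      field_simp
      ring
    rw [h4, abs_neg, abs_div, abs_of_pos (show 0 < (ν : ℝ) * μ by positivity), div_lt_iff₀ (by positivity)]
    -- bound the extra term using `a ε ≤ a μ / 2`
    by_cases hbig : η * μ ≤ 4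
    · have h5 : η * μ * (|C1| + |C2| + 1) / 4 ≤ (|C1| + |C2| + 1) := by
        have := mul_le_mul_of_nonneg_right hbig hC0
        linarith
      nlinarith [mul_pos hη (mul_pos hμ0 hν0)]
    · push Not at hbig
      have h6 := mul_le_mul_of_nonneg_left hε1 ha0
      have h7 : a * ε ≤ ν + (|C1| + |C2| + 1) := by linarith
      have h8 : 4 * (ν : ℝ) < η * μ * ν := by nlinarith
      nlinarith
  -- squeeze
  have hpow : Tendsto (fun ν : ℕ => r ^ ((E (ν - 1) : ℝ) / (ν : ℝ))) atTop (𝓝 (r ^ (1 / μ))) :=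
    (Real.continuousAt_const_rpow rp.ne').tendsto.comp hlim
  have h12 : Tendsto (fun ν : ℕ => (1 / 12 : ℝ) ^ (1 / (ν : ℝ))) atTop (𝓝 1) := by
    have h1 : Tendsto (fun ν : ℕ => (1 / 12 : ℝ) ^ (1 / (ν : ℝ))) atTop (𝓝 ((1 / 12 : ℝ) ^ (0 : ℝ))) :=
      (Real.continuousAt_const_rpow (by norm_num)).tendsto.comp tendsto_one_div_atTop_nhds_zero_nat
    rwa [Real.rpow_zero] at h1
  have hlow := hpow.mul h12
  rw [mul_one] at hlow
  have hM : Tendsto (fun ν : ℕ => (Mseq f (r, r ^ 2) ν : ℝ) ^ (1 / (ν : ℝ))) atTop (𝓝 (r ^ (1 / μ))) := by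
    refine tendsto_of_tendsto_of_tendsto_of_le_of_le' hlow hpow ?_ ?_
    · filter_upwards [eventually_ge_atTop 11] with ν hν
      have hν0 : (0 : ℝ) < ν := by exact_mod_cast (show 0 < ν by omega)
      obtain ⟨e1, e2⟩ := hE1 (ν - 1) (by omega)
      rw [show ν - 1 + 1 = ν by omega] at e2
      have e3 : ((U (E (ν - 1))).1 : ℝ) = (Mseq f (r, r ^ 2) ν : ℝ) := by rw [e2]; push_cast; rfl
      have e4 := U_fst_lo hr hf e1
      rw [e3] at e4
      have e5 : r ^ ((E (ν - 1) : ℝ) / (ν : ℝ)) * (1 / 12 : ℝ) ^ (1 / (ν : ℝ)) =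
          (r ^ (E (ν - 1)) / 12) ^ (1 / (ν : ℝ)) := by
        rw [div_eq_mul_one_div (r ^ (E (ν - 1))), Real.mul_rpow (by positivity) (by norm_num),
          ← Real.rpow_natCast, ← Real.rpow_mul rp.le]
        congr 2
        ring
      rw [e5]
      exact Real.rpow_le_rpow (by positivity) e4 (by positivity)
    · filter_upwards [eventually_ge_atTop 11] with ν hν
      have hν0 : (0 : ℝ) < ν := by exact_mod_cast (show 0 < ν by omega)
      obtain ⟨e1, e2⟩ := hE1 (ν - 1) (by omega)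
      rw [show ν - 1 + 1 = ν by omega] at e2
      have e3 : ((U (E (ν - 1))).1 : ℝ) = (Mseq f (r, r ^ 2) ν : ℝ) := by rw [e2]; push_cast; rfl
      have e4 := U_fst_hi hr hf e1
      rw [e3] at e4
      have e5 : r ^ ((E (ν - 1) : ℝ) / (ν : ℝ)) = (r ^ (E (ν - 1))) ^ (1 / (ν : ℝ)) := by
        rw [← Real.rpow_natCast, ← Real.rpow_mul rp.le]
        congr 1
        ring
      rw [e5]
      exact Real.rpow_le_rpow (by positivity) e4 (by positivity)
  unfold G
  exact (ENNReal.tendsto_ofReal hM).liminf_eq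

end

section
variable {r : ℝ} (hr : r ^ 3 = r + 1)
include hr

/-- the angle as an arctangent -/
lemma angle_eq (l : ℝ) (hl : 2 < l * r) :
    Real.pi - (1 + (l : ℂ) * ss r).arg = Real.arctan (l * Real.sqrt (3 * r ^ 2 - 4) / (l * r - 2)) := by
  have hr0 := r_lo hr
  have hl0 : 0 < l := by
    by_contra h
    push Not at h
    nlinarith
  obtain ⟨hτ0, hτ1⟩ := arg_bounds hr l hl0
  have hre : (1 + (l : ℂ) * ss r).re = 1 - l * r / 2 := by
    rw [Complex.add_re, Complex.one_re, Complex.re_ofReal_mul]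
    unfold ss
    simp only
    ring
  have him : (1 + (l : ℂ) * ss r).im = l * (Real.sqrt (3 * r ^ 2 - 4) / 2) := by
    rw [Complex.add_im, Complex.one_im, Complex.im_ofReal_mul]
    unfold ss
    simp only
    rw [show 4 * (r ^ 2 - 1) - r ^ 2 = 3 * r ^ 2 - 4 by ring]
    ring
  have hneg : (1 + (l : ℂ) * ss r).re < 0 := by rw [hre]; linarith
  have h1 : Real.pi / 2 < (1 + (l : ℂ) * ss r).arg := by
    by_contra hc
    push Not at hc
    have : 0 ≤ (1 + (l : ℂ) * ss r).re :=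
      Complex.abs_arg_le_pi_div_two_iff.mp (by rw [abs_of_pos hτ0]; exact hc)
    linarith
  have h2 : Real.tan (Real.pi - (1 + (l : ℂ) * ss r).arg) = l * Real.sqrt (3 * r ^ 2 - 4) / (l * r - 2) := by
    rw [Real.tan_pi_sub, Complex.tan_arg, hre, him]
    have h3 : l * r - 2 ≠ 0 := by linarith
    have h4 : 1 - l * r / 2 = -((l * r - 2) / 2) := by ring
    rw [h4]
    generalize l * r - 2 = D at h3 ⊢
    field_simp
  rw [← h2, Real.arctan_tan (by linarith) (by linarith)]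

/-- the exact value for the sup norm -/
theorem G_sup : G supN (r, r ^ 2) =
    ENNReal.ofReal (r ^ (Real.pi / Real.arctan (r ^ 3 * Real.sqrt (3 * r ^ 2 - 4) / (r ^ 4 - 2)))) := by
  have r1 := r_lo hr
  have r2 := r_hi hr
  have r3 := r2_lo hr
  rw [G_exact hr (adm_sup hr) (show 0 < 1 + r by linarith) (chr_sup hr)]
  have h := angle_eq hr (1 + r) (by nlinarith)
  push_cast at h ⊢
  rw [h]
  have e1 : r ^ 3 = 1 + r := by linarith
  have e2 : r ^ 4 = (1 + r) * r := by
    calc r ^ 4 = r ^ 3 * r := by ring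
      _ = (1 + r) * r := by rw [e1]
  rw [e1, e2]

end

end Pool.Agent.X40.BA
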