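import Pool.Agent.X40.BA.E5

/-!
# The Euclidean norm
-/

set_option autoImplicit false
set_option linter.unusedSectionVars false

namespace Pool.Agent.X40.BA

/-- the slope constant for the Euclidean norm -/
noncomputable def lam (r : ℝ) : ℝ :=
  (3 * r ^ 2 + 2 * r + 1 + Real.sqrt (2 * r ^ 2 + 5 * r + 4)) / (3 * r + 1)

section
variable {r : ℝ} (hr : r ^ 3 = r + 1)
include hr

lemma lam_eq : (3 * r + 1) * lam r ^ 2 - (6 * r ^ 2 + 4 * r + 2) * lam r + (2 * r ^ 2 + 5 * r + 3) = 0 := by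
  have r1 := r_lo hr
  have hs : Real.sqrt (2 * r ^ 2 + 5 * r + 4) ^ 2 = 2 * r ^ 2 + 5 * r + 4 := Real.sq_sqrt (by positivity)
  have h1 : (3 * r + 1) * lam r = 3 * r ^ 2 + 2 * r + 1 + Real.sqrt (2 * r ^ 2 + 5 * r + 4) := by
    unfold lam
    have : 3 * r + 1 ≠ 0 := by positivity
    field_simp
  have h2 : (3 * r + 1) * ((3 * r + 1) * lam r ^ 2 - (6 * r ^ 2 + 4 * r + 2) * lam r + (2 * r ^ 2 + 5 * r + 3)) = 0 := by
    have e : (3 * r + 1) * ((3 * r + 1) * lam r ^ 2 - (6 * r ^ 2 + 4 * r + 2) * lam r + (2 * r ^ 2 + 5 * r + 3)) =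
        ((3 * r + 1) * lam r) ^ 2 - (6 * r ^ 2 + 4 * r + 2) * ((3 * r + 1) * lam r) +
          (3 * r + 1) * (2 * r ^ 2 + 5 * r + 3) := by ring
    rw [e, h1]
    generalize Real.sqrt (2 * r ^ 2 + 5 * r + 4) = S at hs ⊢
    linear_combination hs - (9 * r + 6) * hr
  rcases mul_eq_zero.mp h2 with h | h
  · exfalso
    linarith
  · exact h

lemma lam_bounds : 2.54 < lam r ∧ lam r < 2.56 := by
  have r1 := r_lo hr
  have r2 := r_hi hr
  have r3 := r2_lo hr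
  have r4 := r2_hi hr
  have h0 : (0 : ℝ) < 3 * r + 1 := by linarith
  have hs1 : (3.75 : ℝ) < Real.sqrt (2 * r ^ 2 + 5 * r + 4) := by
    apply Real.lt_sqrt_of_sq_lt
    nlinarith
  have hs2 : Real.sqrt (2 * r ^ 2 + 5 * r + 4) < 3.77 := by
    rw [Real.sqrt_lt' (by norm_num)]
    nlinarith
  unfold lam
  constructor
  · rw [lt_div_iff₀ h0]
    nlinarith
  · rw [div_lt_iff₀ h0]
    nlinarith

lemma euc_err (k : ℕ) : eucN (err (r, r ^ 2) (U k)) =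
    Real.sqrt (r ^ 2 * bb r (k + 1) ^ 2 + bb r k ^ 2) := by
  rw [err_bb hr]
  unfold eucN
  congr 1
  ring

lemma ea' {p q m1 m2 m3 : ℝ} (hp : 0 ≤ p) (h1 : m1 = -(r ^ 2 * p + r * q))
    (h2 : m2 = r ^ 2 * p + (1 + r) * q) (h3 : m3 = (1 - r ^ 2) * p - (1 + r) * q)
    (hneg : p * (p + lam r * q) ≤ 0) :
    r ^ 2 * p ^ 2 + m1 ^ 2 ≤ r ^ 2 * q ^ 2 + p ^ 2 ∨ r ^ 2 * m2 ^ 2 + m3 ^ 2 ≤ r ^ 2 * q ^ 2 + p ^ 2 := by
  have r1 := r_lo hr
  have r2 := r_hi hr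
  have r3 := r2_lo hr
  have r4 := r2_hi hr
  obtain ⟨l1, l2⟩ := lam_bounds hr
  have le := lam_eq hr
  generalize lam r = L at *
  rcases hp.eq_or_lt with h0 | h0
  · left
    rw [← h0] at h1 ⊢
    rw [h1]
    nlinarith [sq_nonneg (r * q)]
  · have hq : p + L * q ≤ 0 := by
      by_contra hc
      push Not at hc
      have := mul_pos h0 hc
      linarith
    have D3 : r ^ 2 * m2 ^ 2 + m3 ^ 2 - (r ^ 2 * q ^ 2 + p ^ 2) =
        (3 * r + 1) * p ^ 2 + (6 * r ^ 2 + 4 * r + 2) * (p * q) + (2 * r ^ 2 + 5 * r + 3) * q ^ 2 := by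
      rw [h2, h3]
      linear_combination (p ^ 2 * (r ^ 3 + 2 * r + 1) + p * q * (2 * r ^ 2 + 2 * r + 4) + q ^ 2 * (r + 2)) * hr
    have D1 : r ^ 2 * p ^ 2 + m1 ^ 2 - (r ^ 2 * q ^ 2 + p ^ 2) =
        p * ((2 * r ^ 2 + r - 1) * p + 2 * (1 + r) * q) := by
      rw [h1]
      linear_combination (p ^ 2 * r + 2 * p * q) * hr
    -- factor the third form
    have F : L * ((3 * r + 1) * p ^ 2 + (6 * r ^ 2 + 4 * r + 2) * (p * q) + (2 * r ^ 2 + 5 * r + 3) * q ^ 2) =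
        (p + L * q) * ((3 * r + 1) * L * p + (2 * r ^ 2 + 5 * r + 3) * q) := by
      linear_combination (-(p * q)) * le
    by_cases hc : 0 ≤ (3 * r + 1) * L * p + (2 * r ^ 2 + 5 * r + 3) * q
    · right
      have : (p + L * q) * ((3 * r + 1) * L * p + (2 * r ^ 2 + 5 * r + 3) * q) ≤ 0 :=
        mul_nonpos_of_nonpos_of_nonneg hq hc
      rw [← F] at this
      have h5 : (3 * r + 1) * p ^ 2 + (6 * r ^ 2 + 4 * r + 2) * (p * q) + (2 * r ^ 2 + 5 * r + 3) * q ^ 2 ≤ 0 := by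
        by_contra hcc
        push Not at hcc
        have := mul_pos (show 0 < L by linarith) hcc
        linarith
      linarith
    · left
      push Not at hc
      have h6 : (2 * r ^ 2 + r - 1) * p + 2 * (1 + r) * q ≤ 0 := by
        have g1 : q ≤ -0.9 * p := by
          have e1 : (3 * r + 1) * L * p ≥ 12.6 * p := by
            have : 12.6 ≤ (3 * r + 1) * L := by nlinarith
            exact mul_le_mul_of_nonneg_right this h0.le
          by_contra hcc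
          push Not at hcc
          nlinarith
        nlinarith
      have := mul_nonpos_of_nonneg_of_nonpos h0.le h6
      linarith

lemma ea {p q m1 m2 m3 : ℝ} (h1 : m1 = -(r ^ 2 * p + r * q))
    (h2 : m2 = r ^ 2 * p + (1 + r) * q) (h3 : m3 = (1 - r ^ 2) * p - (1 + r) * q)
    (hneg : p * (p + lam r * q) ≤ 0) :
    r ^ 2 * p ^ 2 + m1 ^ 2 ≤ r ^ 2 * q ^ 2 + p ^ 2 ∨ r ^ 2 * m2 ^ 2 + m3 ^ 2 ≤ r ^ 2 * q ^ 2 + p ^ 2 := by
  rcases le_total 0 p with hp | hp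
  · exact ea' hr hp h1 h2 h3 hneg
  · have := ea' hr (p := -p) (q := -q) (m1 := -m1) (m2 := -m2) (m3 := -m3) (by linarith)
      (by rw [h1]; ring) (by rw [h2]; ring) (by rw [h3]; ring) (by linarith)
    simpa only [neg_sq] using this

lemma eb' {p q c7 c6 c5 c4 c3 c2 c1 : ℝ} (hp : 0 < p) (hpos : 0 < p + lam r * q)
    (h7 : c7 = -(r ^ 2 * p + r * q)) (h6 : c6 = q - c7) (h5 : c5 = p - c6) (h4 : c4 = c7 - c5)
    (h3 : c3 = c6 - c4) (h2 : c2 = c5 - c3) (h1 : c1 = c4 - c2) :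
    r ^ 2 * q ^ 2 + p ^ 2 < r ^ 2 * p ^ 2 + c7 ^ 2 ∧ r ^ 2 * q ^ 2 + p ^ 2 < r ^ 2 * c7 ^ 2 + c6 ^ 2 ∧
    r ^ 2 * q ^ 2 + p ^ 2 < r ^ 2 * c6 ^ 2 + c5 ^ 2 ∧ r ^ 2 * q ^ 2 + p ^ 2 < r ^ 2 * c5 ^ 2 + c4 ^ 2 ∧
    r ^ 2 * q ^ 2 + p ^ 2 < r ^ 2 * c4 ^ 2 + c3 ^ 2 ∧ r ^ 2 * q ^ 2 + p ^ 2 < r ^ 2 * c3 ^ 2 + c2 ^ 2 ∧
    r ^ 2 * q ^ 2 + p ^ 2 < r ^ 2 * c2 ^ 2 + c1 ^ 2 := by
  have r1 := r_lo hr
  have r2 := r_hi hr
  have r3 := r2_lo hr
  have r4 := r2_hi hr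
  have rp : 0 < r := by linarith
  obtain ⟨l1, l2⟩ := lam_bounds hr
  have le := lam_eq hr
  generalize lam r = L at *
  have g6 : c6 = r ^ 2 * p + (1 + r) * q := by rw [h6, h7]; ring
  have g5 : c5 = (1 - r ^ 2) * p - (1 + r) * q := by rw [h5, g6]; ring
  have g4 : c4 = -p + q := by rw [h4, h7, g5]; ring
  have g3 : c3 = (1 + r ^ 2) * p + r * q := by rw [h3, g6, g4]; ring
  have g2 : c2 = -(2 * r ^ 2 * p + (1 + 2 * r) * q) := by rw [h2, g5, g3]; ring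
  have hqlo : -(0.394 * p) < q := by
    by_contra hc
    push Not at hc
    nlinarith
  have D1 : r ^ 2 * p ^ 2 + c7 ^ 2 - (r ^ 2 * q ^ 2 + p ^ 2) =
      p * ((2 * r ^ 2 + r - 1) * p + 2 * (1 + r) * q) := by
    rw [h7]
    linear_combination (p ^ 2 * r + 2 * p * q) * hr
  have D3 : r ^ 2 * c6 ^ 2 + c5 ^ 2 - (r ^ 2 * q ^ 2 + p ^ 2) =
      (3 * r + 1) * p ^ 2 + (6 * r ^ 2 + 4 * r + 2) * (p * q) + (2 * r ^ 2 + 5 * r + 3) * q ^ 2 := by
    rw [g6, g5]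
    linear_combination (p ^ 2 * (r ^ 3 + 2 * r + 1) + p * q * (2 * r ^ 2 + 2 * r + 4) + q ^ 2 * (r + 2)) * hr
  have F : L * ((3 * r + 1) * p ^ 2 + (6 * r ^ 2 + 4 * r + 2) * (p * q) + (2 * r ^ 2 + 5 * r + 3) * q ^ 2) =
      (p + L * q) * ((3 * r + 1) * L * p + (2 * r ^ 2 + 5 * r + 3) * q) := by
    linear_combination (-(p * q)) * le
  have hrq : r ^ 2 * q ^ 2 ≤ 1.755 * q ^ 2 := by nlinarith [sq_nonneg q]
  have main2 : ∀ a b : ℝ, 1.3 * p ≤ a → (0 ≤ q → 1.3 * p + 1.4 * q ≤ a) → r ^ 2 * q ^ 2 + p ^ 2 < a ^ 2 + b ^ 2 := by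
    intro a b ha hab
    rcases le_total 0 q with hq | hq
    · have h8 := hab hq
      have h9 : (1.3 * p + 1.4 * q) ^ 2 ≤ a ^ 2 := by
        apply pow_le_pow_left₀ (by positivity) h8
      nlinarith [sq_nonneg b, mul_nonneg hp.le hq, sq_nonneg q, mul_pos hp hp]
    · have h9 : (1.3 * p) ^ 2 ≤ a ^ 2 := pow_le_pow_left₀ (by positivity) ha 2
      have h10 : q ^ 2 ≤ (0.394 * p) ^ 2 := by nlinarith
      nlinarith [sq_nonneg b, mul_pos hp hp]
  refine ⟨?_, ?_, ?_, ?_, ?_, ?_, ?_⟩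
  · have : 0 < p * ((2 * r ^ 2 + r - 1) * p + 2 * (1 + r) * q) := mul_pos hp (by nlinarith)
    linarith
  · have := main2 (r * (r ^ 2 * p + r * q)) c6 (by nlinarith) (fun hq => by nlinarith)
    rw [h7]
    nlinarith
  · have h8 : 0 < (3 * r + 1) * L * p + (2 * r ^ 2 + 5 * r + 3) * q := by
      have : 12.6 ≤ (3 * r + 1) * L := by nlinarith
      have := mul_le_mul_of_nonneg_right this hp.le
      nlinarith
    have h9 := mul_pos hpos h8
    rw [← F] at h9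
    have h10 : 0 < (3 * r + 1) * p ^ 2 + (6 * r ^ 2 + 4 * r + 2) * (p * q) + (2 * r ^ 2 + 5 * r + 3) * q ^ 2 := by
      by_contra hcc
      push Not at hcc
      have := mul_nonpos_of_nonneg_of_nonpos (show 0 ≤ L by linarith) hcc
      linarith
    linarith
  · have e : r ^ 2 * c5 ^ 2 = (p + (r + r ^ 2) * q) ^ 2 := by
      have : r * c5 = -(p + (r + r ^ 2) * q) := by
        rw [g5]
        linear_combination (-p) * hr
      calc r ^ 2 * c5 ^ 2 = (r * c5) ^ 2 := by ring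
        _ = _ := by rw [this]; ring
    rw [e, g4]
    have k1 : (3.079 : ℝ) ≤ r + r ^ 2 := by linarith
    have k2 : r + r ^ 2 ≤ 3.0797 := by linarith
    have k3 : (9.48 : ℝ) ≤ (r + r ^ 2) ^ 2 := by nlinarith
    have k4 : |(r + r ^ 2 - 1) * (p * q)| ≤ 2.08 * |p * q| := by
      rw [abs_mul]
      apply mul_le_mul_of_nonneg_right _ (abs_nonneg _)
      rw [abs_of_pos (by linarith)]
      linarith
    have k5 := (abs_le.mp k4).1
    have k6 : |p * q| ≤ p * |q| := by rw [abs_mul, abs_of_pos hp]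
    have k7 := mul_le_mul_of_nonneg_right k3 (sq_nonneg q)
    nlinarith [sq_nonneg (p - 2.08 * |q|), sq_abs q, mul_pos hp hp, sq_nonneg q]
  · rw [g4, g3]
    rcases le_total 0 q with hq | hq
    · nlinarith [mul_nonneg hp.le hq, mul_pos hp hp, mul_nonneg rp.le (mul_nonneg hp.le hq), sq_nonneg (r * q),
        mul_nonneg (show 0 ≤ r ^ 2 by positivity) (sq_nonneg (q - p))]
    · nlinarith [main2 ((1 + r ^ 2) * p + r * q) (r * (-p + q)) (by nlinarith) (fun hq' => by nlinarith)]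
  · have := main2 (r * c3) c2 (by rw [g3]; nlinarith) (fun hq => by rw [g3]; nlinarith)
    nlinarith
  · have := main2 (r * (2 * r ^ 2 * p + (1 + 2 * r) * q)) c1 (by nlinarith) (fun hq => by nlinarith)
    rw [g2]
    nlinarith

lemma eb {p q c7 c6 c5 c4 c3 c2 c1 : ℝ} (hpos : 0 < p * (p + lam r * q))
    (h7 : c7 = -(r ^ 2 * p + r * q)) (h6 : c6 = q - c7) (h5 : c5 = p - c6) (h4 : c4 = c7 - c5)
    (h3 : c3 = c6 - c4) (h2 : c2 = c5 - c3) (h1 : c1 = c4 - c2) :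
    r ^ 2 * q ^ 2 + p ^ 2 < r ^ 2 * p ^ 2 + c7 ^ 2 ∧ r ^ 2 * q ^ 2 + p ^ 2 < r ^ 2 * c7 ^ 2 + c6 ^ 2 ∧
    r ^ 2 * q ^ 2 + p ^ 2 < r ^ 2 * c6 ^ 2 + c5 ^ 2 ∧ r ^ 2 * q ^ 2 + p ^ 2 < r ^ 2 * c5 ^ 2 + c4 ^ 2 ∧
    r ^ 2 * q ^ 2 + p ^ 2 < r ^ 2 * c4 ^ 2 + c3 ^ 2 ∧ r ^ 2 * q ^ 2 + p ^ 2 < r ^ 2 * c3 ^ 2 + c2 ^ 2 ∧
    r ^ 2 * q ^ 2 + p ^ 2 < r ^ 2 * c2 ^ 2 + c1 ^ 2 := by
  rcases mul_pos_iff.mp hpos with ⟨a, b⟩ | ⟨a, b⟩
  · exact eb' hr a b h7 h6 h5 h4 h3 h2 h1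
  · have := eb' hr (p := -p) (q := -q) (c7 := -c7) (c6 := -c6) (c5 := -c5) (c4 := -c4) (c3 := -c3)
      (c2 := -c2) (c1 := -c1) (by linarith) (by linarith)
      (by rw [h7]; ring) (by rw [h6]; ring) (by rw [h5]; ring) (by rw [h4]; ring) (by rw [h3]; ring)
      (by rw [h2]; ring) (by rw [h1]; ring)
    simpa only [neg_sq] using this

theorem chr_euc : Chr r eucN (lam r) := by
  have r1 := r_lo hr
  have r2 := r_hi hr
  have r3 := r2_lo hr
  have r4 := r2_hi hr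
  constructor
  · intro j h
    by_contra hc
    push Not at hc
    have m1 : bb r (j + 2) = -(r ^ 2 * bb r (j + 3) + r * bb r (j + 3 + 1)) := back1 hr (j + 2)
    have e1 : bb r (j + 3 + 1) = bb r (j + 2) + bb r (j + 1) := bb_rec3 hr (j + 1)
    have e0 : bb r (j + 3) = bb r (j + 1) + bb r j := bb_rec3 hr j
    have m2 : bb r (j + 1) = r ^ 2 * bb r (j + 3) + (1 + r) * bb r (j + 3 + 1) := by linarith
    have m3 : bb r j = (1 - r ^ 2) * bb r (j + 3) - (1 + r) * bb r (j + 3 + 1) := by linarith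
    have h0 : eucN (err (r, r ^ 2) (U (j + 3))) < eucN (err (r, r ^ 2) (U j)) := h 0 (by norm_num)
    have h2 : eucN (err (r, r ^ 2) (U (j + 3))) < eucN (err (r, r ^ 2) (U (j + 2))) := h 2 (by norm_num)
    rw [euc_err hr, euc_err hr] at h0 h2
    rcases ea hr m1 m2 m3 hc with h | h
    · exact absurd h2 (not_lt.mpr (Real.sqrt_le_sqrt h))
    · exact absurd h0 (not_lt.mpr (Real.sqrt_le_sqrt h))
  · intro k hk hP i hi
    obtain ⟨n, rfl⟩ : ∃ n, k = i + n := ⟨k - i, by omega⟩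
    by_cases hn : 8 ≤ n
    · have t2 : (3.0795 : ℝ) < r ^ 4 := by nlinarith
      have t3 : (9.48 : ℝ) < r ^ 8 := by
        have : r ^ 8 = r ^ 4 * r ^ 4 := by ring
        nlinarith
      refine far hr (s := 1.2) (κ := 7) 8 (by norm_num) (by norm_num) (by linarith) ?_ ?_ ?_ i n hn
      · intro u
        exact Real.sqrt_nonneg _
      · intro u
        obtain ⟨a, b⟩ := u
        unfold eucN Q
        simp only
        rw [Real.sq_sqrt (by positivity)]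
        nlinarith [sq_nonneg (a + 0.8 * b), mul_nonneg (show 0 ≤ 0.5699 - (1 + r - r ^ 2) by linarith) (sq_nonneg a),
          mul_nonneg (show 0 ≤ 0.7549 - (r ^ 2 - 1) by linarith) (sq_nonneg b)]
      · intro u
        obtain ⟨a, b⟩ := u
        unfold eucN Q
        simp only
        rw [Real.sq_sqrt (by positivity)]
        nlinarith [sq_nonneg (a - 1.18 * b), mul_nonneg (show 0 ≤ (1 + r - r ^ 2) - 0.5698 by linarith) (sq_nonneg a),
          mul_nonneg (show 0 ≤ (r ^ 2 - 1) - 0.7548 by linarith) (sq_nonneg b)]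
    · obtain ⟨j, hj⟩ : ∃ j, i + n = j + 7 := ⟨i + n - 7, by omega⟩
      rw [hj] at hP ⊢
      have b7 : bb r (j + 6) = -(r ^ 2 * bb r (j + 7) + r * bb r (j + 7 + 1)) := back1 hr (j + 6)
      have b6 : bb r (j + 7 + 1) = bb r (j + 6) + bb r (j + 5) := bb_rec3 hr (j + 5)
      have b5 : bb r (j + 7) = bb r (j + 5) + bb r (j + 4) := bb_rec3 hr (j + 4)
      have b4 : bb r (j + 6) = bb r (j + 4) + bb r (j + 3) := bb_rec3 hr (j + 3)
      have b3 : bb r (j + 5) = bb r (j + 3) + bb r (j + 2) := bb_rec3 hr (j + 2)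
      have b2 : bb r (j + 4) = bb r (j + 2) + bb r (j + 1) := bb_rec3 hr (j + 1)
      have b1 : bb r (j + 3) = bb r (j + 1) + bb r j := bb_rec3 hr j
      have K := eb hr hP b7 (c6 := bb r (j + 5)) (c5 := bb r (j + 4)) (c4 := bb r (j + 3))
        (c3 := bb r (j + 2)) (c2 := bb r (j + 1)) (c1 := bb r j)
        (by linarith) (by linarith) (by linarith) (by linarith) (by linarith) (by linarith)
      obtain ⟨k7, k6, k5, k4, k3, k2, k1⟩ := K
      rw [euc_err hr, euc_err hr]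
      apply Real.sqrt_lt_sqrt (by positivity)
      have hcase : i = j + 6 ∨ i = j + 5 ∨ i = j + 4 ∨ i = j + 3 ∨ i = j + 2 ∨ i = j + 1 ∨ i = j := by
        omega
      rcases hcase with rfl | rfl | rfl | rfl | rfl | rfl | rfl
      · exact k7
      · exact k6
      · exact k5
      · exact k4
      · exact k3
      · exact k2
      · exact k1

/-- the exact value for the Euclidean norm -/
theorem G_euc : G eucN (r, r ^ 2) = ENNReal.ofReal
    (r ^ (Real.pi / Real.arctan (lam r * Real.sqrt (3 * r ^ 2 - 4) / (lam r * r - 2)))) := by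
  have r1 := r_lo hr
  obtain ⟨l1, l2⟩ := lam_bounds hr
  rw [G_exact hr (adm_euc hr) (show 0 < lam r by linarith) (chr_euc hr),
    angle_eq hr (lam r) (by nlinarith)]

end

end Pool.Agent.X40.BA
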