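import Mathlib

/-!
# The lattice, the unit, the norm form
-/

set_option autoImplicit false

namespace Pool.Agent.X40.BA

/-- the error vector of the integer vector `z = (x, y₁, y₂)` with respect to `Θ` -/
def err (Θ : ℝ × ℝ) (z : ℤ × ℤ × ℤ) : ℝ × ℝ :=
  ((z.1 : ℝ) * Θ.1 - z.2.1, (z.1 : ℝ) * Θ.2 - z.2.2)

/-- multiplication by the unit -/
def A (z : ℤ × ℤ × ℤ) : ℤ × ℤ × ℤ := (z.2.1, z.2.2, z.1 + z.2.1)

/-- its inverse -/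
def Ai (z : ℤ × ℤ × ℤ) : ℤ × ℤ × ℤ := (z.2.2 - z.1, z.1, z.2.1)

lemma A_Ai (z : ℤ × ℤ × ℤ) : A (Ai z) = z := by
  obtain ⟨x, y, w⟩ := z
  simp [A, Ai]

/-- the powers of the unit -/
def U : ℕ → ℤ × ℤ × ℤ
  | 0 => (1, 0, 0)
  | k + 1 => A (U k)

/-- the eigencoordinate -/
noncomputable def cc (r : ℝ) (z : ℤ × ℤ × ℤ) : ℝ := (z.1 : ℝ) + r ^ 2 * z.2.1 + r * z.2.2

/-- the induced map on error vectors -/
noncomputable def B (r : ℝ) (u : ℝ × ℝ) : ℝ × ℝ := (u.2 - r * u.1, -(r ^ 2 - 1) * u.1)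

/-- the quadratic form -/
noncomputable def Q (r : ℝ) (u : ℝ × ℝ) : ℝ :=
  (1 + r - r ^ 2) * u.1 ^ 2 - u.1 * u.2 + (r ^ 2 - 1) * u.2 ^ 2

/-- the norm form -/
def Nm (z : ℤ × ℤ × ℤ) : ℤ :=
  z.1 ^ 3 + 2 * z.1 ^ 2 * z.2.1 + z.1 * z.2.1 ^ 2 - z.1 * z.2.2 ^ 2 - 3 * z.1 * z.2.2 * z.2.1 -
    z.2.2 * z.2.1 ^ 2 + z.2.2 ^ 3 + z.2.1 ^ 3

lemma Nm_A (z : ℤ × ℤ × ℤ) : Nm (A z) = Nm z := by
  unfold Nm A
  ring

section
variable {r : ℝ} (hr : r ^ 3 = r + 1)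
include hr

lemma r_lo : (1.32471 : ℝ) < r := by
  by_contra h
  push Not at h
  nlinarith [sq_nonneg (r + 1.32471 / 2), sq_nonneg r]

lemma r_hi : r < (1.32472 : ℝ) := by
  by_contra h
  push Not at h
  nlinarith [sq_nonneg (r + 1.32472 / 2), sq_nonneg r]

lemma r2_lo : (1.75485 : ℝ) < r ^ 2 := by nlinarith [r_lo hr]

lemma r2_hi : r ^ 2 < (1.75489 : ℝ) := by nlinarith [r_lo hr, r_hi hr]

lemma cc_A (z : ℤ × ℤ × ℤ) : cc r (A z) = r * cc r z := by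
  unfold cc A
  push_cast
  linear_combination (-(z.2.1 : ℝ)) * hr

lemma err_A (z : ℤ × ℤ × ℤ) : err (r, r ^ 2) (A z) = B r (err (r, r ^ 2) z) := by
  unfold err B A
  ext
  · simp only
    ring
  · simp only
    push_cast
    linear_combination (z.1 : ℝ) * hr

lemma Nm_eq (z : ℤ × ℤ × ℤ) : (Nm z : ℝ) = cc r z * Q r (err (r, r ^ 2) z) := by
  obtain ⟨x', y', z'⟩ := z
  unfold Nm cc Q err
  push_cast
  generalize (x' : ℝ) = x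
  generalize (y' : ℝ) = y
  generalize (z' : ℝ) = z
  linear_combination (-((1)*r^0*x^0*y^0*z^3 + (-1)*r^0*x^0*y^2*z^1 + (1)*r^0*x^0*y^3*z^0 + (-2)*r^0*x^1*y^1*z^1 + (2)*r^0*x^2*y^1*z^0 + (1)*r^0*x^3*y^0*z^0 + (1)*r^1*x^0*y^1*z^2 + (-1)*r^1*x^0*y^3*z^0 + (2)*r^1*x^1*y^1*z^1 + (-1)*r^1*x^1*y^2*z^0 + (-1)*r^1*x^2*y^0*z^1 + (-1)*r^1*x^3*y^0*z^0 + (-2)*r^2*x^1*y^0*z^2 + (2)*r^2*x^1*y^2*z^0 + (-1)*r^2*x^2*y^0*z^1 + (1)*r^2*x^2*y^1*z^0 + (-2)*r^3*x^1*y^1*z^1 + (-1)*r^3*x^2*y^1*z^0 + (1)*r^3*x^3*y^0*z^0 + (1)*r^4*x^2*y^0*z^1 + (1)*r^5*x^2*y^1*z^0)) * hr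

lemma x_eq (z : ℤ × ℤ × ℤ) : (3 + 2 * r) * (z.1 : ℝ) =
    cc r z + r ^ 2 * (err (r, r ^ 2) z).1 + r * (err (r, r ^ 2) z).2 := by
  unfold cc err
  simp only
  linear_combination (-2 * (z.1 : ℝ)) * hr

lemma Q_pos (u : ℝ × ℝ) (hu : u ≠ 0) : 0 < Q r u := by
  unfold Q
  have h1 := r_lo hr
  have h2 := r_hi hr
  have h3 := r2_lo hr
  have h4 := r2_hi hr
  have h5 : 0 < u.1 ^ 2 + u.2 ^ 2 := by
    by_contra h
    apply hu
    have e1 : u.1 = 0 := by nlinarith [sq_nonneg u.1, sq_nonneg u.2]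
    have e2 : u.2 = 0 := by nlinarith [sq_nonneg u.1, sq_nonneg u.2]
    exact Prod.ext e1 e2
  nlinarith [sq_nonneg (u.1 * 0.75 - u.2 * 0.8), mul_nonneg (show 0 ≤ 1 + r - r ^ 2 - 0.5698 by linarith) (sq_nonneg u.1),
    mul_nonneg (show 0 ≤ r ^ 2 - 1 - 0.7548 by linarith) (sq_nonneg u.2), sq_nonneg (u.1 - 0.8 * u.2), sq_nonneg (0.7 * u.1 - 0.8 * u.2)]

lemma U_cc (k : ℕ) : cc r (U k) = r ^ k := by
  induction k with
  | zero => simp [cc, U]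
  | succ k ih => rw [U, cc_A hr, ih]; ring

lemma U_Nm (k : ℕ) : Nm (U k) = 1 := by
  induction k with
  | zero => simp [Nm, U]
  | succ k ih => rw [U, Nm_A, ih]

lemma U_Q (k : ℕ) : r ^ k * Q r (err (r, r ^ 2) (U k)) = 1 := by
  have := Nm_eq hr (U k)
  rw [U_Nm hr, U_cc hr] at this
  push_cast at this
  linarith

end

lemma U_nonneg (k : ℕ) : 0 ≤ (U k).1 ∧ 0 ≤ (U k).2.1 ∧ 0 ≤ (U k).2.2 := by
  induction k with
  | zero => simp [U]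
  | succ k ih =>
    obtain ⟨h1, h2, h3⟩ := ih
    exact ⟨h2, h3, add_nonneg h1 h2⟩

lemma U_mono (k : ℕ) : (U (k + 5)).1 ≤ (U (k + 6)).1 := by
  have h := U_nonneg k
  have e1 : (U (k + 5)).1 = (U k).1 + (U k).2.1 + (U k).2.2 := by simp only [U, A]; ring
  have e2 : (U (k + 6)).1 = (U k).1 + 2 * (U k).2.1 + (U k).2.2 := by simp only [U, A]; ring
  rw [e1, e2]
  linarith [h.2.1]

lemma U_mono' {a b : ℕ} (ha : 5 ≤ a) (h : a ≤ b) : (U a).1 ≤ (U b).1 := by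
  induction b, h using Nat.le_induction with
  | base => exact le_rfl
  | succ b hb ih =>
    obtain ⟨k, rfl⟩ : ∃ k, b = k + 5 := ⟨b - 5, by omega⟩
    exact ih.trans (U_mono k)

/-- decomposition along the powers of the unit -/
lemma A_iter (k : ℕ) (z : ℤ × ℤ × ℤ) : A^[k] z =
    (z.1 * (U k).1 + z.2.1 * (U (k + 2)).1 + z.2.2 * (U (k + 1)).1,
     z.1 * (U k).2.1 + z.2.1 * (U (k + 2)).2.1 + z.2.2 * (U (k + 1)).2.1,
     z.1 * (U k).2.2 + z.2.1 * (U (k + 2)).2.2 + z.2.2 * (U (k + 1)).2.2) := by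
  induction k with
  | zero =>
    obtain ⟨x, y, w⟩ := z
    simp [U, A]
  | succ k ih =>
    rw [Function.iterate_succ', Function.comp_apply, ih]
    simp only [U, A]
    refine Prod.ext ?_ (Prod.ext ?_ ?_)
    · simp only
    · simp only
    · simp only
      ring

end Pool.Agent.X40.BA
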