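import Pool.Agent.X40.BA.G1

/-!
# Large best approximations are powers of the unit
-/

set_option autoImplicit false
set_option linter.unusedSectionVars false

namespace Pool.Agent.X40.BA

/-- the properties of the norm which are used -/
structure Adm (r : ℝ) (f : ℝ × ℝ → ℝ) : Prop where
  tri : ∀ u v, f (u + v) ≤ f u + f v
  smul : ∀ (t : ℝ) (u : ℝ × ℝ), f (t • u) = |t| * f u
  lo1 : ∀ u, |u.1| ≤ f u
  lo2 : ∀ u, |u.2| ≤ f u
  up : ∀ u, f u ≤ |u.1| + |u.2|
  b1 : ∀ u, f (B r u) ≤ (1 + r) * f u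
  b2 : ∀ u, f (B r (B r u)) ≤ (1 + r) * f u
  q : ∃ s κ : ℝ, 0 < s ∧ 0 < κ ∧ s * κ * r < 14 ∧ (∀ u, Q r u ≤ s * f u ^ 2) ∧
    (∀ u, f u ^ 2 ≤ κ * Q r u)
  e11 : ∀ w, f w ≤ f ((3 : ℝ) • w - B r (B r w))
  g : ∀ p q : ℝ, 0 ≤ p * q → f (-r * q, p) ≤ f (p + r ^ 2 * q, q)

/-- best approximation vectors for `Θ` and the norm `f` -/
def IsBest (f : ℝ × ℝ → ℝ) (Θ : ℝ × ℝ) (z : ℤ × ℤ × ℤ) : Prop :=
  z ≠ 0 ∧ ∀ z' : ℤ × ℤ × ℤ, |z'.1| ≤ |z.1| → f (err Θ z') ≤ f (err Θ z) →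
    z' = 0 ∨ z' = z ∨ z' = -z

lemma fin_check : ∀ i : Fin 9, ∀ j : Fin 27, ∀ k : Fin 31,
    9985 ≤ 10000 * ((i.val : ℤ) - 4) + 17549 * ((j.val : ℤ) - 13) + 13247 * ((k.val : ℤ) - 15) →
    10000 * ((i.val : ℤ) - 4) + 17549 * ((j.val : ℤ) - 13) + 13247 * ((k.val : ℤ) - 15) ≤ 13260 →
    1 ≤ Nm ((i.val : ℤ) - 4, (j.val : ℤ) - 13, (k.val : ℤ) - 15) →
    Nm ((i.val : ℤ) - 4, (j.val : ℤ) - 13, (k.val : ℤ) - 15) ≤ 13 →
    (i.val = 5 ∧ j.val = 13 ∧ k.val = 15) ∨ (i.val = 4 ∧ j.val = 13 ∧ k.val = 16) ∨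
    (i.val = 3 ∧ j.val = 15 ∧ k.val = 14) ∨ (i.val = 2 ∧ j.val = 14 ∧ k.val = 16) ∨
    (i.val = 6 ∧ j.val = 11 ∧ k.val = 17) ∨ (i.val = 7 ∧ j.val = 12 ∧ k.val = 15) := by
  decide +kernel

section
variable {r : ℝ} (hr : r ^ 3 = r + 1)
include hr

lemma Q_lo (u : ℝ × ℝ) : u.1 ^ 2 ≤ 4.5 * Q r u ∧ u.2 ^ 2 ≤ 4.5 * Q r u := by
  unfold Q
  have h1 := r_lo hr
  have h2 := r_hi hr
  have h3 := r2_lo hr
  have h4 := r2_hi hr
  have k1 := mul_nonneg (show 0 ≤ 1 + r - r ^ 2 - 0.5698 by linarith) (sq_nonneg u.1)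
  have k2 := mul_nonneg (show 0 ≤ r ^ 2 - 1 - 0.7548 by linarith) (sq_nonneg u.2)
  constructor
  · nlinarith [sq_nonneg (u.1 - 1.47 * u.2)]
  · nlinarith [sq_nonneg (u.1 - 0.9 * u.2)]

lemma classify (z : ℤ × ℤ × ℤ) (h1 : 1 ≤ cc r z) (h2 : cc r z < r) (h3 : Nm z ≤ 13) :
    z = (1, 0, 0) ∨ z = (-1, 2, -1) ∨ z = (-2, 1, 1) ∨ z = (2, -2, 2) ∨ z = (3, -1, 0) := by
  have r1 := r_lo hr
  have r2 := r_hi hr
  have r3 := r2_lo hr
  have r4 := r2_hi hr
  have hN := Nm_eq hr z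
  have hx := x_eq hr z
  have hq := Q_lo hr (err (r, r ^ 2) z)
  have herr : err (r, r ^ 2) z ≠ 0 := by
    intro h
    rw [h] at hx
    simp only [Prod.fst_zero, Prod.snd_zero, mul_zero, add_zero] at hx
    have e1 : (0 : ℝ) < (z.1 : ℝ) := by
      by_contra hc
      push Not at hc
      nlinarith
    have e2 : (z.1 : ℝ) < 1 := by
      by_contra hc
      push Not at hc
      nlinarith
    have e3 : 0 < z.1 := by exact_mod_cast e1
    have e4 : z.1 < 1 := by exact_mod_cast e2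
    omega
  have hQ := Q_pos hr _ herr
  have hN1 : 1 ≤ Nm z := by
    have : (0 : ℝ) < (Nm z : ℝ) := by
      rw [hN]
      exact mul_pos (by linarith) hQ
    have : 0 < Nm z := by exact_mod_cast this
    omega
  have h3R : (Nm z : ℝ) ≤ 13 := by exact_mod_cast h3
  have hQ13 : Q r (err (r, r ^ 2) z) ≤ 13 := by
    nlinarith
  have a1 : |(err (r, r ^ 2) z).1| ≤ 7.65 := by
    apply abs_le_of_sq_le_sq _ (by norm_num)
    nlinarith [hq.1]
  have a2 : |(err (r, r ^ 2) z).2| ≤ 7.65 := by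
    apply abs_le_of_sq_le_sq _ (by norm_num)
    nlinarith [hq.2]
  rw [abs_le] at a1 a2
  obtain ⟨x, y, w⟩ := z
  have b1 : (err (r, r ^ 2) (x, y, w)).1 = x * r - y := rfl
  have b2 : (err (r, r ^ 2) (x, y, w)).2 = x * r ^ 2 - w := rfl
  have b3 : cc r (x, y, w) = x + r ^ 2 * y + r * w := rfl
  simp only at hx
  generalize (err (r, r ^ 2) (x, y, w)).1 = e1 at *
  generalize (err (r, r ^ 2) (x, y, w)).2 = e2 at *
  have x1 : (x : ℝ) < 5 := by
    by_contra hc
    push Not at hc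
    nlinarith [mul_le_mul_of_nonneg_left a1.2 (show 0 ≤ r ^ 2 by positivity),
      mul_le_mul_of_nonneg_left a2.2 (show 0 ≤ r by linarith)]
  have x2 : (-5 : ℝ) < x := by
    by_contra hc
    push Not at hc
    nlinarith [mul_le_mul_of_nonneg_left a1.1 (show 0 ≤ r ^ 2 by positivity),
      mul_le_mul_of_nonneg_left a2.1 (show 0 ≤ r by linarith)]
  have x3 : x < 5 := by exact_mod_cast x1
  have x4 : -5 < x := by exact_mod_cast x2
  have x5 : (x : ℝ) ≤ 4 := by exact_mod_cast (show x ≤ 4 by omega)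
  have x6 : (-4 : ℝ) ≤ x := by exact_mod_cast (show -4 ≤ x by omega)
  have y1 : (y : ℝ) < 14 := by nlinarith
  have y2 : (-14 : ℝ) < y := by nlinarith
  have y3 : y < 14 := by exact_mod_cast y1
  have y4 : -14 < y := by exact_mod_cast y2
  have w1 : (w : ℝ) < 16 := by nlinarith
  have w2 : (-16 : ℝ) < w := by nlinarith
  have w3 : w < 16 := by exact_mod_cast w1
  have w4 : -16 < w := by exact_mod_cast w2
  -- the approximate inequality
  have c1 : (9985 : ℝ) ≤ 10000 * x + 17549 * y + 13247 * w := by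
    have t1 : |(10000 * r ^ 2 - 17549) * (y : ℝ)| ≤ 0.5 * 14 := by
      rw [abs_mul]
      apply mul_le_mul _ _ (abs_nonneg _) (by norm_num)
      · rw [abs_le]; constructor <;> linarith
      · rw [abs_le]; constructor <;> linarith
    have t2 : |(10000 * r - 13247) * (w : ℝ)| ≤ 0.2 * 16 := by
      rw [abs_mul]
      apply mul_le_mul _ _ (abs_nonneg _) (by norm_num)
      · rw [abs_le]; constructor <;> linarith
      · rw [abs_le]; constructor <;> linarith
    rw [abs_le] at t1 t2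
    nlinarith [t1.1, t1.2, t2.1, t2.2]
  have c2 : 10000 * x + 17549 * y + 13247 * w ≤ (13260 : ℝ) := by
    have t1 : |(10000 * r ^ 2 - 17549) * (y : ℝ)| ≤ 0.5 * 14 := by
      rw [abs_mul]
      apply mul_le_mul _ _ (abs_nonneg _) (by norm_num)
      · rw [abs_le]; constructor <;> linarith
      · rw [abs_le]; constructor <;> linarith
    have t2 : |(10000 * r - 13247) * (w : ℝ)| ≤ 0.2 * 16 := by
      rw [abs_mul]
      apply mul_le_mul _ _ (abs_nonneg _) (by norm_num)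
      · rw [abs_le]; constructor <;> linarith
      · rw [abs_le]; constructor <;> linarith
    rw [abs_le] at t1 t2
    nlinarith [t1.1, t1.2, t2.1, t2.2]
  have c1' : 9985 ≤ 10000 * x + 17549 * y + 13247 * w := by exact_mod_cast c1
  have c2' : 10000 * x + 17549 * y + 13247 * w ≤ 13260 := by exact_mod_cast c2
  obtain ⟨i, hi⟩ : ∃ i : ℕ, x = (i : ℤ) - 4 := ⟨(x + 4).toNat, by omega⟩
  obtain ⟨j, hj⟩ : ∃ i : ℕ, y = (i : ℤ) - 13 := ⟨(y + 13).toNat, by omega⟩
  obtain ⟨k, hk⟩ : ∃ i : ℕ, w = (i : ℤ) - 15 := ⟨(w + 15).toNat, by omega⟩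
  subst hi hj hk
  have := fin_check ⟨i, by omega⟩ ⟨j, by omega⟩ ⟨k, by omega⟩ c1' c2' hN1 h3
  simp only at this
  rcases this with ⟨rfl, rfl, rfl⟩ | ⟨rfl, rfl, rfl⟩ | ⟨rfl, rfl, rfl⟩ | ⟨rfl, rfl, rfl⟩ |
    ⟨rfl, rfl, rfl⟩ | ⟨rfl, rfl, rfl⟩
  · left; norm_num
  · exfalso
    rw [b3] at h2
    norm_num at h2
  · right; left; norm_num
  · right; right; left; norm_num
  · right; right; right; left; norm_num
  · right; right; right; right; norm_num

lemma cc_iter (k : ℕ) (z : ℤ × ℤ × ℤ) : cc r (A^[k] z) = r ^ k * cc r z := by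
  induction k with
  | zero => simp
  | succ k ih => rw [Function.iterate_succ', Function.comp_apply, cc_A hr, ih]; ring

end

lemma Nm_iter (k : ℕ) (z : ℤ × ℤ × ℤ) : Nm (A^[k] z) = Nm z := by
  induction k with
  | zero => simp
  | succ k ih => rw [Function.iterate_succ', Function.comp_apply, Nm_A, ih]

lemma err_iter (Θ : ℝ × ℝ) (k : ℕ) (z : ℤ × ℤ × ℤ) : err Θ (A^[k] z) =
    (z.1 : ℝ) • err Θ (U k) + (z.2.1 : ℝ) • err Θ (U (k + 2)) + (z.2.2 : ℝ) • err Θ (U (k + 1)) := by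
  rw [A_iter]
  unfold err
  refine Prod.ext ?_ ?_
  · simp only [Prod.fst_add, Prod.smul_fst, smul_eq_mul]
    push_cast
    ring
  · simp only [Prod.snd_add, Prod.smul_snd, smul_eq_mul]
    push_cast
    ring

lemma iter_one (k : ℕ) : A^[k] (1, 0, 0) = U k := by
  rw [A_iter]
  simp

section
variable {r : ℝ} (hr : r ^ 3 = r + 1) {f : ℝ × ℝ → ℝ} (hf : Adm r f)
include hr hf

lemma best_le_one {z : ℤ × ℤ × ℤ} (hz : IsBest f (r, r ^ 2) z) (h0 : z.1 ≠ 0) :
    f (err (r, r ^ 2) z) ≤ 1 := by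
  by_contra hc
  push Not at hc
  have h1 : f (err (r, r ^ 2) (z.1, round ((z.1 : ℝ) * r), round ((z.1 : ℝ) * r ^ 2))) ≤ 1 := by
    refine (hf.up _).trans ?_
    unfold err
    have e1 := abs_sub_round ((z.1 : ℝ) * r)
    have e2 := abs_sub_round ((z.1 : ℝ) * r ^ 2)
    simp only
    linarith
  rcases hz.2 (z.1, round ((z.1 : ℝ) * r), round ((z.1 : ℝ) * r ^ 2)) le_rfl (h1.trans hc.le) with
    h | h | h
  · apply h0
    have := congrArg Prod.fst h
    simpa using this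
  · rw [h] at h1
    linarith
  · have := congrArg Prod.fst h
    simp only [Prod.fst_neg] at this
    omega

lemma compare {z : ℤ × ℤ × ℤ} (hz : IsBest f (r, r ^ 2) z) (h0 : 0 < z.1) {j : ℕ} (hj : 8 ≤ j)
    (hcz : r ^ j ≤ cc r z) (hne : z ≠ U j) : f (err (r, r ^ 2) z) < f (err (r, r ^ 2) (U j)) := by
  have r1 := r_lo hr
  have r2 := r_hi hr
  have r3 := r2_lo hr
  have r4 := r2_hi hr
  have hrj : 0 < r ^ j := by positivity
  by_contra hc
  push Not at hc
  have h1 := best_le_one hr hf hz h0.ne'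
  have e1 := abs_le.mp ((hf.lo1 _).trans h1)
  have e2 := abs_le.mp ((hf.lo2 _).trans h1)
  have q1 := Q_lo hr (err (r, r ^ 2) (U j))
  have q2 := U_Q hr j
  have q3 : (9.4 : ℝ) ≤ r ^ j := by
    have t1 : r ^ 8 ≤ r ^ j := pow_le_pow_right₀ (by linarith) hj
    have t2 : (3.0795 : ℝ) < r ^ 4 := by nlinarith
    have t3 : r ^ 8 = r ^ 4 * r ^ 4 := by ring
    nlinarith
  have q4 : Q r (err (r, r ^ 2) (U j)) ≤ 0.11 := by
    by_contra hq
    push Not at hq
    nlinarith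
  have u1 : |(err (r, r ^ 2) (U j)).1| ≤ 0.71 := by
    apply abs_le_of_sq_le_sq _ (by norm_num)
    nlinarith [q1.1]
  have u2 : |(err (r, r ^ 2) (U j)).2| ≤ 0.71 := by
    apply abs_le_of_sq_le_sq _ (by norm_num)
    nlinarith [q1.2]
  rw [abs_le] at u1 u2
  have x1 := x_eq hr z
  have x2 := x_eq hr (U j)
  rw [U_cc hr] at x2
  have x3 : ((U j).1 : ℝ) - z.1 < 1 := by
    by_contra hx
    push Not at hx
    have y1 : (3 + 2 * r) * (((U j).1 : ℝ) - z.1) ≤ r ^ 2 * 1.71 + r * 1.71 := by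
      nlinarith [mul_le_mul_of_nonneg_left (show (err (r, r ^ 2) (U j)).1 - (err (r, r ^ 2) z).1 ≤ 1.71 by
        linarith [u1.2, e1.1]) (show 0 ≤ r ^ 2 by positivity),
        mul_le_mul_of_nonneg_left (show (err (r, r ^ 2) (U j)).2 - (err (r, r ^ 2) z).2 ≤ 1.71 by
        linarith [u2.2, e2.1]) (show 0 ≤ r by linarith)]
    nlinarith
  have x4 : (U j).1 - z.1 < 1 := by exact_mod_cast x3
  have x5 : |(U j).1| ≤ |z.1| := by
    rw [abs_of_nonneg (U_nonneg j).1, abs_of_pos h0]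
    omega
  rcases hz.2 (U j) x5 hc with h | h | h
  · have := U_cc hr j
    rw [h] at this
    simp [cc] at this
    linarith
  · exact hne h.symm
  · have h6 := U_cc hr j
    rw [h] at h6
    have h7 : cc r (-z) = - cc r z := by
      unfold cc
      simp only [Prod.fst_neg, Prod.snd_neg]
      push_cast
      ring
    rw [h7] at h6
    linarith

/-- large best approximations are powers of the unit -/
theorem best_unit {z : ℤ × ℤ × ℤ} (hz : IsBest f (r, r ^ 2) z) (h0 : 0 < z.1)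
    (hcz : r ^ 10 ≤ cc r z) : ∃ k, 10 ≤ k ∧ z = U k := by
  have r1 := r_lo hr
  have r2 := r_hi hr
  have r3 := r2_lo hr
  have r4 := r2_hi hr
  have hrpos : 0 < r := by linarith
  have hone : 1 ≤ r ^ 10 := one_le_pow₀ (by linarith)
  obtain ⟨k, hk1, hk2⟩ := exists_nat_pow_near (hone.trans hcz) (show 1 < r by linarith)
  have hk : 10 ≤ k := by
    by_contra h
    have : r ^ (k + 1) ≤ r ^ 10 := pow_le_pow_right₀ (by linarith) (by omega)
    linarith
  refine ⟨k, hk, ?_⟩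
  by_contra hne
  have c1 := compare hr hf hz h0 (show 8 ≤ k by omega) hk1 hne
  obtain ⟨j, rfl⟩ : ∃ j, k = j + 2 := ⟨k - 2, by omega⟩
  have hrk : 0 < r ^ (j + 2) := by positivity
  have hjk : r ^ j < r ^ (j + 2) := pow_lt_pow_right₀ (by linarith) (by omega)
  have hne2 : z ≠ U j := by
    intro h
    rw [h, U_cc hr] at hk1
    linarith
  have c2 := compare hr hf hz h0 (show 8 ≤ j by omega) (hjk.le.trans hk1) hne2
  -- the norm is at most thirteen
  obtain ⟨s, κ, hs, hκ, hsk, hq1, hq2⟩ := hf.q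
  have fpos : 0 ≤ f (err (r, r ^ 2) z) := (abs_nonneg _).trans (hf.lo1 _)
  have n1 := Nm_eq hr z
  have n2 := hq1 (err (r, r ^ 2) z)
  have n3 := hq2 (err (r, r ^ 2) (U (j + 2)))
  have n4 := U_Q hr (j + 2)
  have n5 : f (err (r, r ^ 2) z) ^ 2 ≤ f (err (r, r ^ 2) (U (j + 2))) ^ 2 :=
    pow_le_pow_left₀ fpos c1.le 2
  have n6 : Q r (err (r, r ^ 2) z) ≤ s * (κ * Q r (err (r, r ^ 2) (U (j + 2)))) :=
    n2.trans (mul_le_mul_of_nonneg_left (n5.trans n3) hs.le)
  have n7 : 0 ≤ Q r (err (r, r ^ 2) z) := by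
    have := (Q_lo hr (err (r, r ^ 2) z)).1
    nlinarith [sq_nonneg (err (r, r ^ 2) z).1]
  have n8 : (Nm z : ℝ) < 14 := by
    rw [n1]
    calc cc r z * Q r (err (r, r ^ 2) z) ≤ r ^ (j + 2 + 1) * Q r (err (r, r ^ 2) z) :=
          mul_le_mul_of_nonneg_right hk2.le n7
      _ ≤ r ^ (j + 2 + 1) * (s * (κ * Q r (err (r, r ^ 2) (U (j + 2))))) :=
          mul_le_mul_of_nonneg_left n6 (by positivity)
      _ = s * κ * r * (r ^ (j + 2) * Q r (err (r, r ^ 2) (U (j + 2)))) := by ring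
      _ = s * κ * r := by rw [n4]; ring
      _ < 14 := hsk
  have n9 : Nm z < 14 := by exact_mod_cast n8
  -- the reduced vector
  have hA : A^[j + 2] (Ai^[j + 2] z) = z := (Function.LeftInverse.iterate A_Ai (j + 2)) z
  generalize Ai^[j + 2] z = z' at hA
  have m1 : r ^ (j + 2) * cc r z' = cc r z := by rw [← cc_iter hr, hA]
  have m2 : 1 ≤ cc r z' := by
    by_contra h
    push Not at h
    have : r ^ (j + 2) * cc r z' < r ^ (j + 2) * 1 := mul_lt_mul_of_pos_left h hrk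
    linarith
  have m3 : cc r z' < r := by
    by_contra h
    push Not at h
    have : r ^ (j + 2) * r ≤ r ^ (j + 2) * cc r z' := mul_le_mul_of_nonneg_left h hrk.le
    rw [← pow_succ] at this
    linarith
  have m4 : Nm z' ≤ 13 := by
    rw [← Nm_iter (j + 2) z', hA]
    omega
  have m5 := err_iter (r, r ^ 2) (j + 2) z'
  rw [hA] at m5
  have v2 : err (r, r ^ 2) (U (j + 2)) = B r (B r (err (r, r ^ 2) (U j))) := by
    rw [U, err_A hr, U, err_A hr]
  have v3 : err (r, r ^ 2) (U (j + 2 + 1)) = B r (err (r, r ^ 2) (U (j + 2))) := by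
    rw [U, err_A hr]
  have v4 : err (r, r ^ 2) (U (j + 2 + 2)) = B r (B r (err (r, r ^ 2) (U (j + 2)))) := by
    rw [U, err_A hr, U, err_A hr]
  rcases classify hr z' m2 m3 m4 with rfl | rfl | rfl | rfl | rfl
  · apply hne
    rw [← hA]
    exact iter_one _
  · -- norm five
    have id5 : (2 + r - r ^ 2) • err (r, r ^ 2) (U j) =
        (2 - r ^ 2) • err (r, r ^ 2) (U (j + 2)) + (-1 : ℝ) • err (r, r ^ 2) z := by
      rw [m5, v4, v3, v2]
      generalize err (r, r ^ 2) (U j) = v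
      obtain ⟨a, b⟩ := v
      unfold B
      refine Prod.ext ?_ ?_
      · simp only [Prod.fst_add, Prod.smul_fst, smul_eq_mul]
        push_cast
        linear_combination (b - 2 * r * a - a) * hr
      · simp only [Prod.snd_add, Prod.smul_snd, smul_eq_mul]
        push_cast
        linear_combination ((1 - r ^ 2) * a - (r + 1) * b) * hr
    have t1 := hf.smul (2 + r - r ^ 2) (err (r, r ^ 2) (U j))
    rw [id5, abs_of_pos (show 0 < 2 + r - r ^ 2 by linarith)] at t1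
    have t2 := hf.tri ((2 - r ^ 2) • err (r, r ^ 2) (U (j + 2))) ((-1 : ℝ) • err (r, r ^ 2) z)
    rw [hf.smul, hf.smul, abs_of_pos (show 0 < 2 - r ^ 2 by linarith), abs_neg, abs_one, one_mul] at t2
    have t3 := hf.b2 (err (r, r ^ 2) (U j))
    rw [← v2] at t3
    have t4 := mul_le_mul_of_nonneg_left t3 (show 0 ≤ 2 - r ^ 2 by linarith)
    have t5 : (2 - r ^ 2) * ((1 + r) * f (err (r, r ^ 2) (U j))) =
        (1 + r - r ^ 2) * f (err (r, r ^ 2) (U j)) := by
      linear_combination (-(f (err (r, r ^ 2) (U j)))) * hr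
    rw [t5] at t4
    linarith
  · -- norm seven
    have id7 : (1 + r ^ 2) • err (r, r ^ 2) (U (j + 2)) =
        (1 - r) • B r (err (r, r ^ 2) (U (j + 2))) + (-1 : ℝ) • err (r, r ^ 2) z := by
      rw [m5, v4, v3]
      generalize err (r, r ^ 2) (U (j + 2)) = v
      obtain ⟨a, b⟩ := v
      unfold B
      refine Prod.ext ?_ ?_
      · simp only [Prod.fst_add, Prod.smul_fst, smul_eq_mul]
        push_cast
        ring
      · simp only [Prod.snd_add, Prod.smul_snd, smul_eq_mul]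
        push_cast
        ring
    have t1 := hf.smul (1 + r ^ 2) (err (r, r ^ 2) (U (j + 2)))
    rw [id7, abs_of_pos (show 0 < 1 + r ^ 2 by positivity)] at t1
    have t2 := hf.tri ((1 - r) • B r (err (r, r ^ 2) (U (j + 2)))) ((-1 : ℝ) • err (r, r ^ 2) z)
    rw [hf.smul, hf.smul, abs_of_neg (show 1 - r < 0 by linarith), abs_neg, abs_one, one_mul] at t2
    have t3 := hf.b1 (err (r, r ^ 2) (U (j + 2)))
    have t4 := mul_le_mul_of_nonneg_left t3 (show 0 ≤ -(1 - r) by linarith)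
    have t5 : 0 ≤ f (err (r, r ^ 2) (U (j + 2))) := (abs_nonneg _).trans (hf.lo1 _)
    nlinarith
  · -- norm eight
    have id8 : err (r, r ^ 2) z = (2 : ℝ) • err (r, r ^ 2) (U j) := by
      rw [m5, v4, v3, v2]
      generalize err (r, r ^ 2) (U j) = v
      obtain ⟨a, b⟩ := v
      unfold B
      refine Prod.ext ?_ ?_
      · simp only [Prod.fst_add, Prod.smul_fst, smul_eq_mul]
        push_cast
        linear_combination (-2 * b + 2 * a + 2 * r * a) * hr
      · simp only [Prod.snd_add, Prod.smul_snd, smul_eq_mul]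
        push_cast
        linear_combination (2 * b - 2 * a + 2 * r ^ 2 * a) * hr
    have t1 := hf.smul 2 (err (r, r ^ 2) (U j))
    rw [← id8, abs_of_pos (show (0 : ℝ) < 2 by norm_num)] at t1
    have t5 : 0 ≤ f (err (r, r ^ 2) (U j)) := (abs_nonneg _).trans (hf.lo1 _)
    linarith
  · -- norm eleven
    have id11 : err (r, r ^ 2) z = (3 : ℝ) • err (r, r ^ 2) (U (j + 2)) -
        B r (B r (err (r, r ^ 2) (U (j + 2)))) := by
      rw [m5, v4, v3]
      generalize err (r, r ^ 2) (U (j + 2)) = v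
      obtain ⟨a, b⟩ := v
      unfold B
      refine Prod.ext ?_ ?_
      · simp only [Prod.fst_add, Prod.fst_sub, Prod.smul_fst, smul_eq_mul]
        push_cast
        ring
      · simp only [Prod.snd_add, Prod.snd_sub, Prod.smul_snd, smul_eq_mul]
        push_cast
        ring
    have t1 := hf.e11 (err (r, r ^ 2) (U (j + 2)))
    rw [← id11] at t1
    linarith

end

end Pool.Agent.X40.BA
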