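import Pool.Agent.X40.BA.G2

/-!
# The sup norm and the Euclidean norm
-/

set_option autoImplicit false
set_option linter.unusedSectionVars false

namespace Pool.Agent.X40.BA

/-- the sup norm -/
def supN (u : ℝ × ℝ) : ℝ := max |u.1| |u.2|

/-- the Euclidean norm -/
noncomputable def eucN (u : ℝ × ℝ) : ℝ := Real.sqrt (u.1 ^ 2 + u.2 ^ 2)

section
variable {r : ℝ} (hr : r ^ 3 = r + 1)
include hr

lemma BB (u : ℝ × ℝ) : B r (B r u) = (u.1 - r * u.2, u.1 - (r ^ 2 - 1) * u.2) := by
  unfold B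
  refine Prod.ext ?_ ?_
  · simp only
    ring
  · simp only
    linear_combination u.1 * hr

theorem adm_sup : Adm r supN := by
  have r1 := r_lo hr
  have r2 := r_hi hr
  have r3 := r2_lo hr
  have r4 := r2_hi hr
  refine ⟨?_, ?_, ?_, ?_, ?_, ?_, ?_, ⟨1 + r, 4.5, by linarith, by norm_num, by nlinarith, ?_, ?_⟩, ?_, ?_⟩
  · intro u v
    unfold supN
    apply max_le
    · exact (abs_add_le _ _).trans (add_le_add (le_max_left _ _) (le_max_left _ _))
    · exact (abs_add_le _ _).trans (add_le_add (le_max_right _ _) (le_max_right _ _))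
  · intro t u
    unfold supN
    rw [Prod.smul_fst, Prod.smul_snd, smul_eq_mul, smul_eq_mul, abs_mul, abs_mul,
      mul_max_of_nonneg _ _ (abs_nonneg t)]
  · intro u
    exact le_max_left _ _
  · intro u
    exact le_max_right _ _
  · intro u
    unfold supN
    apply max_le <;> linarith [abs_nonneg u.1, abs_nonneg u.2]
  · intro u
    obtain ⟨a, b⟩ := u
    unfold supN B
    simp only
    have h1 : |a| ≤ max |a| |b| := le_max_left _ _
    have h2 : |b| ≤ max |a| |b| := le_max_right _ _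
    rw [abs_le] at h1 h2
    apply max_le <;> rw [abs_le] <;> constructor <;> nlinarith
  · intro u
    rw [BB hr]
    obtain ⟨a, b⟩ := u
    unfold supN
    simp only
    have h1 : |a| ≤ max |a| |b| := le_max_left _ _
    have h2 : |b| ≤ max |a| |b| := le_max_right _ _
    rw [abs_le] at h1 h2
    apply max_le <;> rw [abs_le] <;> constructor <;> nlinarith
  · intro u
    obtain ⟨a, b⟩ := u
    unfold supN Q
    simp only
    have h1 : |a| ≤ max |a| |b| := le_max_left _ _
    have h2 : |b| ≤ max |a| |b| := le_max_right _ _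
    have h3 : a ^ 2 ≤ (max |a| |b|) ^ 2 := sq_le_sq' (by linarith [(abs_le.mp h1).1]) (abs_le.mp h1).2
    have h4 : b ^ 2 ≤ (max |a| |b|) ^ 2 := sq_le_sq' (by linarith [(abs_le.mp h2).1]) (abs_le.mp h2).2
    nlinarith [sq_nonneg (a + b)]
  · intro u
    have h := Q_lo hr u
    unfold supN
    rcases max_choice |u.1| |u.2| with h1 | h1 <;> rw [h1, sq_abs]
    · exact h.1
    · exact h.2
  · intro w
    rw [BB hr]
    obtain ⟨a, b⟩ := w
    unfold supN
    simp only [Prod.smul_mk, smul_eq_mul, Prod.mk_sub_mk]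
    by_cases hc : |a| ≤ r * |b|
    · have h1 : |(r ^ 2 + 2) * b| ≤ |3 * b - (a - (r ^ 2 - 1) * b)| + |a| := by
        have := abs_add_le (3 * b - (a - (r ^ 2 - 1) * b)) a
        rwa [show 3 * b - (a - (r ^ 2 - 1) * b) + a = (r ^ 2 + 2) * b by ring] at this
      rw [abs_mul, abs_of_pos (show 0 < r ^ 2 + 2 by positivity)] at h1
      have h2 := abs_nonneg b
      have h3 : max |a| |b| ≤ r * |b| := max_le hc (by nlinarith)
      refine h3.trans (le_trans ?_ (le_max_right _ _))
      nlinarith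
    · push Not at hc
      have h1 : |2 * a| ≤ |3 * a - (a - r * b)| + |-(r * b)| := by
        have := abs_add_le (3 * a - (a - r * b)) (-(r * b))
        rwa [show 3 * a - (a - r * b) + -(r * b) = 2 * a by ring] at this
      rw [abs_neg, abs_mul, abs_mul, abs_two, abs_of_pos (show 0 < r by linarith)] at h1
      have h2 := abs_nonneg b
      have h3 : max |a| |b| ≤ |a| := max_le le_rfl (by nlinarith)
      refine h3.trans (le_trans ?_ (le_max_left _ _))
      linarith
  · intro p q hpq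
    unfold supN
    simp only
    refine le_trans ?_ (le_max_left _ _)
    have h1 : |p + r ^ 2 * q| = |p| + r ^ 2 * |q| := by
      rcases le_total 0 p with hp | hp <;> rcases le_total 0 q with hq | hq
      · rw [abs_of_nonneg hp, abs_of_nonneg hq, abs_of_nonneg (by positivity)]
      · have : p * q ≤ 0 := mul_nonpos_of_nonneg_of_nonpos hp hq
        have h0 : p * q = 0 := le_antisymm this hpq
        rcases mul_eq_zero.mp h0 with h | h <;> rw [h] <;> simp [abs_mul]
      · have : p * q ≤ 0 := mul_nonpos_of_nonpos_of_nonneg hp hq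
        have h0 : p * q = 0 := le_antisymm this hpq
        rcases mul_eq_zero.mp h0 with h | h <;> rw [h] <;> simp [abs_mul]
      · rw [abs_of_nonpos hp, abs_of_nonpos hq, abs_of_nonpos (by nlinarith [sq_nonneg r])]
        ring
    rw [h1]
    have hp := abs_nonneg p
    have hq := abs_nonneg q
    apply max_le
    · rw [abs_mul, abs_neg, abs_of_pos (show 0 < r by linarith)]
      nlinarith
    · nlinarith

lemma eucN_eq (u : ℝ × ℝ) : eucN u = ‖(⟨u.1, u.2⟩ : ℂ)‖ := by
  unfold eucN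
  rw [Complex.norm_def, Complex.normSq_mk]
  congr 1
  ring

theorem adm_euc : Adm r eucN := by
  have r1 := r_lo hr
  have r2 := r_hi hr
  have r3 := r2_lo hr
  have r4 := r2_hi hr
  refine ⟨?_, ?_, ?_, ?_, ?_, ?_, ?_, ⟨1.2, 7, by norm_num, by norm_num, by nlinarith, ?_, ?_⟩, ?_, ?_⟩
  · intro u v
    rw [eucN_eq hr, eucN_eq hr, eucN_eq hr]
    have : (⟨(u + v).1, (u + v).2⟩ : ℂ) = ⟨u.1, u.2⟩ + ⟨v.1, v.2⟩ := rfl
    rw [this]
    exact norm_add_le _ _
  · intro t u
    unfold eucN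
    rw [Prod.smul_fst, Prod.smul_snd, smul_eq_mul, smul_eq_mul,
      show (t * u.1) ^ 2 + (t * u.2) ^ 2 = t ^ 2 * (u.1 ^ 2 + u.2 ^ 2) by ring,
      Real.sqrt_mul (sq_nonneg t), Real.sqrt_sq_eq_abs]
  · intro u
    unfold eucN
    apply Real.abs_le_sqrt
    nlinarith [sq_nonneg u.2]
  · intro u
    unfold eucN
    apply Real.abs_le_sqrt
    nlinarith [sq_nonneg u.1]
  · intro u
    unfold eucN
    apply Real.sqrt_le_iff.mpr
    constructor
    · positivity
    · nlinarith [sq_abs u.1, sq_abs u.2, mul_nonneg (abs_nonneg u.1) (abs_nonneg u.2)]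
  · intro u
    obtain ⟨a, b⟩ := u
    unfold eucN B
    simp only
    apply Real.sqrt_le_iff.mpr
    constructor
    · positivity
    · have h0 : ((1 + r) * √(a ^ 2 + b ^ 2)) ^ 2 = (1 + r) ^ 2 * (a ^ 2 + b ^ 2) := by
        rw [mul_pow, Real.sq_sqrt (by positivity)]
      rw [h0]
      have h1 : (r ^ 2 - 1) ^ 2 ≤ 0.57 := by nlinarith
      nlinarith [sq_nonneg (a + b), sq_nonneg (a - b), mul_nonneg (show 0 ≤ 0.57 - (r ^ 2 - 1) ^ 2 by linarith) (sq_nonneg a),
        mul_nonneg (show 0 ≤ r by linarith) (sq_nonneg (a + b)), mul_nonneg (show 0 ≤ r by linarith) (sq_nonneg a),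
        mul_nonneg (show 0 ≤ r by linarith) (sq_nonneg b), sq_nonneg (r * b), sq_nonneg a, sq_nonneg b]
  · intro u
    rw [BB hr]
    obtain ⟨a, b⟩ := u
    unfold eucN
    simp only
    apply Real.sqrt_le_iff.mpr
    constructor
    · positivity
    · rw [mul_pow, Real.sq_sqrt (by positivity)]
      have h1 : (r ^ 2 - 1) ^ 2 ≤ 0.57 := by nlinarith
      have h2 : (5.4 : ℝ) ≤ (1 + r) ^ 2 := by nlinarith
      have h3 : |(2 * (r + r ^ 2 - 1)) * (a * b)| ≤ 4.16 * |a * b| := by
        rw [abs_mul]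
        apply mul_le_mul_of_nonneg_right _ (abs_nonneg _)
        rw [abs_of_pos (by linarith)]
        linarith
      have h4 : 2 * |a * b| ≤ a ^ 2 + b ^ 2 := by
        rw [abs_mul]
        nlinarith [sq_nonneg (|a| - |b|), sq_abs a, sq_abs b]
      have h5 := (abs_le.mp h3).1
      nlinarith [mul_nonneg (show 0 ≤ 0.57 - (r ^ 2 - 1) ^ 2 by linarith) (sq_nonneg b),
        mul_nonneg (show 0 ≤ (1 + r) ^ 2 - 5.4 by linarith) (sq_nonneg a),
        mul_nonneg (show 0 ≤ (1 + r) ^ 2 - 5.4 by linarith) (sq_nonneg b),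
        mul_nonneg (show 0 ≤ 1.75489 - r ^ 2 by linarith) (sq_nonneg b)]
  · intro u
    obtain ⟨a, b⟩ := u
    unfold eucN Q
    simp only
    rw [Real.sq_sqrt (by positivity)]
    nlinarith [sq_nonneg (a + 0.8 * b), mul_nonneg (show 0 ≤ 0.5699 - (1 + r - r ^ 2) by linarith) (sq_nonneg a),
      mul_nonneg (show 0 ≤ 0.7549 - (r ^ 2 - 1) by linarith) (sq_nonneg b)]
  · intro u
    obtain ⟨a, b⟩ := u
    unfold eucN Q
    simp only
    rw [Real.sq_sqrt (by positivity)]
    nlinarith [sq_nonneg (a - 1.18 * b), mul_nonneg (show 0 ≤ (1 + r - r ^ 2) - 0.5698 by linarith) (sq_nonneg a),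
      mul_nonneg (show 0 ≤ (r ^ 2 - 1) - 0.7548 by linarith) (sq_nonneg b)]
  · intro w
    rw [BB hr]
    obtain ⟨a, b⟩ := w
    unfold eucN
    simp only [Prod.smul_mk, smul_eq_mul, Prod.mk_sub_mk]
    apply Real.sqrt_le_sqrt
    have h1 : (3 * a - (a - r * b)) ^ 2 = 4 * a ^ 2 + 4 * r * (a * b) + r ^ 2 * b ^ 2 := by ring
    have h2 : (3 * b - (a - (r ^ 2 - 1) * b)) ^ 2 = (r ^ 2 + 2) ^ 2 * b ^ 2 - 2 * (r ^ 2 + 2) * (a * b) + a ^ 2 := by
      ring
    rw [h1, h2]
    have h3 : |(4 * r - 2 * (r ^ 2 + 2)) * (a * b)| ≤ 2.22 * |a * b| := by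
      rw [abs_mul]
      apply mul_le_mul_of_nonneg_right _ (abs_nonneg _)
      rw [abs_le]
      constructor <;> linarith
    have h4 : 2 * |a * b| ≤ a ^ 2 + b ^ 2 := by
      rw [abs_mul]
      nlinarith [sq_nonneg (|a| - |b|), sq_abs a, sq_abs b]
    have h5 := (abs_le.mp h3).1
    have h6 : (14 : ℝ) ≤ (r ^ 2 + 2) ^ 2 := by nlinarith
    nlinarith [mul_nonneg (show 0 ≤ (r ^ 2 + 2) ^ 2 - 14 by linarith) (sq_nonneg b), sq_nonneg (r * b), sq_nonneg a]
  · intro p q hpq
    unfold eucN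
    simp only
    apply Real.sqrt_le_sqrt
    nlinarith [mul_nonneg (sq_nonneg r) hpq, sq_nonneg (r ^ 2 * q - q / 2), sq_nonneg q, sq_nonneg (r * q), sq_nonneg ((r ^ 2 - 1) * q),
      mul_nonneg (sq_nonneg r) (mul_nonneg (show 0 ≤ r ^ 2 - 1 by linarith) (sq_nonneg q))]

end

end Pool.Agent.X40.BA
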